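import Mathlib

set_option autoImplicit false

/-! # Abstract part: level of the ground states -/

namespace Pool.Agent.W5h41.GT

open Filter Topology

/-- The abstract data: a Dirichlet form `D`, a mass form `M`, a `p`-power functional `P` with
derivative `p I`, and the two estimates. -/
structure Frame (V : Type*) [AddCommGroup V] [Module ℝ V] (p L lam0 : ℝ) where
  D : V → V → ℝ
  M : V → V → ℝ
  P : V → ℝ
  I : V → V → ℝ
  D_exp : ∀ (u h : V) (s : ℝ), D (u + s • h) (u + s • h) = D u u + 2 * s * D u h + s ^ 2 * D h h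
  M_exp : ∀ (u h : V) (s : ℝ), M (u + s • h) (u + s • h) = M u u + 2 * s * M u h + s ^ 2 * M h h
  D_left : ∀ (u h : V) (s : ℝ), D (s • u) h = s * D u h
  D_right : ∀ (u h : V) (s : ℝ), D u (s • h) = s * D u h
  M_left : ∀ (u h : V) (s : ℝ), M (s • u) h = s * M u h
  M_right : ∀ (u h : V) (s : ℝ), M u (s • h) = s * M u h
  I_left : ∀ (u h : V) (s : ℝ), 0 < s → I (s • u) h = s ^ (p - 1) * I u h
  I_right : ∀ (u h : V) (s : ℝ), I u (s • h) = s * I u h
  P_smul : ∀ (u : V) (s : ℝ), 0 < s → P (s • u) = s ^ p * P u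
  I_self : ∀ u : V, I u u = P u
  P_nonneg : ∀ u : V, 0 ≤ P u
  M_nonneg : ∀ u : V, 0 ≤ M u u
  M_pos : ∀ u : V, 0 < P u → 0 < M u u
  conv : ∀ (u h : V) (s : ℝ), P u + p * s * I u h ≤ P (u + s • h)
  sob : ∀ u : V, L * P u ^ (2 / p) + lam0 * M u u ≤ D u u
  opt : ∀ η : ℝ, 0 < η → ∃ u : V, 0 < P u ∧ D u u ≤ (L + η) * P u ^ (2 / p)

namespace Frame

variable {V : Type*} [AddCommGroup V] [Module ℝ V] {p L lam0 : ℝ} (S : Frame V p L lam0)

/-- the functional -/
noncomputable def J (lam : ℝ) (u : V) : ℝ := 1 / 2 * S.D u u - lam / 2 * S.M u u - 1 / p * S.P u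

/-- its derivative -/
noncomputable def dJ (lam : ℝ) (u h : V) : ℝ := S.D u h - lam * S.M u h - S.I u h

/-- the level -/
noncomputable def lev (p L : ℝ) : ℝ := (1 / 2 - 1 / p) * L ^ (p / (p - 2))

/-- the quadratic form -/
noncomputable def G (lam : ℝ) (u : V) : ℝ := S.D u u - lam * S.M u u

theorem lev_pos (hp : 2 < p) (hL : 0 < L) : 0 < lev p L := by
  unfold lev
  have : 1 / p < 1 / 2 := one_div_lt_one_div_of_lt (by norm_num) hp
  have h2 : 0 < L ^ (p / (p - 2)) := Real.rpow_pos_of_pos hL _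
  exact mul_pos (by linarith) h2

/-- `x ≥ L x^(2/p)` with `x > 0` gives `x ≥ L^(p/(p-2))` -/
theorem pow_le (hp : 2 < p) (hL : 0 < L) {x : ℝ} (hx : 0 < x) (h : L * x ^ (2 / p) ≤ x) :
    L ^ (p / (p - 2)) ≤ x := by
  have hp0 : 0 < p := by linarith
  have h1 : x = x ^ (2 / p) * x ^ ((p - 2) / p) := by
    rw [← Real.rpow_add hx]
    have : 2 / p + (p - 2) / p = 1 := by field_simp; ring
    rw [this, Real.rpow_one]
  have h2 : L ≤ x ^ ((p - 2) / p) := by
    have h3 : 0 < x ^ (2 / p) := Real.rpow_pos_of_pos hx _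
    rw [h1] at h
    have h4 : x ^ (2 / p) * L ≤ x ^ (2 / p) * x ^ ((p - 2) / p) := by
      have e : (x ^ (2 / p) * x ^ ((p - 2) / p)) = x := h1.symm
      rw [e] at h
      rw [e]
      linarith
    exact le_of_mul_le_mul_left h4 h3
  calc L ^ (p / (p - 2)) ≤ (x ^ ((p - 2) / p)) ^ (p / (p - 2)) :=
        Real.rpow_le_rpow hL.le h2 (by apply div_nonneg <;> linarith)
    _ = x := by
        rw [← Real.rpow_mul hx.le]
        have : (p - 2) / p * (p / (p - 2)) = 1 := by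
          have : p - 2 ≠ 0 := by linarith
          field_simp
        rw [this, Real.rpow_one]

theorem pow_lt (hp : 2 < p) (hL : 0 < L) {x : ℝ} (hx : 0 < x) (h : L * x ^ (2 / p) < x) :
    L ^ (p / (p - 2)) < x := by
  have hp0 : 0 < p := by linarith
  have h1 : x = x ^ (2 / p) * x ^ ((p - 2) / p) := by
    rw [← Real.rpow_add hx]
    have : 2 / p + (p - 2) / p = 1 := by field_simp; ring
    rw [this, Real.rpow_one]
  have h2 : L < x ^ ((p - 2) / p) := by
    have h3 : 0 < x ^ (2 / p) := Real.rpow_pos_of_pos hx _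
    have h4 : x ^ (2 / p) * L < x ^ (2 / p) * x ^ ((p - 2) / p) := by
      have e : (x ^ (2 / p) * x ^ ((p - 2) / p)) = x := h1.symm
      rw [e]
      linarith
    exact lt_of_mul_lt_mul_left h4 h3.le
  calc L ^ (p / (p - 2)) < (x ^ ((p - 2) / p)) ^ (p / (p - 2)) :=
        Real.rpow_lt_rpow hL.le h2 (by apply div_pos <;> linarith)
    _ = x := by
        rw [← Real.rpow_mul hx.le]
        have : (p - 2) / p * (p / (p - 2)) = 1 := by
          have : p - 2 ≠ 0 := by linarith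
          field_simp
        rw [this, Real.rpow_one]

/-- no critical point on the level -/
theorem no_gs (hp : 2 < p) (hL : 0 < L) {lam : ℝ} (hlam : lam < lam0) (u : V)
    (hc : ∀ h, S.dJ lam u h = 0) (hJ : S.J lam u = lev p L) : False := by
  have hp0 : 0 < p := by linarith
  have h1 := hc u
  unfold dJ at h1
  rw [S.I_self] at h1
  have h2 : S.J lam u = (1 / 2 - 1 / p) * S.P u := by
    unfold J
    have : S.D u u - lam * S.M u u = S.P u := by linarith
    have h3 : 1 / 2 * S.D u u - lam / 2 * S.M u u = 1 / 2 * S.P u := by linarith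
    rw [h3]
    ring
  have hhp : 1 / p < 1 / 2 := one_div_lt_one_div_of_lt (by norm_num) hp
  have hP : 0 < S.P u := by
    have h3 := lev_pos hp hL
    rw [← hJ, h2] at h3
    exact pos_of_mul_pos_right h3 (by linarith)
  have h4 := S.sob u
  have h5 := S.M_pos u hP
  have h6 : L * S.P u ^ (2 / p) < S.P u := by
    have : lam * S.M u u < lam0 * S.M u u := mul_lt_mul_of_pos_right hlam h5
    linarith
  have h7 := pow_lt hp hL hP h6
  rw [h2] at hJ
  unfold lev at hJ
  have h8 : (1 / 2 - 1 / p) * L ^ (p / (p - 2)) < (1 / 2 - 1 / p) * S.P u :=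
    mul_lt_mul_of_pos_left h7 (by linarith)
  linarith

/-- The property of being a Palais-Smale sequence at level `τ`. -/
def PS (lam τ : ℝ) (v : ℕ → V) : Prop :=
  Tendsto (fun j => S.J lam (v j)) atTop (𝓝 τ) ∧
    ∃ ε : ℕ → ℝ, Tendsto ε atTop (𝓝 0) ∧ ∀ j h, |S.dJ lam (v j) h| ≤ ε j * Real.sqrt (S.D h h)

theorem D_nonneg (hL : 0 < L) (hlam0 : 0 < lam0) (u : V) : 0 ≤ S.D u u := by
  have h1 := S.sob u
  have h2 : 0 ≤ S.P u ^ (2 / p) := Real.rpow_nonneg (S.P_nonneg u) _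
  have h3 := S.M_nonneg u
  have : 0 ≤ L * S.P u ^ (2 / p) + lam0 * S.M u u := by positivity
  linarith

theorem lam0_M (hL : 0 < L) (u : V) : lam0 * S.M u u ≤ S.D u u := by
  have h1 := S.sob u
  have h2 : 0 ≤ S.P u ^ (2 / p) := Real.rpow_nonneg (S.P_nonneg u) _
  have : 0 ≤ L * S.P u ^ (2 / p) := by positivity
  linarith

/-- lower bound of the levels of Palais-Smale sequences -/
theorem ps_lower (hp : 2 < p) (hL : 0 < L) (hlam0 : 0 < lam0) {lam : ℝ} (h0 : 0 ≤ lam)
    (hlam : lam < lam0) {τ : ℝ} (hτ : 0 < τ) {v : ℕ → V} (hv : S.PS lam τ v) : lev p L ≤ τ := by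
  have hp0 : 0 < p := by linarith
  have hhp : 1 / p < 1 / 2 := one_div_lt_one_div_of_lt (by norm_num) hp
  obtain ⟨hJ, ε, hε, hd⟩ := hv
  obtain ⟨κ, hκ⟩ : ∃ κ, κ = 1 - lam / lam0 := ⟨_, rfl⟩
  have hκ0 : 0 < κ := by
    rw [hκ]
    have : lam / lam0 < 1 := (div_lt_one hlam0).2 hlam
    linarith
  have hGD : ∀ u, κ * S.D u u ≤ S.G lam u := by
    intro u
    unfold G
    have h1 := S.lam0_M hL u
    have h2 : lam * S.M u u ≤ lam / lam0 * S.D u u := by
      have : lam * S.M u u = lam / lam0 * (lam0 * S.M u u) := by field_simp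
      rw [this]
      exact mul_le_mul_of_nonneg_left h1 (by positivity)
    rw [hκ]
    linarith
  have hDn := S.D_nonneg hL hlam0
  have hG0 : ∀ u, 0 ≤ S.G lam u := fun u => le_trans (mul_nonneg hκ0.le (hDn u)) (hGD u)
  -- the difference
  obtain ⟨K, hK⟩ : ∃ K, K = 1 / Real.sqrt κ := ⟨_, rfl⟩
  have hsκ : 0 < Real.sqrt κ := Real.sqrt_pos.2 hκ0
  have hK0 : 0 < K := by rw [hK]; positivity
  have hdiff : ∀ j, |S.G lam (v j) - S.P (v j)| ≤ |ε j| * K * Real.sqrt (S.G lam (v j)) := by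
    intro j
    have h1 := hd j (v j)
    unfold dJ at h1
    rw [S.I_self] at h1
    have h2 : Real.sqrt (S.D (v j) (v j)) ≤ K * Real.sqrt (S.G lam (v j)) := by
      have h3 : Real.sqrt κ * Real.sqrt (S.D (v j) (v j)) ≤ Real.sqrt (S.G lam (v j)) := by
        rw [← Real.sqrt_mul hκ0.le]
        exact Real.sqrt_le_sqrt (hGD _)
      rw [hK, one_div, inv_mul_eq_div, le_div_iff₀ hsκ]
      linarith
    unfold G at *
    calc |S.D (v j) (v j) - lam * S.M (v j) (v j) - S.P (v j)| ≤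
          ε j * Real.sqrt (S.D (v j) (v j)) := h1
      _ ≤ |ε j| * Real.sqrt (S.D (v j) (v j)) :=
          mul_le_mul_of_nonneg_right (le_abs_self _) (Real.sqrt_nonneg _)
      _ ≤ |ε j| * (K * Real.sqrt (S.D (v j) (v j) - lam * S.M (v j) (v j))) :=
          mul_le_mul_of_nonneg_left h2 (abs_nonneg _)
      _ = _ := by ring
  have hJG : ∀ j, S.J lam (v j) = (1 / 2 - 1 / p) * S.G lam (v j) +
      1 / p * (S.G lam (v j) - S.P (v j)) := by
    intro j
    unfold J G
    ring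
  obtain ⟨c, hc⟩ : ∃ c, c = 1 / 2 - 1 / p := ⟨_, rfl⟩
  have hc0 : 0 < c := by rw [hc]; linarith
  rw [← hc] at hJG
  -- boundedness
  obtain ⟨Bε, hBε⟩ := hε.abs.bddAbove_range
  have hBε' : ∀ j, |ε j| ≤ Bε := fun j => hBε ⟨j, rfl⟩
  have hBε0 : 0 ≤ Bε := (abs_nonneg _).trans (hBε' 0)
  obtain ⟨BJ, hBJ⟩ := hJ.bddAbove_range
  have hBJ' : ∀ j, S.J lam (v j) ≤ BJ := fun j => hBJ ⟨j, rfl⟩
  have hpi : 0 < 1 / p := by positivity
  obtain ⟨R, hR0, hR⟩ : ∃ R : ℝ, 0 ≤ R ∧ ∀ j, Real.sqrt (S.G lam (v j)) ≤ R := by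
    refine ⟨(|BJ| + 1 + 1 / p * (Bε * K)) / c + 1, by positivity, fun j => ?_⟩
    obtain ⟨x, hx⟩ : ∃ x, x = Real.sqrt (S.G lam (v j)) := ⟨_, rfl⟩
    have hx0 : 0 ≤ x := by rw [hx]; exact Real.sqrt_nonneg _
    have hxG : S.G lam (v j) = x ^ 2 := by rw [hx, Real.sq_sqrt (hG0 _)]
    have h1 := hdiff j
    rw [← hx] at h1 ⊢
    have h2 : S.P (v j) - S.G lam (v j) ≤ Bε * K * x := by
      have : |ε j| * K * x ≤ Bε * K * x := by
        apply mul_le_mul_of_nonneg_right _ hx0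
        exact mul_le_mul_of_nonneg_right (hBε' j) hK0.le
      have := neg_abs_le (S.G lam (v j) - S.P (v j))
      linarith
    have h3 : c * x ^ 2 ≤ BJ + 1 / p * (Bε * K * x) := by
      have h4 := hJG j
      have h5 := hBJ' j
      have h6 : 1 / p * (S.P (v j) - S.G lam (v j)) ≤ 1 / p * (Bε * K * x) :=
        mul_le_mul_of_nonneg_left h2 hpi.le
      rw [hxG] at h4 h6
      linarith
    by_contra hcon
    push Not at hcon
    have hx1 : 1 ≤ x := by
      have : 0 ≤ (|BJ| + 1 + 1 / p * (Bε * K)) / c := by positivity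
      linarith
    have h4 : (|BJ| + 1 + 1 / p * (Bε * K)) < c * x := by
      have : (|BJ| + 1 + 1 / p * (Bε * K)) / c < x := by linarith
      rw [div_lt_iff₀ hc0] at this
      linarith
    have h5 : (|BJ| + 1 + 1 / p * (Bε * K)) * x ≤ c * x ^ 2 := by nlinarith
    have h6 : |BJ| ≤ |BJ| * x := by nlinarith [abs_nonneg BJ]
    have h7 := le_abs_self BJ
    nlinarith
  -- limits
  have hz : Tendsto (fun j => S.G lam (v j) - S.P (v j)) atTop (𝓝 0) := by
    apply squeeze_zero_norm (a := fun j => |ε j| * K * R)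
    · intro j
      rw [Real.norm_eq_abs]
      refine (hdiff j).trans ?_
      exact mul_le_mul_of_nonneg_left (hR j) (by positivity)
    · have : Tendsto (fun j => |ε j| * K * R) atTop (𝓝 (|0| * K * R)) :=
        (hε.abs.mul_const K).mul_const R
      simpa using this
  have hGl : Tendsto (fun j => S.G lam (v j)) atTop (𝓝 (τ / c)) := by
    have h1 : (fun j => S.G lam (v j)) =
        fun j => (S.J lam (v j) - 1 / p * (S.G lam (v j) - S.P (v j))) / c := by
      funext j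
      rw [hJG j]
      field_simp
      ring
    rw [h1]
    have h2 := (hJ.sub (hz.const_mul (1 / p))).div_const c
    simpa using h2
  have hPl : Tendsto (fun j => S.P (v j)) atTop (𝓝 (τ / c)) := by
    have h1 : (fun j => S.P (v j)) = fun j => S.G lam (v j) - (S.G lam (v j) - S.P (v j)) := by
      funext j
      ring
    rw [h1]
    have h2 := hGl.sub hz
    simpa using h2
  have hτc : 0 < τ / c := by positivity
  have hfin : L * (τ / c) ^ (2 / p) ≤ τ / c := by
    have h1 : Tendsto (fun j => L * S.P (v j) ^ (2 / p)) atTop (𝓝 (L * (τ / c) ^ (2 / p))) :=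
      (hPl.rpow_const (Or.inl hτc.ne')).const_mul L
    apply le_of_tendsto_of_tendsto' h1 hGl
    intro j
    have h2 := S.sob (v j)
    have h3 := S.M_nonneg (v j)
    unfold G
    have : lam * S.M (v j) (v j) ≤ lam0 * S.M (v j) (v j) :=
      mul_le_mul_of_nonneg_right hlam.le h3
    linarith
  have h1 := pow_le hp hL hτc hfin
  unfold lev
  rw [← hc]
  rw [le_div_iff₀ hc0] at h1
  linarith

/-- Bernoulli from below -/
theorem bern {q x : ℝ} (hq0 : 0 < q) (hq1 : q < 1) (hx : |x| ≤ 1 / 2) :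
    1 + q * x - 2 * x ^ 2 ≤ (1 + x) ^ q := by
  obtain ⟨hx1, hx2⟩ := abs_le.1 hx
  have h1x : 0 < 1 + x := by linarith
  have h1 : (1 + x) ^ (1 - q) ≤ 1 + (1 - q) * x :=
    rpow_one_add_le_one_add_mul_self (by linarith) (by linarith) (by linarith)
  have h2 : (1 + x) ^ q * (1 + x) ^ (1 - q) = 1 + x := by
    rw [← Real.rpow_add h1x]
    simp
  have h3 : 0 < (1 + x) ^ q := Real.rpow_pos_of_pos h1x _
  have h4 : 1 + x ≤ (1 + x) ^ q * (1 + (1 - q) * x) := by
    calc 1 + x = (1 + x) ^ q * (1 + x) ^ (1 - q) := h2.symm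
      _ ≤ _ := mul_le_mul_of_nonneg_left h1 h3.le
  have hd : 1 / 2 ≤ 1 + (1 - q) * x := by nlinarith
  by_contra hcon
  push Not at hcon
  have h5 : (1 + x) ^ q * (1 + (1 - q) * x) < (1 + q * x - 2 * x ^ 2) * (1 + (1 - q) * x) :=
    mul_lt_mul_of_pos_right hcon (by linarith)
  have h6 : (1 + q * x - 2 * x ^ 2) * (1 + (1 - q) * x) ≤ 1 + x := by
    have h7 : (1 + q * x - 2 * x ^ 2) * (1 + (1 - q) * x) = 1 + x + x ^ 2 * (q * (1 - q) - 2 -
      2 * ((1 - q) * x)) := by ring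
    rw [h7]
    have h8 : q * (1 - q) - 2 - 2 * ((1 - q) * x) ≤ 0 := by nlinarith
    have h9 : x ^ 2 * (q * (1 - q) - 2 - 2 * ((1 - q) * x)) ≤ 0 :=
      mul_nonpos_of_nonneg_of_nonpos (sq_nonneg x) h8
    linarith
  linarith

theorem P_pow (hp : 2 < p) {u : V} (hu : 0 < S.P u) :
    S.P ((S.P u ^ (-(1 / p))) • u) = 1 := by
  have hp0 : 0 < p := by linarith
  rw [S.P_smul _ _ (Real.rpow_pos_of_pos hu _), ← Real.rpow_mul hu.le]
  have : -(1 / p) * p = -1 := by field_simp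
  rw [this, Real.rpow_neg_one, inv_mul_cancel₀ hu.ne']

/-- bound of `I` -/
theorem I_bound (hp : 2 < p) (hL : 0 < L) (hlam0 : 0 < lam0) {u h : V} {K : ℝ}
    (hK : S.D u u ≤ K) (hh : S.D h h ≤ 1) (hDs : |S.D u h| ≤ K + 1) :
    |S.I u h| ≤ ((3 * K + 4) / L) ^ (p / 2) := by
  have hp0 : 0 < p := by linarith
  have hK0 : 0 ≤ K := (S.D_nonneg hL hlam0 u).trans hK
  have key : ∀ s : ℝ, s ^ 2 = 1 → s * S.I u h ≤ ((3 * K + 4) / L) ^ (p / 2) := by
    intro s hs
    have hs1 : |s| = 1 := by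
      have : |s| ^ 2 = 1 := by rw [sq_abs, hs]
      nlinarith [abs_nonneg s]
    have h1 := S.conv u h s
    have h2 := S.P_nonneg u
    have h3 := S.sob (u + s • h)
    have h4 := S.M_nonneg (u + s • h)
    have h5 : S.D (u + s • h) (u + s • h) ≤ 3 * K + 4 := by
      rw [S.D_exp, hs]
      have : s * S.D u h ≤ K + 1 := by
        calc s * S.D u h ≤ |s * S.D u h| := le_abs_self _
          _ = |S.D u h| := by rw [abs_mul, hs1, one_mul]
          _ ≤ K + 1 := hDs
      linarith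
    have h6 : S.P (u + s • h) ^ (2 / p) ≤ (3 * K + 4) / L := by
      rw [le_div_iff₀ hL]
      have : 0 ≤ lam0 * S.M (u + s • h) (u + s • h) := by positivity
      linarith
    have h7 : S.P (u + s • h) ≤ ((3 * K + 4) / L) ^ (p / 2) := by
      have h8 := S.P_nonneg (u + s • h)
      calc S.P (u + s • h) = (S.P (u + s • h) ^ (2 / p)) ^ (p / 2) := by
            rw [← Real.rpow_mul h8]
            have : 2 / p * (p / 2) = 1 := by field_simp
            rw [this, Real.rpow_one]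
        _ ≤ _ := Real.rpow_le_rpow (Real.rpow_nonneg h8 _) h6 (by positivity)
    have h8 : p * (s * S.I u h) ≤ ((3 * K + 4) / L) ^ (p / 2) := by linarith
    rcases le_or_gt (s * S.I u h) 0 with h9 | h9
    · exact h9.trans (Real.rpow_nonneg (by positivity) _)
    · nlinarith
  rw [abs_le]
  have k1 := key 1 (by norm_num)
  have k2 := key (-1) (by norm_num)
  constructor <;> linarith

set_option maxHeartbeats 2000000 in
/-- almost minimisers have a small gradient -/
theorem small_grad (hp : 2 < p) (hL : 0 < L) (hlam0 : 0 < lam0) {lam : ℝ} (h0 : 0 ≤ lam)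
    (hlam : lam < lam0) : ∃ C : ℝ, 0 ≤ C ∧ ∀ (u : V) (δ : ℝ), 0 < δ → δ ≤ 1 → S.P u = 1 →
      S.D u u ≤ L + δ → ∀ h : V, |S.D u h - lam * S.M u h - L * S.I u h| ≤
        C * Real.sqrt δ * Real.sqrt (S.D h h) := by
  have hp0 : 0 < p := by linarith
  obtain ⟨K, hK⟩ : ∃ K, K = L + 1 := ⟨_, rfl⟩
  have hK0 : 0 < K := by rw [hK]; linarith
  obtain ⟨C0, hC0⟩ : ∃ C0, C0 = ((3 * K + 4) / L) ^ (p / 2) + 1 := ⟨_, rfl⟩
  have hC00 : 0 < C0 := by
    rw [hC0]
    have : 0 ≤ ((3 * K + 4) / L) ^ (p / 2) := Real.rpow_nonneg (by positivity) _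
    linarith
  obtain ⟨r0, hr0⟩ : ∃ r0, r0 = min 1 (1 / (2 * p * C0)) := ⟨_, rfl⟩
  have hr00 : 0 < r0 := by rw [hr0]; exact lt_min one_pos (by positivity)
  have hr01 : r0 ≤ 1 := by rw [hr0]; exact min_le_left _ _
  have hr02 : r0 * (p * C0) ≤ 1 / 2 := by
    have : r0 ≤ 1 / (2 * p * C0) := by rw [hr0]; exact min_le_right _ _
    rw [le_div_iff₀ (by positivity)] at this
    linarith
  obtain ⟨C1, hC1⟩ : ∃ C1, C1 = 1 + 2 * L * p ^ 2 * C0 ^ 2 := ⟨_, rfl⟩
  have hC10 : 0 < C1 := by rw [hC1]; positivity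
  refine ⟨1 / (2 * r0) + C1 * r0 / 2, by positivity, fun u δ hδ hδ1 hPu hDu => ?_⟩
  have hDuK : S.D u u ≤ K := by rw [hK]; linarith
  have hsδ : 0 < Real.sqrt δ := Real.sqrt_pos.2 hδ
  have hsδ1 : Real.sqrt δ ≤ 1 := Real.sqrt_le_one.2 hδ1
  have hsδ2 : Real.sqrt δ ^ 2 = δ := Real.sq_sqrt hδ.le
  -- the case `D h h ≤ 1`
  have main : ∀ h : V, S.D h h ≤ 1 → |S.D u h - lam * S.M u h - L * S.I u h| ≤
      (1 / (2 * r0) + C1 * r0 / 2) * Real.sqrt δ := by
    intro h hh
    -- `|D u h| ≤ K + 1`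
    have hDs : |S.D u h| ≤ K + 1 := by
      have a1 := S.D_nonneg hL hlam0 (u + (1 : ℝ) • h)
      have a2 := S.D_nonneg hL hlam0 (u + (-1 : ℝ) • h)
      rw [S.D_exp] at a1 a2
      rw [abs_le]
      constructor <;> nlinarith
    have hI := S.I_bound hp hL hlam0 hDuK hh hDs
    have hI' : |S.I u h| ≤ C0 := by rw [hC0]; linarith
    obtain ⟨r, hr⟩ : ∃ r, r = r0 * Real.sqrt δ := ⟨_, rfl⟩
    have hrpos : 0 < r := by rw [hr]; positivity
    have hrr0 : r ≤ r0 := by
      rw [hr]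
      nlinarith
    have key : ∀ s : ℝ, s ^ 2 = r ^ 2 → -(2 * s * (S.D u h - lam * S.M u h - L * S.I u h)) ≤
        δ + C1 * r ^ 2 := by
      intro s hs
      have hsr : |s| = r := by
        have : |s| ^ 2 = r ^ 2 := by rw [sq_abs, hs]
        exact (pow_left_inj₀ (abs_nonneg s) hrpos.le (by norm_num)).1 this
      obtain ⟨x, hx⟩ : ∃ x, x = p * s * S.I u h := ⟨_, rfl⟩
      have hxa : |x| ≤ 1 / 2 := by
        rw [hx, abs_mul, abs_mul, abs_of_pos hp0, hsr]
        have b1 : p * r * |S.I u h| ≤ p * r0 * C0 := by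
          apply mul_le_mul _ hI' (abs_nonneg _) (by positivity)
          exact mul_le_mul_of_nonneg_left hrr0 hp0.le
        linarith
      have hx2 : x ^ 2 ≤ p ^ 2 * r ^ 2 * C0 ^ 2 := by
        rw [hx, mul_pow, mul_pow, hs]
        have : S.I u h ^ 2 ≤ C0 ^ 2 := by
          rw [← sq_abs]
          exact pow_le_pow_left₀ (abs_nonneg _) hI' 2
        exact mul_le_mul_of_nonneg_left this (by positivity)
      have h1 := S.conv u h s
      rw [hPu, ← hx] at h1
      have hb := bern (q := 2 / p) (x := x) (by positivity) ((div_lt_one hp0).2 hp) hxa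
      have h2 : (1 + x) ^ (2 / p) ≤ S.P (u + s • h) ^ (2 / p) := by
        apply Real.rpow_le_rpow _ h1 (by positivity)
        have := (abs_le.1 hxa).1
        linarith
      have h3 := S.sob (u + s • h)
      have h4 := S.M_nonneg (u + s • h)
      have h5 : lam * S.M (u + s • h) (u + s • h) ≤ lam0 * S.M (u + s • h) (u + s • h) :=
        mul_le_mul_of_nonneg_right hlam.le h4
      have h6 : L * (1 + 2 / p * x - 2 * x ^ 2) ≤ L * S.P (u + s • h) ^ (2 / p) :=
        mul_le_mul_of_nonneg_left (hb.trans h2) hL.le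
      have h7 : 2 / p * x = 2 * s * S.I u h := by rw [hx]; field_simp
      rw [h7] at h6
      rw [S.D_exp, S.M_exp] at h3
      rw [S.M_exp] at h5
      have h8 : s ^ 2 * S.D h h ≤ r ^ 2 := by
        rw [hs]
        nlinarith [sq_nonneg r]
      have h9 : 0 ≤ lam * S.M u u := mul_nonneg h0 (S.M_nonneg u)
      have h10 : 0 ≤ lam * (s ^ 2 * S.M h h) :=
        mul_nonneg h0 (mul_nonneg (sq_nonneg s) (S.M_nonneg h))
      have h11 : L * (2 * x ^ 2) ≤ L * (2 * (p ^ 2 * r ^ 2 * C0 ^ 2)) :=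
        mul_le_mul_of_nonneg_left (by linarith) hL.le
      have h12 : C1 * r ^ 2 = r ^ 2 + L * (2 * (p ^ 2 * r ^ 2 * C0 ^ 2)) := by
        rw [hC1]
        ring
      rw [h12]
      linarith
    have k1 := key r rfl
    have k2 := key (-r) (by ring)
    have h1 : 2 * r * |S.D u h - lam * S.M u h - L * S.I u h| ≤ δ + C1 * r ^ 2 := by
      rcases abs_cases (S.D u h - lam * S.M u h - L * S.I u h) with ⟨e, _⟩ | ⟨e, _⟩ <;> rw [e] <;>
        linarith
    have h2 : (1 / (2 * r0) + C1 * r0 / 2) * Real.sqrt δ * (2 * r) = δ + C1 * r ^ 2 := by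
      rw [hr]
      have : (1 / (2 * r0) + C1 * r0 / 2) * Real.sqrt δ * (2 * (r0 * Real.sqrt δ)) =
        (Real.sqrt δ ^ 2) + C1 * (r0 ^ 2 * Real.sqrt δ ^ 2) := by
        field_simp
      rw [this, mul_pow, hsδ2]
    rw [← h2] at h1
    have h3 : |S.D u h - lam * S.M u h - L * S.I u h| * (2 * r) ≤
      (1 / (2 * r0) + C1 * r0 / 2) * Real.sqrt δ * (2 * r) := by linarith
    exact le_of_mul_le_mul_right h3 (by positivity)
  intro h
  obtain ⟨d, hd⟩ : ∃ d, d = S.D h h := ⟨_, rfl⟩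
  have hd0 : 0 ≤ d := by rw [hd]; exact S.D_nonneg hL hlam0 h
  rw [← hd]
  have hsc : ∀ r : ℝ, S.D u (r • h) - lam * S.M u (r • h) - L * S.I u (r • h) =
      r * (S.D u h - lam * S.M u h - L * S.I u h) := by
    intro r
    rw [S.D_right, S.M_right, S.I_right]
    ring
  obtain ⟨X, hX⟩ : ∃ X, X = S.D u h - lam * S.M u h - L * S.I u h := ⟨_, rfl⟩
  obtain ⟨Cs, hCs⟩ : ∃ Cs, Cs = (1 / (2 * r0) + C1 * r0 / 2) * Real.sqrt δ := ⟨_, rfl⟩
  rw [← hX, ← hCs]
  rw [← hX] at hsc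
  rw [← hCs] at main
  rcases hd0.eq_or_lt with hd1 | hd1
  · -- `d = 0`
    rw [← hd1, Real.sqrt_zero, mul_zero]
    by_contra hcon
    push Not at hcon
    have h1 := main (((Cs + 1) / |X|) • h) (by
      rw [S.D_left, S.D_right, ← hd, ← hd1]
      simp)
    rw [hsc, abs_mul, abs_div, abs_abs, div_mul_cancel₀ _ hcon.ne'] at h1
    have := le_abs_self (Cs + 1)
    linarith
  · have hsd : 0 < Real.sqrt d := Real.sqrt_pos.2 hd1
    have h1 := main ((1 / Real.sqrt d) • h) (by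
      rw [S.D_left, S.D_right, ← hd]
      have : 1 / Real.sqrt d * (1 / Real.sqrt d * d) = 1 := by
        have e : Real.sqrt d * Real.sqrt d = d := Real.mul_self_sqrt hd0
        field_simp
        rw [sq, e]
      rw [this])
    rw [hsc, abs_mul, abs_of_pos (by positivity : (0 : ℝ) < 1 / Real.sqrt d), one_div,
      inv_mul_eq_div, div_le_iff₀ hsd] at h1
    exact h1

/-- a Palais-Smale sequence at the level -/
theorem ps_exists (hp : 2 < p) (hL : 0 < L) (hlam0 : 0 < lam0) {lam : ℝ} (h0 : 0 ≤ lam)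
    (hlam : lam < lam0) : ∃ v : ℕ → V, S.PS lam (lev p L) v := by
  have hp0 : 0 < p := by linarith
  obtain ⟨C, hC0, hC⟩ := S.small_grad hp hL hlam0 h0 hlam
  -- normalised almost minimisers
  have hex : ∀ k : ℕ, ∃ u : V, S.P u = 1 ∧ S.D u u ≤ L + 1 / ((k : ℝ) + 1) := by
    intro k
    obtain ⟨u, hu, hD⟩ := S.opt (1 / ((k : ℝ) + 1)) (by positivity)
    refine ⟨(S.P u ^ (-(1 / p))) • u, S.P_pow hp hu, ?_⟩
    rw [S.D_left, S.D_right]
    have h1 : 0 < S.P u ^ (-(1 / p)) := Real.rpow_pos_of_pos hu _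
    have h2 : S.P u ^ (-(1 / p)) * (S.P u ^ (-(1 / p)) * S.P u ^ (2 / p)) = 1 := by
      rw [← Real.rpow_add hu, ← Real.rpow_add hu]
      have : -(1 / p) + (-(1 / p) + 2 / p) = 0 := by ring
      rw [this, Real.rpow_zero]
    calc S.P u ^ (-(1 / p)) * (S.P u ^ (-(1 / p)) * S.D u u) ≤
          S.P u ^ (-(1 / p)) * (S.P u ^ (-(1 / p)) * ((L + 1 / ((k : ℝ) + 1)) *
            S.P u ^ (2 / p))) := by
          apply mul_le_mul_of_nonneg_left _ h1.le
          exact mul_le_mul_of_nonneg_left hD h1.le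
      _ = (L + 1 / ((k : ℝ) + 1)) * (S.P u ^ (-(1 / p)) * (S.P u ^ (-(1 / p)) *
            S.P u ^ (2 / p))) := by ring
      _ = _ := by rw [h2, mul_one]
  choose u hu1 hu2 using hex
  obtain ⟨t, ht⟩ : ∃ t, t = L ^ (1 / (p - 2)) := ⟨_, rfl⟩
  have ht0 : 0 < t := by rw [ht]; exact Real.rpow_pos_of_pos hL _
  have htL : t ^ (p - 2) = L := by
    rw [ht, ← Real.rpow_mul hL.le]
    have : 1 / (p - 2) * (p - 2) = 1 := by
      have : p - 2 ≠ 0 := by linarith
      field_simp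
    rw [this, Real.rpow_one]
  have htp : t ^ p = t ^ 2 * L := by
    have : p = (2 : ℕ) + (p - 2) := by push_cast; ring
    rw [this, Real.rpow_add ht0, Real.rpow_natCast]
    have e : ((2 : ℕ) : ℝ) + (p - 2) - 2 = p - 2 := by push_cast; ring
    rw [htL]
  have htp1 : t ^ (p - 1) = t * L := by
    have : p - 1 = 1 + (p - 2) := by ring
    rw [this, Real.rpow_add ht0, Real.rpow_one, htL]
  have htlev : t ^ p = L ^ (p / (p - 2)) := by
    rw [ht, ← Real.rpow_mul hL.le]
    congr 1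
    ring
  refine ⟨fun k => t • u k, ?_, fun k => t * (C * Real.sqrt (1 / ((k : ℝ) + 1))), ?_, ?_⟩
  · -- the level
    have h1 : ∀ k, |S.J lam (t • u k) - lev p L| ≤ t ^ 2 / 2 * (1 / ((k : ℝ) + 1)) := by
      intro k
      have e1 : S.J lam (t • u k) = 1 / 2 * t ^ 2 * S.G lam (u k) - 1 / p * t ^ p := by
        unfold J G
        rw [S.D_left, S.D_right, S.M_left, S.M_right, S.P_smul _ _ ht0, hu1]
        ring
      have e2 : lev p L = 1 / 2 * t ^ 2 * L - 1 / p * t ^ p := by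
        unfold lev
        rw [← htlev, htp]
        ring
      have h2 := S.sob (u k)
      rw [hu1, Real.one_rpow] at h2
      have h3 := S.M_nonneg (u k)
      have h4 : lam * S.M (u k) (u k) ≤ lam0 * S.M (u k) (u k) :=
        mul_le_mul_of_nonneg_right hlam.le h3
      have h5 : L ≤ S.G lam (u k) := by unfold G; linarith
      have h6 : S.G lam (u k) ≤ L + 1 / ((k : ℝ) + 1) := by
        unfold G
        have := mul_nonneg h0 h3
        linarith [hu2 k]
      have e3 : S.J lam (t • u k) - lev p L = t ^ 2 / 2 * (S.G lam (u k) - L) := by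
        rw [e1, e2]
        ring
      rw [e3, abs_of_nonneg (mul_nonneg (by positivity) (by linarith))]
      exact mul_le_mul_of_nonneg_left (by linarith) (by positivity)
    have h2 : Tendsto (fun k : ℕ => t ^ 2 / 2 * (1 / ((k : ℝ) + 1))) atTop (𝓝 0) := by
      have := (tendsto_one_div_add_atTop_nhds_zero_nat (𝕜 := ℝ)).const_mul (t ^ 2 / 2)
      simpa using this
    have h3 : Tendsto (fun k => S.J lam (t • u k) - lev p L) atTop (𝓝 0) :=
      squeeze_zero_norm (fun k => by rw [Real.norm_eq_abs]; exact h1 k) h2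
    have h4 := h3.add_const (lev p L)
    simpa using h4
  · have h1 : Tendsto (fun k : ℕ => Real.sqrt (1 / ((k : ℝ) + 1))) atTop (𝓝 (Real.sqrt 0)) :=
      (Real.continuous_sqrt.tendsto 0).comp (tendsto_one_div_add_atTop_nhds_zero_nat (𝕜 := ℝ))
    have := (h1.const_mul C).const_mul t
    simpa using this
  · intro k h
    have h1 := hC (u k) (1 / ((k : ℝ) + 1)) (by positivity) (by
      rw [div_le_one (by positivity)]
      have : (0 : ℝ) ≤ k := Nat.cast_nonneg k
      linarith) (hu1 k) (hu2 k) h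
    have e : S.dJ lam (t • u k) h = t * (S.D (u k) h - lam * S.M (u k) h - L * S.I (u k) h) := by
      unfold dJ
      rw [S.D_left, S.M_left, S.I_left _ _ _ ht0, htp1]
      ring
    rw [e, abs_mul, abs_of_pos ht0]
    calc t * |S.D (u k) h - lam * S.M (u k) h - L * S.I (u k) h| ≤
          t * (C * Real.sqrt (1 / ((k : ℝ) + 1)) * Real.sqrt (S.D h h)) :=
          mul_le_mul_of_nonneg_left h1 ht0.le
      _ = _ := by ring

/-- the infimum of the levels -/
theorem inf_eq (hp : 2 < p) (hL : 0 < L) (hlam0 : 0 < lam0) {lam : ℝ} (h0 : 0 ≤ lam)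
    (hlam : lam < lam0) : sInf {τ : ℝ | 0 < τ ∧ ∃ v : ℕ → V, S.PS lam τ v} = lev p L := by
  apply IsLeast.csInf_eq
  constructor
  · exact ⟨lev_pos hp hL, S.ps_exists hp hL hlam0 h0 hlam⟩
  · rintro τ ⟨hτ, v, hv⟩
    exact S.ps_lower hp hL hlam0 h0 hlam hτ hv

end Frame

end Pool.Agent.W5h41.GT
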