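import Mathlib

set_option autoImplicit false

/-! # The Sobolev constant on `ℝ × ℝ^m` and the weighted inequality -/

namespace Pool.Agent.W5h41.GT

open MeasureTheory Set Filter Topology
open scoped ContDiff NNReal ENNReal

abbrev F (m : ℕ) := EuclideanSpace ℝ (Fin m)
abbrev X (m : ℕ) := ℝ × F m

variable {m : ℕ}

theorem haarX (m : ℕ) : (volume : Measure (X m)).IsAddHaarMeasure := by
  have : (volume : Measure (X m)) = (volume : Measure ℝ).prod (volume : Measure (F m)) := rfl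
  rw [this]
  infer_instance

/-- smooth with compact support -/
def CC (W : X m → ℝ) : Prop := ContDiff ℝ ∞ W ∧ HasCompactSupport W

noncomputable def Ws (W : X m → ℝ) (x : X m) : ℝ := fderiv ℝ W x (1, 0)

noncomputable def Wz (W : X m → ℝ) (x : X m) : F m →L[ℝ] ℝ :=
  (fderiv ℝ W x).comp (ContinuousLinearMap.inr ℝ ℝ (F m))

/-- energy -/
noncomputable def En (W : X m → ℝ) : ℝ := ∫ x, (Ws W x ^ 2 + ‖Wz W x‖ ^ 2)

/-- `p`-power -/
noncomputable def Pw (p : ℝ) (W : X m → ℝ) : ℝ := ∫ x, |W x| ^ p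

theorem CC.cont {W : X m → ℝ} (h : CC W) : Continuous W := h.1.continuous

theorem CC.cont_fderiv {W : X m → ℝ} (h : CC W) : Continuous (fderiv ℝ W) :=
  h.1.continuous_fderiv (by simp)

theorem CC.cont_Ws {W : X m → ℝ} (h : CC W) : Continuous (Ws W) :=
  h.cont_fderiv.clm_apply continuous_const

theorem CC.cont_Wz {W : X m → ℝ} (h : CC W) : Continuous (Wz W) :=
  h.cont_fderiv.clm_comp continuous_const

theorem CC.diff {W : X m → ℝ} (h : CC W) : Differentiable ℝ W := h.1.differentiable (by simp)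

theorem fderiv_zero_off {W : X m → ℝ} {x : X m} (hx : x ∉ tsupport W) : fderiv ℝ W x = 0 := by
  by_contra hcon
  exact hx (support_fderiv_subset ℝ hcon)

theorem Ws_zero_off {W : X m → ℝ} {x : X m} (hx : x ∉ tsupport W) : Ws W x = 0 := by
  unfold Ws
  rw [fderiv_zero_off hx]
  rfl

theorem Wz_zero_off {W : X m → ℝ} {x : X m} (hx : x ∉ tsupport W) : Wz W x = 0 := by
  unfold Wz
  rw [fderiv_zero_off hx]
  rfl

theorem integ_of {W f : X m → ℝ} (hW : HasCompactSupport W) (hf : Continuous f)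
    (h0 : ∀ x, x ∉ tsupport W → f x = 0) : Integrable f :=
  hf.integrable_of_hasCompactSupport (HasCompactSupport.intro hW h0)

theorem Pw_int {p : ℝ} (hp : 0 < p) {W : X m → ℝ} (h : CC W) :
    Integrable (fun x => |W x| ^ p) := by
  apply integ_of h.2
  · exact h.cont.abs.rpow_const (fun x => Or.inr hp.le)
  · intro x hx
    rw [image_eq_zero_of_notMem_tsupport hx, abs_zero, Real.zero_rpow hp.ne']

theorem Pw_nonneg (p : ℝ) (W : X m → ℝ) : 0 ≤ Pw p W :=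
  integral_nonneg fun _ => Real.rpow_nonneg (abs_nonneg _) _

theorem En_int {W : X m → ℝ} (h : CC W) : Integrable (fun x => Ws W x ^ 2 + ‖Wz W x‖ ^ 2) := by
  apply integ_of h.2
  · exact (h.cont_Ws.pow 2).add (h.cont_Wz.norm.pow 2)
  · intro x hx
    rw [Ws_zero_off hx, Wz_zero_off hx]
    simp

theorem En_nonneg (W : X m → ℝ) : 0 ≤ En W :=
  integral_nonneg fun _ => by positivity

theorem fderiv_norm_le (W : X m → ℝ) (x : X m) :
    ‖fderiv ℝ W x‖ ^ 2 ≤ 2 * (Ws W x ^ 2 + ‖Wz W x‖ ^ 2) := by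
  have h1 : ‖fderiv ℝ W x‖ ≤ |Ws W x| + ‖Wz W x‖ := by
    apply ContinuousLinearMap.opNorm_le_bound _ (by positivity)
    rintro ⟨t, z⟩
    have e : fderiv ℝ W x (t, z) = t * Ws W x + Wz W x z := by
      have : ((t, z) : X m) = t • ((1, 0) : X m) + (0, z) := by
        ext <;> simp
      rw [this, map_add, map_smul]
      rfl
    rw [e]
    have h2 : |t| ≤ ‖((t, z) : X m)‖ := by
      rw [Prod.norm_def]
      exact le_max_left _ _
    have h3 : ‖z‖ ≤ ‖((t, z) : X m)‖ := by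
      rw [Prod.norm_def]
      exact le_max_right _ _
    calc ‖t * Ws W x + Wz W x z‖ ≤ ‖t * Ws W x‖ + ‖Wz W x z‖ := norm_add_le _ _
      _ ≤ |t| * |Ws W x| + ‖Wz W x‖ * ‖z‖ := by
          rw [Real.norm_eq_abs (t * Ws W x), abs_mul]
          gcongr
          exact ContinuousLinearMap.le_opNorm _ _
      _ ≤ ‖((t, z) : X m)‖ * |Ws W x| + ‖Wz W x‖ * ‖((t, z) : X m)‖ := by
          gcongr
      _ = _ := by ring
  calc ‖fderiv ℝ W x‖ ^ 2 ≤ (|Ws W x| + ‖Wz W x‖) ^ 2 := pow_le_pow_left₀ (norm_nonneg _) h1 2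
    _ ≤ 2 * (|Ws W x| ^ 2 + ‖Wz W x‖ ^ 2) := by
        nlinarith [sq_nonneg (|Ws W x| - ‖Wz W x‖)]
    _ = _ := by rw [sq_abs]

theorem sob_exists {p : ℝ} (hp0 : 0 < p) (hp : p⁻¹ = 1 / 2 - 1 / ((m : ℝ) + 1)) :
    ∃ c : ℝ, 0 < c ∧ ∀ W : X m → ℝ, CC W → c * Pw p W ^ (2 / p) ≤ En W := by
  have := haarX m
  obtain ⟨C, hC⟩ : ∃ C : ℝ≥0, C = SNormLESNormFDerivOfEqConst ℝ (volume : Measure (X m)) 2 :=
    ⟨_, rfl⟩
  obtain ⟨c, hc⟩ : ∃ c : ℝ, c = 2 * (C : ℝ) ^ 2 + 1 := ⟨_, rfl⟩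
  have hc0 : 0 < c := by rw [hc]; positivity
  refine ⟨1 / c, by positivity, fun W hW => ?_⟩
  obtain ⟨p', hp'⟩ : ∃ p' : ℝ≥0, p' = ⟨p, hp0.le⟩ := ⟨_, rfl⟩
  have hp'r : (p' : ℝ) = p := by rw [hp']; rfl
  have hfr : Module.finrank ℝ (X m) = m + 1 := by
    rw [Module.finrank_prod, finrank_euclideanSpace_fin, Module.finrank_self]
    ring
  have h1 : eLpNorm W p' volume ≤ C * eLpNorm (fderiv ℝ W) 2 volume := by
    rw [hC]
    apply eLpNorm_le_eLpNorm_fderiv_of_eq (μ := (volume : Measure (X m)))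
      (hW.1.of_le (by exact_mod_cast le_top)) hW.2 (p := 2) (p' := p')
    · norm_num
    · rw [hfr]; omega
    · rw [hp'r, hp, hfr]
      push_cast
      norm_num
  have hm1 : MemLp W p' (volume : Measure (X m)) := hW.cont.memLp_of_hasCompactSupport hW.2
  have hm2 : MemLp (fderiv ℝ W) 2 (volume : Measure (X m)) :=
    hW.cont_fderiv.memLp_of_hasCompactSupport (hW.2.fderiv ℝ)
  rw [hm1.eLpNorm_eq_integral_rpow_norm (by
      rw [Ne, ENNReal.coe_eq_zero]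
      intro h
      rw [h] at hp'r
      simp at hp'r
      linarith) ENNReal.coe_ne_top,
    hm2.eLpNorm_eq_integral_rpow_norm (by norm_num) (by norm_num)] at h1
  have e1 : ((p' : ℝ≥0∞)).toReal = p := by rw [ENNReal.coe_toReal, hp'r]
  have e2 : (2 : ℝ≥0∞).toReal = 2 := by norm_num
  rw [e1, e2] at h1
  have h2 : (∫ x, ‖W x‖ ^ p) ^ p⁻¹ ≤ C * (∫ x, ‖fderiv ℝ W x‖ ^ (2 : ℝ)) ^ (2 : ℝ)⁻¹ := by
    have h3 : ENNReal.ofReal ((∫ x, ‖W x‖ ^ p) ^ p⁻¹) ≤
        ENNReal.ofReal (C * (∫ x, ‖fderiv ℝ W x‖ ^ (2 : ℝ)) ^ (2 : ℝ)⁻¹) := by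
      rw [ENNReal.ofReal_mul C.coe_nonneg, ENNReal.ofReal_coe_nnreal]
      exact h1
    refine (ENNReal.ofReal_le_ofReal_iff ?_).1 h3
    apply mul_nonneg C.coe_nonneg
    exact Real.rpow_nonneg (integral_nonneg fun _ => Real.rpow_nonneg (norm_nonneg _) _) _
  obtain ⟨P, hP⟩ : ∃ P, P = Pw p W := ⟨_, rfl⟩
  have hP0 : 0 ≤ P := by rw [hP]; exact Pw_nonneg p W
  have hPe : (∫ x, ‖W x‖ ^ p) = P := by rw [hP]; rfl
  obtain ⟨Q, hQ⟩ : ∃ Q, Q = ∫ x, ‖fderiv ℝ W x‖ ^ (2 : ℝ) := ⟨_, rfl⟩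
  have hQ0 : 0 ≤ Q := by
    rw [hQ]
    exact integral_nonneg fun _ => Real.rpow_nonneg (norm_nonneg _) _
  rw [hPe, ← hQ] at h2
  have h4 : P ^ (2 / p) ≤ (C : ℝ) ^ 2 * Q := by
    have h5 : (P ^ p⁻¹) ^ 2 ≤ (C * Q ^ (2 : ℝ)⁻¹) ^ 2 :=
      pow_le_pow_left₀ (Real.rpow_nonneg hP0 _) h2 2
    have e3 : (P ^ p⁻¹) ^ 2 = P ^ (2 / p) := by
      rw [← Real.rpow_natCast, ← Real.rpow_mul hP0]
      congr 1
      push_cast
      field_simp
    have e4 : (Q ^ (2 : ℝ)⁻¹) ^ 2 = Q := by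
      rw [← Real.rpow_natCast, ← Real.rpow_mul hQ0]
      norm_num
    rw [e3, mul_pow, e4] at h5
    exact h5
  have h6 : Q ≤ 2 * En W := by
    rw [hQ]
    unfold En
    rw [← integral_const_mul]
    apply integral_mono_of_nonneg
    · exact Eventually.of_forall fun _ => Real.rpow_nonneg (norm_nonneg _) _
    · exact (En_int hW).const_mul 2
    · apply Eventually.of_forall
      intro x
      have := fderiv_norm_le W x
      simpa using this
  rw [← hP]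
  rw [one_div, inv_mul_le_iff₀ hc0]
  have h7 : (C : ℝ) ^ 2 * Q ≤ (C : ℝ) ^ 2 * (2 * En W) := mul_le_mul_of_nonneg_left h6 (sq_nonneg _)
  have h8 := En_nonneg W
  rw [hc]
  nlinarith

/-- the Sobolev constant -/
noncomputable def Sob (m : ℕ) (p : ℝ) : ℝ :=
  sInf {r : ℝ | ∃ W : X m → ℝ, CC W ∧ 0 < Pw p W ∧ r = En W / Pw p W ^ (2 / p)}

theorem bump_exists (m : ℕ) {p : ℝ} (hp0 : 0 < p) : ∃ W : X m → ℝ, CC W ∧ 0 < Pw p W := by
  obtain ⟨f, hf1, hf2, hf3⟩ : ∃ f : X m → ℝ, CC f ∧ f 0 = 1 ∧ ∀ x, 0 ≤ f x := by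
    let b : ContDiffBump (0 : X m) := ⟨1, 2, one_pos, one_lt_two⟩
    exact ⟨b, ⟨b.contDiff, b.hasCompactSupport⟩, b.one_of_mem_closedBall (by simp [b]), fun x => b.nonneg⟩
  refine ⟨f, hf1, ?_⟩
  unfold Pw
  rw [integral_pos_iff_support_of_nonneg (fun _ => Real.rpow_nonneg (abs_nonneg _) _)
    (Pw_int hp0 hf1)]
  apply IsOpen.measure_pos
  · exact (hf1.cont.abs.rpow_const (fun x => Or.inr hp0.le)).isOpen_support
  · refine ⟨0, ?_⟩
    rw [Function.mem_support, hf2]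
    simp

theorem Sob_set {p : ℝ} (hp0 : 0 < p) (hp : p⁻¹ = 1 / 2 - 1 / ((m : ℝ) + 1)) :
    0 < Sob m p ∧ (∀ W : X m → ℝ, CC W → Sob m p * Pw p W ^ (2 / p) ≤ En W) ∧
    (∀ η : ℝ, 0 < η → ∃ W : X m → ℝ, CC W ∧ 0 < Pw p W ∧
      En W < (Sob m p + η) * Pw p W ^ (2 / p)) := by
  obtain ⟨c, hc, h⟩ := sob_exists hp0 hp
  obtain ⟨A, hA⟩ : ∃ A, A = {r : ℝ | ∃ W : X m → ℝ, CC W ∧ 0 < Pw p W ∧
    r = En W / Pw p W ^ (2 / p)} := ⟨_, rfl⟩
  have hSA : Sob m p = sInf A := by rw [hA]; rfl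
  have hne : A.Nonempty := by
    obtain ⟨W, hW, hP⟩ := bump_exists m hp0
    rw [hA]
    exact ⟨_, W, hW, hP, rfl⟩
  have hlb : ∀ r ∈ A, c ≤ r := by
    rw [hA]
    rintro r ⟨W, hW, hP, rfl⟩
    rw [le_div_iff₀ (Real.rpow_pos_of_pos hP _)]
    exact h W hW
  have hbdd : BddBelow A := ⟨c, hlb⟩
  refine ⟨lt_of_lt_of_le hc (by rw [hSA]; exact le_csInf hne hlb), fun W hW => ?_, fun η hη => ?_⟩
  · rcases (Pw_nonneg p W).eq_or_lt with h0 | h0
    · rw [← h0, Real.zero_rpow (by positivity), mul_zero]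
      exact En_nonneg W
    · rw [← le_div_iff₀ (Real.rpow_pos_of_pos h0 _), hSA]
      apply csInf_le hbdd
      rw [hA]
      exact ⟨W, hW, h0, rfl⟩
  · obtain ⟨r, hr, hr2⟩ := exists_lt_of_csInf_lt hne (show sInf A < Sob m p + η by
      rw [← hSA]; linarith)
    rw [hA] at hr
    obtain ⟨W, hW, hP, rfl⟩ := hr
    refine ⟨W, hW, hP, ?_⟩
    rwa [div_lt_iff₀ (Real.rpow_pos_of_pos hP _)] at hr2

/-- mass -/
noncomputable def Ma (W : X m → ℝ) : ℝ := ∫ x, W x ^ 2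

theorem tsupp_strip {W : X m → ℝ} {s0 s1 : ℝ}
    (hs : ∀ x : X m, x.1 ≤ s0 ∨ s1 ≤ x.1 → W x = 0) {x : X m} (hx : x ∈ tsupport W) :
    s0 ≤ x.1 ∧ x.1 ≤ s1 := by
  have h1 : tsupport W ⊆ {x : X m | s0 ≤ x.1 ∧ x.1 ≤ s1} := by
    apply closure_minimal
    · intro y hy
      constructor
      · by_contra hcon
        push Not at hcon
        exact hy (hs y (Or.inl hcon.le))
      · by_contra hcon
        push Not at hcon
        exact hy (hs y (Or.inr hcon.le))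
    · exact (isClosed_le continuous_const continuous_fst).inter
        (isClosed_le continuous_fst continuous_const)
  exact h1 hx

theorem hardy {W : X m → ℝ} (hW : CC W) {s0 s1 : ℝ} (h01 : s0 < s1)
    (hs : ∀ x : X m, x.1 ≤ s0 ∨ s1 ≤ x.1 → W x = 0) :
    Ma W ≤ 4 * (s1 - s0) * ∫ x : X m, (x.1 - s0) * Ws W x ^ 2 := by
  have := haarX m
  have hf : ∀ x : X m, HasFDerivAt (fun y : X m => (y.1 - s0) * W y)
      ((x.1 - s0) • fderiv ℝ W x + (W x) • ContinuousLinearMap.fst ℝ ℝ (F m)) x := by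
    intro x
    have h1 : HasFDerivAt (fun y : X m => y.1 - s0) (ContinuousLinearMap.fst ℝ ℝ (F m)) x :=
      (hasFDerivAt_fst).sub_const s0
    exact h1.mul (hW.diff x).hasFDerivAt
  have hfv : ∀ x : X m, fderiv ℝ (fun y : X m => (y.1 - s0) * W y) x (1, 0) =
      (x.1 - s0) * Ws W x + W x := by
    intro x
    rw [(hf x).fderiv]
    simp [Ws]
  have hc0 : Continuous fun x : X m => x.1 - s0 := by fun_prop
  have i1 : Integrable (fun x : X m => (x.1 - s0) * W x * Ws W x) := by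
    apply integ_of hW.2
    · exact (hc0.mul hW.cont).mul hW.cont_Ws
    · intro x hx
      rw [Ws_zero_off hx, mul_zero]
  have i2 : Integrable (fun x : X m => W x ^ 2) := by
    apply integ_of hW.2
    · exact hW.cont.pow 2
    · intro x hx
      rw [image_eq_zero_of_notMem_tsupport hx]
      simp
  have i3 : Integrable (fun x : X m => ((x.1 - s0) * Ws W x + W x) * W x) := by
    have : (fun x : X m => ((x.1 - s0) * Ws W x + W x) * W x) =
        fun x : X m => (x.1 - s0) * W x * Ws W x + W x ^ 2 := by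
      funext x
      ring
    rw [this]
    exact i1.add i2
  have i4 : Integrable (fun x : X m => (x.1 - s0) * W x * W x) := by
    apply integ_of hW.2
    · exact (hc0.mul hW.cont).mul hW.cont
    · intro x hx
      rw [image_eq_zero_of_notMem_tsupport hx, mul_zero]
  have i5 : Integrable (fun x : X m => (x.1 - s0) * Ws W x ^ 2) := by
    apply integ_of hW.2
    · exact hc0.mul (hW.cont_Ws.pow 2)
    · intro x hx
      rw [Ws_zero_off hx]
      simp
  have hibp := integral_mul_fderiv_eq_neg_fderiv_mul_of_integrable (μ := (volume : Measure (X m)))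
    (f := fun y : X m => (y.1 - s0) * W y) (g := W) (v := ((1, 0) : X m))
    (by simpa only [hfv] using i3) i1 i4 (fun x _ => (hf x).differentiableAt) (fun x _ => hW.diff x)
  simp only [hfv] at hibp
  have e1 : ∫ x : X m, ((x.1 - s0) * Ws W x + W x) * W x =
      (∫ x : X m, (x.1 - s0) * W x * Ws W x) + Ma W := by
    unfold Ma
    rw [← integral_add i1 i2]
    congr 1
    funext x
    ring
  have e2 : ∫ x : X m, (x.1 - s0) * W x * fderiv ℝ W x (1, 0) =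
    ∫ x : X m, (x.1 - s0) * W x * Ws W x := rfl
  rw [e1, e2] at hibp
  have h1 : Ma W = ∫ x : X m, -2 * ((x.1 - s0) * W x * Ws W x) := by
    rw [integral_const_mul]
    linarith
  have h2 : ∫ x : X m, -2 * ((x.1 - s0) * W x * Ws W x) ≤
      ∫ x : X m, (1 / 2 * W x ^ 2 + 2 * (s1 - s0) * ((x.1 - s0) * Ws W x ^ 2)) := by
    apply integral_mono (i1.const_mul _) ((i2.const_mul _).add (i5.const_mul _))
    intro x
    show -2 * ((x.1 - s0) * W x * Ws W x) ≤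
      1 / 2 * W x ^ 2 + 2 * (s1 - s0) * ((x.1 - s0) * Ws W x ^ 2)
    by_cases hx : x ∈ tsupport W
    · obtain ⟨h3, h4⟩ := tsupp_strip hs hx
      have h5 : -2 * ((x.1 - s0) * W x * Ws W x) ≤
          1 / 2 * W x ^ 2 + 2 * ((x.1 - s0) * Ws W x) ^ 2 := by
        nlinarith [sq_nonneg (W x + 2 * ((x.1 - s0) * Ws W x))]
      have h6 : ((x.1 - s0) * Ws W x) ^ 2 ≤ (s1 - s0) * ((x.1 - s0) * Ws W x ^ 2) := by
        have : ((x.1 - s0) * Ws W x) ^ 2 = (x.1 - s0) * ((x.1 - s0) * Ws W x ^ 2) := by ring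
        rw [this]
        apply mul_le_mul_of_nonneg_right (by linarith)
        exact mul_nonneg (by linarith) (sq_nonneg _)
      linarith
    · rw [Ws_zero_off hx, image_eq_zero_of_notMem_tsupport hx]
      simp
  rw [← h1, integral_add (i2.const_mul _) (i5.const_mul _), integral_const_mul,
    integral_const_mul] at h2
  have h3 : ∫ x : X m, W x ^ 2 = Ma W := rfl
  rw [h3] at h2
  linarith

/-- the weighted inequality -/
theorem slice {p : ℝ} (hp0 : 0 < p) (hp : p⁻¹ = 1 / 2 - 1 / ((m : ℝ) + 1)) {a b : ℝ} (ha : 0 < a)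
    (hab : a < b) {W : X m → ℝ} (hW : CC W)
    (hs : ∀ x : X m, x.1 ≤ a / 2 ∨ b ^ 2 / (2 * a) ≤ x.1 → W x = 0) :
    Sob m p * Pw p W ^ (2 / p) + 1 / (b ^ 2 - a ^ 2) * Ma W ≤
      ∫ x : X m, (2 * x.1 / a * Ws W x ^ 2 + ‖Wz W x‖ ^ 2) := by
  have hab2 : 0 < b ^ 2 - a ^ 2 := by nlinarith
  have h01 : a / 2 < b ^ 2 / (2 * a) := by
    rw [lt_div_iff₀ (by positivity)]
    nlinarith
  have h1 := (Sob_set hp0 hp).2.1 W hW
  have h2 := hardy hW h01 hs
  have i5 : Integrable (fun x : X m => (x.1 - a / 2) * Ws W x ^ 2) := by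
    apply integ_of hW.2
    · exact (by fun_prop : Continuous fun x : X m => x.1 - a / 2).mul (hW.cont_Ws.pow 2)
    · intro x hx
      rw [Ws_zero_off hx]
      simp
  have e1 : ∫ x : X m, (2 * x.1 / a * Ws W x ^ 2 + ‖Wz W x‖ ^ 2) =
      En W + 2 / a * ∫ x : X m, (x.1 - a / 2) * Ws W x ^ 2 := by
    unfold En
    rw [← integral_const_mul, ← integral_add (En_int hW) (i5.const_mul _)]
    congr 1
    funext x
    field_simp
    ring
  rw [e1]
  have h3 : 1 / (b ^ 2 - a ^ 2) * Ma W ≤ 2 / a * ∫ x : X m, (x.1 - a / 2) * Ws W x ^ 2 := by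
    obtain ⟨T, hT⟩ : ∃ T, T = ∫ x : X m, (x.1 - a / 2) * Ws W x ^ 2 := ⟨_, rfl⟩
    rw [← hT] at h2 ⊢
    have e2 : 4 * (b ^ 2 / (2 * a) - a / 2) * T = (b ^ 2 - a ^ 2) * (2 / a * T) := by
      field_simp
      ring
    rw [e2] at h2
    rw [one_div, inv_mul_le_iff₀ hab2]
    exact h2
  linarith

end Pool.Agent.W5h41.GT
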