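import Pool.Agent.W5h41.GT2

set_option autoImplicit false

/-! # Polar coordinates with `s = ρ² / (2 a)` -/

namespace Pool.Agent.W5h41.GT

open MeasureTheory Set Filter Topology
open scoped ContDiff NNReal ENNReal

/-- `ℝ² × ℝ^m` -/
abbrev Amb (m : ℕ) := F 2 × F m

variable {m : ℕ}

/-- unit vector -/
noncomputable def ev (θ : ℝ) : F 2 := !₂[Real.cos θ, Real.sin θ]

theorem ev_norm (θ : ℝ) : ‖ev θ‖ = 1 := by
  unfold ev
  rw [EuclideanSpace.norm_eq, Fin.sum_univ_two]
  simp

theorem ev_cont : Continuous ev := by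
  unfold ev
  apply (PiLp.continuous_toLp 2 _).comp
  apply continuous_pi
  intro i
  fin_cases i
  · exact Real.continuous_cos
  · exact Real.continuous_sin

theorem polar2 {f : F 2 → ℝ≥0∞} (hf : Measurable f) :
    ∫⁻ y, f y = ∫⁻ θ in Ioo (-Real.pi) Real.pi, ∫⁻ r in Ioi (0 : ℝ),
      ENNReal.ofReal r * f (r • ev θ) := by
  have h1 : MeasurePreserving (fun q : ℝ × ℝ => (WithLp.toLp 2 (MeasurableEquiv.finTwoArrow.symm q) :
      F 2)) volume volume :=
    (PiLp.volume_preserving_toLp (Fin 2)).comp ((volume_preserving_finTwoArrow ℝ).symm)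
  rw [← h1.lintegral_comp hf, ← lintegral_comp_polarCoord_symm]
  have h2 : (volume : Measure (ℝ × ℝ)).restrict polarCoord.target =
      (volume.restrict (Ioi (0 : ℝ))).prod (volume.restrict (Ioo (-Real.pi) Real.pi)) := by
    rw [Measure.prod_restrict]
    rfl
  have h3 : ∀ p : ℝ × ℝ, (WithLp.toLp 2 (MeasurableEquiv.finTwoArrow.symm (polarCoord.symm p)) :
      F 2) = p.1 • ev p.2 := by
    intro p
    ext i
    fin_cases i
    · simp [ev, MeasurableEquiv.finTwoArrow]
    · simp [ev, MeasurableEquiv.finTwoArrow]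
  simp only [h3, smul_eq_mul]
  rw [h2, lintegral_prod_symm']
  have hc : Continuous fun p : ℝ × ℝ => p.1 • ev p.2 :=
    continuous_fst.smul (ev_cont.comp continuous_snd)
  exact (ENNReal.measurable_ofReal.comp measurable_fst).mul (hf.comp hc.measurable)

theorem subst1 {a : ℝ} (ha : 0 < a) (g : ℝ → ℝ≥0∞) :
    ∫⁻ r in Ioi (0 : ℝ), ENNReal.ofReal r * g r =
      ENNReal.ofReal a * ∫⁻ s in Ioi (0 : ℝ), g (Real.sqrt (2 * a * s)) := by
  have him : (fun r : ℝ => r ^ 2 / (2 * a)) '' Ioi 0 = Ioi 0 := by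
    ext s
    simp only [mem_image, mem_Ioi]
    constructor
    · rintro ⟨r, hr, rfl⟩
      positivity
    · intro hs
      refine ⟨Real.sqrt (2 * a * s), Real.sqrt_pos.2 (by positivity), ?_⟩
      rw [Real.sq_sqrt (by positivity)]
      field_simp
  have hinj : InjOn (fun r : ℝ => r ^ 2 / (2 * a)) (Ioi 0) := by
    intro x hx y hy hxy
    simp only [mem_Ioi] at hx hy
    have h1 : x ^ 2 = y ^ 2 := by
      have : (fun r : ℝ => r ^ 2 / (2 * a)) x = (fun r : ℝ => r ^ 2 / (2 * a)) y := hxy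
      simp only [] at this
      field_simp at this
      exact this
    exact (pow_left_inj₀ hx.le hy.le (by norm_num)).1 h1
  have hder : ∀ x ∈ Ioi (0 : ℝ), HasDerivWithinAt (fun r : ℝ => r ^ 2 / (2 * a)) (x / a) (Ioi 0) x := by
    intro x _
    have h1 : HasDerivAt (fun r : ℝ => r ^ 2 / (2 * a)) (x / a) x := by
      have h2 : HasDerivAt (fun r : ℝ => r ^ 2 / (2 * a)) (((2 : ℕ) : ℝ) * x ^ (2 - 1) / (2 * a)) x :=
        (hasDerivAt_pow 2 x).div_const (2 * a)
      have e : ((2 : ℕ) : ℝ) * x ^ (2 - 1) / (2 * a) = x / a := by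
        norm_num
        field_simp
      rwa [e] at h2
    exact h1.hasDerivWithinAt
  have h1 := lintegral_image_eq_lintegral_abs_deriv_mul measurableSet_Ioi hder hinj
    (fun s => g (Real.sqrt (2 * a * s)))
  rw [him] at h1
  rw [h1, ← lintegral_const_mul' _ _ ENNReal.ofReal_ne_top]
  apply setLIntegral_congr_fun measurableSet_Ioi
  intro r hr
  simp only [mem_Ioi] at hr
  have e1 : Real.sqrt (2 * a * (r ^ 2 / (2 * a))) = r := by
    have : 2 * a * (r ^ 2 / (2 * a)) = r ^ 2 := by field_simp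
    rw [this, Real.sqrt_sq hr.le]
  simp only [e1]
  rw [abs_of_pos (by positivity), ← mul_assoc, ← ENNReal.ofReal_mul ha.le]
  congr 2
  field_simp

/-- the half space measure -/
noncomputable def nu (m : ℕ) : Measure (X m) :=
  (volume.restrict (Ioi (0 : ℝ))).prod (volume : Measure (F m))

theorem nu_eq (m : ℕ) : nu m = (volume : Measure (X m)).restrict {x : X m | 0 < x.1} := by
  unfold nu
  have h1 : (volume : Measure (F m)) = (volume : Measure (F m)).restrict univ := by
    rw [Measure.restrict_univ]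
  rw [h1, Measure.prod_restrict]
  have h2 : (Ioi (0 : ℝ) ×ˢ (univ : Set (F m))) = {x : X m | 0 < x.1} := by
    ext x
    simp
  rw [h2]
  rfl

/-- the point with coordinates `s, z` and angle `θ` -/
noncomputable def pt (a θ : ℝ) (x : X m) : Amb m := (Real.sqrt (2 * a * x.1) • ev θ, x.2)

theorem pt_cont (a : ℝ) : Continuous fun q : ℝ × X m => pt a q.1 q.2 := by
  unfold pt
  apply Continuous.prodMk
  · have h := (Real.continuous_sqrt.comp (by fun_prop : Continuous fun q : ℝ × X m =>
      2 * a * q.2.1)).smul (ev_cont.comp continuous_fst)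
    exact h
  · fun_prop

theorem polar {a : ℝ} (ha : 0 < a) {f : Amb m → ℝ≥0∞} (hf : Measurable f) :
    ∫⁻ x, f x = ENNReal.ofReal a * ∫⁻ θ in Ioo (-Real.pi) Real.pi, ∫⁻ x, f (pt a θ x) ∂(nu m) := by
  have hpm : Measurable fun q : ℝ × X m => f (pt a q.1 q.2) := hf.comp (pt_cont a).measurable
  have e0 : ∫⁻ x : Amb m, f x = ∫⁻ z : F m, ∫⁻ y : F 2, f (y, z) := by
    have : (volume : Measure (Amb m)) = (volume : Measure (F 2)).prod (volume : Measure (F m)) := rfl
    rw [this, lintegral_prod_symm' _ hf]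
  rw [e0]
  have e1 : ∀ z : F m, ∫⁻ y : F 2, f (y, z) = ENNReal.ofReal a *
      ∫⁻ θ in Ioo (-Real.pi) Real.pi, ∫⁻ s in Ioi (0 : ℝ), f (pt a θ (s, z)) := by
    intro z
    have h0 : Measurable fun y : F 2 => f (y, z) := hf.comp (measurable_id.prodMk measurable_const)
    rw [polar2 h0, ← lintegral_const_mul' _ _ ENNReal.ofReal_ne_top]
    apply lintegral_congr
    intro θ
    exact subst1 ha (fun r => f (r • ev θ, z))
  simp only [e1]
  rw [lintegral_const_mul' _ _ ENNReal.ofReal_ne_top]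
  congr 1
  -- swap `z` and `θ`
  have hm1 : Measurable fun q : (F m × ℝ) × ℝ => f (pt a q.1.2 (q.2, q.1.1)) := by
    have : (fun q : (F m × ℝ) × ℝ => f (pt a q.1.2 (q.2, q.1.1))) =
      (fun q : ℝ × X m => f (pt a q.1 q.2)) ∘ fun q : (F m × ℝ) × ℝ => (q.1.2, (q.2, q.1.1)) := rfl
    rw [this]
    exact hpm.comp (by fun_prop)
  rw [lintegral_lintegral_swap]
  · apply lintegral_congr
    intro θ
    unfold nu
    rw [lintegral_prod_symm']
    exact hpm.comp (measurable_const.prodMk measurable_id)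
  · apply Measurable.aemeasurable
    exact hm1.lintegral_prod_right'

end Pool.Agent.W5h41.GT
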