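import Pool.Agent.W5h41.GT3

set_option autoImplicit false

/-! # Slices of test functions -/

namespace Pool.Agent.W5h41.GT

open MeasureTheory Set Filter Topology
open scoped ContDiff NNReal ENNReal

variable {m : ℕ}

/-- gradient -/
noncomputable def grad (φ : Amb m → ℝ) (x : Amb m) : Amb m :=
  (gradient (fun y => φ (y, x.2)) x.1, gradient (fun z => φ (x.1, z)) x.2)

/-- Euclidean scalar product -/
noncomputable def dot (v w : Amb m) : ℝ := inner ℝ v.1 w.1 + inner ℝ v.2 w.2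

/-- test function -/
def IsTest (Ω : Set (Amb m)) (φ : Amb m → ℝ) : Prop :=
  ContDiff ℝ ∞ φ ∧ HasCompactSupport φ ∧ tsupport φ ⊆ Ω

theorem dot_self (v : Amb m) : dot v v = ‖v.1‖ ^ 2 + ‖v.2‖ ^ 2 := by
  unfold dot
  rw [real_inner_self_eq_norm_sq, real_inner_self_eq_norm_sq]

theorem fd1 {φ : Amb m → ℝ} (h : Differentiable ℝ φ) (x : Amb m) :
    HasFDerivAt (fun y => φ (y, x.2))
      ((fderiv ℝ φ x).comp (ContinuousLinearMap.inl ℝ (F 2) (F m))) x.1 := by
  have h1 : HasFDerivAt φ (fderiv ℝ φ x) (x.1, x.2) := (h x).hasFDerivAt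
  exact h1.comp x.1 (hasFDerivAt_prodMk_left x.1 x.2)

theorem fd2 {φ : Amb m → ℝ} (h : Differentiable ℝ φ) (x : Amb m) :
    HasFDerivAt (fun z => φ (x.1, z))
      ((fderiv ℝ φ x).comp (ContinuousLinearMap.inr ℝ (F 2) (F m))) x.2 := by
  have h1 : HasFDerivAt φ (fderiv ℝ φ x) (x.1, x.2) := (h x).hasFDerivAt
  exact h1.comp x.2 (hasFDerivAt_prodMk_right x.1 x.2)

theorem grad1_eq {φ : Amb m → ℝ} (h : Differentiable ℝ φ) (x : Amb m) :
    (grad φ x).1 = (InnerProductSpace.toDual ℝ (F 2)).symm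
      ((fderiv ℝ φ x).comp (ContinuousLinearMap.inl ℝ (F 2) (F m))) := by
  unfold grad gradient
  rw [(fd1 h x).fderiv]

theorem grad2_eq {φ : Amb m → ℝ} (h : Differentiable ℝ φ) (x : Amb m) :
    (grad φ x).2 = (InnerProductSpace.toDual ℝ (F m)).symm
      ((fderiv ℝ φ x).comp (ContinuousLinearMap.inr ℝ (F 2) (F m))) := by
  unfold grad gradient
  rw [(fd2 h x).fderiv]

theorem grad_cont {φ : Amb m → ℝ} (h : ContDiff ℝ ∞ φ) : Continuous (grad φ) := by
  have hd : Differentiable ℝ φ := h.differentiable (by simp)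
  have hc : Continuous (fderiv ℝ φ) := h.continuous_fderiv (by simp)
  have e : grad φ = fun x => ((InnerProductSpace.toDual ℝ (F 2)).symm
      ((fderiv ℝ φ x).comp (ContinuousLinearMap.inl ℝ (F 2) (F m))),
      (InnerProductSpace.toDual ℝ (F m)).symm
      ((fderiv ℝ φ x).comp (ContinuousLinearMap.inr ℝ (F 2) (F m)))) := by
    funext x
    rw [← grad1_eq hd, ← grad2_eq hd]
  rw [e]
  apply Continuous.prodMk
  · exact (LinearIsometryEquiv.continuous _).comp (hc.clm_comp continuous_const)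
  · exact (LinearIsometryEquiv.continuous _).comp (hc.clm_comp continuous_const)

theorem grad_zero_off {φ : Amb m → ℝ} (h : ContDiff ℝ ∞ φ) {x : Amb m} (hx : x ∉ tsupport φ) :
    grad φ x = 0 := by
  have hd : Differentiable ℝ φ := h.differentiable (by simp)
  have h0 : fderiv ℝ φ x = 0 := by
    by_contra hcon
    exact hx (support_fderiv_subset ℝ hcon)
  apply Prod.ext
  · rw [grad1_eq hd, h0]
    simp
  · rw [grad2_eq hd, h0]
    simp

/-- the slice -/
noncomputable def sl (a θ : ℝ) (φ : Amb m → ℝ) (x : X m) : ℝ := φ (pt a θ x)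

/-- the rotated domain -/
def Om (Θ : Set (X m)) : Set (Amb m) := {x | (‖x.1‖, x.2) ∈ Θ}

theorem pt_norm (a θ : ℝ) (x : X m) : ‖(pt a θ x).1‖ = Real.sqrt (2 * a * x.1) := by
  unfold pt
  rw [norm_smul, ev_norm, mul_one, Real.norm_eq_abs, abs_of_nonneg (Real.sqrt_nonneg _)]

theorem sl_zero {Θ : Set (X m)} {a b : ℝ} (ha : 0 < a) (hΘ : ∀ x ∈ Θ, a < x.1 ∧ x.1 < b)
    {φ : Amb m → ℝ} (hφ : IsTest (Om Θ) φ) (θ : ℝ) (x : X m)
    (hx : x.1 ≤ a / 2 ∨ b ^ 2 / (2 * a) ≤ x.1) : sl a θ φ x = 0 := by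
  unfold sl
  apply image_eq_zero_of_notMem_tsupport
  intro hcon
  have h1 : (‖(pt a θ x).1‖, (pt a θ x).2) ∈ Θ := hφ.2.2 hcon
  obtain ⟨h2, h3⟩ := hΘ _ h1
  simp only [pt_norm] at h2 h3
  have hb : 0 ≤ b := le_trans (Real.sqrt_nonneg _) h3.le
  rcases hx with hx | hx
  · have : Real.sqrt (2 * a * x.1) ≤ a := by
      rw [Real.sqrt_le_left ha.le]
      nlinarith
    linarith
  · have : b ≤ Real.sqrt (2 * a * x.1) := by
      apply Real.le_sqrt_of_sq_le
      rw [div_le_iff₀ (by positivity)] at hx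
      linarith
    linarith

theorem sl_fderiv {φ : Amb m → ℝ} (h : Differentiable ℝ φ) {a : ℝ} (ha : 0 < a) (θ : ℝ) (x : X m)
    (hx : 0 < x.1) : HasFDerivAt (sl a θ φ) ((fderiv ℝ φ (pt a θ x)).comp
      (((a / Real.sqrt (2 * a * x.1)) • ContinuousLinearMap.fst ℝ ℝ (F m)).smulRight (ev θ) |>.prod
        (ContinuousLinearMap.snd ℝ ℝ (F m)))) x := by
  have h0 : 0 < 2 * a * x.1 := by positivity
  have h1 : HasFDerivAt (fun y : X m => Real.sqrt (2 * a * y.1))
      ((a / Real.sqrt (2 * a * x.1)) • ContinuousLinearMap.fst ℝ ℝ (F m)) x := by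
    have h2 : HasFDerivAt (fun y : X m => 2 * a * y.1)
        ((2 * a) • ContinuousLinearMap.fst ℝ ℝ (F m)) x := (hasFDerivAt_fst).const_mul (2 * a)
    have h3 := h2.sqrt h0.ne'
    have e : (1 / (2 * Real.sqrt (2 * a * x.1))) • (2 * a) • ContinuousLinearMap.fst ℝ ℝ (F m) =
        (a / Real.sqrt (2 * a * x.1)) • ContinuousLinearMap.fst ℝ ℝ (F m) := by
      rw [smul_smul]
      congr 1
      field_simp
    rw [e] at h3
    exact h3
  have h2 : HasFDerivAt (fun y : X m => pt a θ y)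
      (((a / Real.sqrt (2 * a * x.1)) • ContinuousLinearMap.fst ℝ ℝ (F m)).smulRight (ev θ) |>.prod
        (ContinuousLinearMap.snd ℝ ℝ (F m))) x := by
    apply HasFDerivAt.prodMk
    · exact h1.smul_const (ev θ)
    · exact hasFDerivAt_snd
  exact ((h (pt a θ x)).hasFDerivAt).comp x h2

theorem sl_CC {Θ : Set (X m)} {a b : ℝ} (ha : 0 < a) (hΘ : ∀ x ∈ Θ, a < x.1 ∧ x.1 < b)
    {φ : Amb m → ℝ} (hφ : IsTest (Om Θ) φ) (θ : ℝ) : CC (sl a θ φ) := by
  constructor
  · rw [contDiff_iff_contDiffAt]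
    intro x
    rcases lt_or_ge 0 x.1 with hx | hx
    · have h1 : ContDiffAt ℝ ∞ (fun y : X m => pt a θ y) x := by
        unfold pt
        apply ContDiffAt.prodMk
        · have h0 : 0 < 2 * a * x.1 := by positivity
          have h2 : ContDiffAt ℝ ∞ (fun y : X m => 2 * a * y.1) x := by fun_prop
          have h3 := (h2.sqrt h0.ne').smul (contDiffAt_const (c := ev θ))
          exact h3
        · exact contDiffAt_snd
      exact (hφ.1.contDiffAt (x := pt a θ x)).comp x h1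
    · have h1 : sl a θ φ =ᶠ[𝓝 x] fun _ => 0 := by
        have h2 : {y : X m | y.1 < a / 2} ∈ 𝓝 x := by
          apply IsOpen.mem_nhds
          · exact isOpen_lt continuous_fst continuous_const
          · show x.1 < a / 2
            linarith
        filter_upwards [h2] with y hy
        exact sl_zero ha hΘ hφ θ y (Or.inl (le_of_lt hy))
      exact contDiffAt_const.congr_of_eventuallyEq h1
  · obtain ⟨R, hR⟩ := hφ.2.1.isBounded.subset_closedBall (0 : Amb m)
    apply HasCompactSupport.intro (K := Icc (a / 2) (b ^ 2 / (2 * a)) ×ˢ Metric.closedBall (0 : F m) R)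
    · exact isCompact_Icc.prod (isCompact_closedBall 0 R)
    · intro x hx
      by_contra hcon
      apply hx
      constructor
      · constructor
        · by_contra h1
          push Not at h1
          exact hcon (sl_zero ha hΘ hφ θ x (Or.inl h1.le))
        · by_contra h1
          push Not at h1
          exact hcon (sl_zero ha hΘ hφ θ x (Or.inr h1.le))
      · have h1 : pt a θ x ∈ tsupport φ := by
          by_contra h2
          apply hcon
          unfold sl
          exact image_eq_zero_of_notMem_tsupport h2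
        have h2 := hR h1
        rw [mem_closedBall_zero_iff] at h2 ⊢
        exact (norm_snd_le (pt a θ x)).trans h2

theorem sl_point {φ : Amb m → ℝ} (h : Differentiable ℝ φ) {a : ℝ} (ha : 0 < a) (θ : ℝ) (x : X m)
    (hx : 0 < x.1) : 2 * x.1 / a * Ws (sl a θ φ) x ^ 2 + ‖Wz (sl a θ φ) x‖ ^ 2 ≤
      dot (grad φ (pt a θ x)) (grad φ (pt a θ x)) := by
  rw [dot_self]
  have h0 : 0 < 2 * a * x.1 := by positivity
  have hf := (sl_fderiv h ha θ x hx).fderiv
  have e1 : Ws (sl a θ φ) x = a / Real.sqrt (2 * a * x.1) * fderiv ℝ φ (pt a θ x) (ev θ, 0) := by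
    unfold Ws
    rw [hf]
    simp only [ContinuousLinearMap.comp_apply, ContinuousLinearMap.prod_apply,
      ContinuousLinearMap.smulRight_apply, _root_.smul_apply,
      ContinuousLinearMap.coe_fst', ContinuousLinearMap.coe_snd', smul_eq_mul, mul_one]
    have : (((a / Real.sqrt (2 * a * x.1)) • ev θ, (0 : F m)) : Amb m) =
      (a / Real.sqrt (2 * a * x.1)) • ((ev θ, (0 : F m)) : Amb m) := by
      rw [Prod.smul_mk, smul_zero]
    rw [this, map_smul, smul_eq_mul]
  have e2 : 2 * x.1 / a * Ws (sl a θ φ) x ^ 2 = (fderiv ℝ φ (pt a θ x) (ev θ, 0)) ^ 2 := by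
    rw [e1, mul_pow, div_pow, Real.sq_sqrt h0.le]
    field_simp
  have e3 : |fderiv ℝ φ (pt a θ x) (ev θ, 0)| ≤ ‖(grad φ (pt a θ x)).1‖ := by
    rw [grad1_eq h, LinearIsometryEquiv.norm_map]
    have h1 := ContinuousLinearMap.le_opNorm
      ((fderiv ℝ φ (pt a θ x)).comp (ContinuousLinearMap.inl ℝ (F 2) (F m))) (ev θ)
    rw [ev_norm, mul_one] at h1
    exact h1
  have e4 : Wz (sl a θ φ) x = (fderiv ℝ φ (pt a θ x)).comp
      (ContinuousLinearMap.inr ℝ (F 2) (F m)) := by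
    unfold Wz
    rw [hf]
    ext z
    simp
  have e5 : ‖Wz (sl a θ φ) x‖ = ‖(grad φ (pt a θ x)).2‖ := by
    rw [grad2_eq h, LinearIsometryEquiv.norm_map, e4]
  rw [e2, e5]
  have e6 : (fderiv ℝ φ (pt a θ x) (ev θ, 0)) ^ 2 ≤ ‖(grad φ (pt a θ x)).1‖ ^ 2 := by
    rw [← sq_abs]
    exact pow_le_pow_left₀ (abs_nonneg _) e3 2
  linarith

/-- the slice inequality -/
theorem slice_ineq {p : ℝ} (hp0 : 0 < p) (hp : p⁻¹ = 1 / 2 - 1 / ((m : ℝ) + 1)) {Θ : Set (X m)}
    {a b : ℝ} (ha : 0 < a) (hab : a < b) (hΘ : ∀ x ∈ Θ, a < x.1 ∧ x.1 < b) {φ : Amb m → ℝ}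
    (hφ : IsTest (Om Θ) φ) (θ : ℝ) :
    ENNReal.ofReal (Sob m p) * (∫⁻ x, ENNReal.ofReal (|φ (pt a θ x)| ^ p) ∂(nu m)) ^ (2 / p) +
      ENNReal.ofReal (1 / (b ^ 2 - a ^ 2)) * ∫⁻ x, ENNReal.ofReal (φ (pt a θ x) ^ 2) ∂(nu m) ≤
      ∫⁻ x, ENNReal.ofReal (dot (grad φ (pt a θ x)) (grad φ (pt a θ x))) ∂(nu m) := by
  have hd : Differentiable ℝ φ := hφ.1.differentiable (by simp)
  have hW := sl_CC ha hΘ hφ θ
  have hs := fun x => sl_zero ha hΘ hφ θ x
  have hab2 : 0 < b ^ 2 - a ^ 2 := by nlinarith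
  have key := slice hp0 hp ha hab hW hs
  have hnle : nu m ≤ (volume : Measure (X m)) := by
    rw [nu_eq]
    exact Measure.restrict_le_self
  have hS := (Sob_set (m := m) hp0 hp).1
  -- the left side
  have h1 : ∫⁻ x, ENNReal.ofReal (|φ (pt a θ x)| ^ p) ∂(nu m) ≤ ENNReal.ofReal (Pw p (sl a θ φ)) := by
    unfold Pw
    rw [ofReal_integral_eq_lintegral_ofReal (Pw_int hp0 hW)
      (Eventually.of_forall fun _ => Real.rpow_nonneg (abs_nonneg _) _)]
    exact lintegral_mono' hnle le_rfl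
  have hc2 : Continuous fun x : X m => sl a θ φ x ^ 2 := hW.cont.pow 2
  have i2 : Integrable (fun x : X m => sl a θ φ x ^ 2) := by
    apply integ_of hW.2 hc2
    intro x hx
    rw [image_eq_zero_of_notMem_tsupport hx]
    simp
  have h2 : ∫⁻ x, ENNReal.ofReal (φ (pt a θ x) ^ 2) ∂(nu m) ≤ ENNReal.ofReal (Ma (sl a θ φ)) := by
    unfold Ma
    rw [ofReal_integral_eq_lintegral_ofReal i2 (Eventually.of_forall fun _ => sq_nonneg _)]
    exact lintegral_mono' hnle le_rfl
  have hMa0 : 0 ≤ Ma (sl a θ φ) := integral_nonneg fun _ => sq_nonneg _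
  have hzero : ∀ x : X m, x.1 ≤ 0 → x ∉ tsupport (sl a θ φ) := by
    intro x hx hcon
    obtain ⟨h3, -⟩ := tsupp_strip hs hcon
    linarith
  -- the right side
  have h3 : ENNReal.ofReal (∫ x : X m, (2 * x.1 / a * Ws (sl a θ φ) x ^ 2 +
      ‖Wz (sl a θ φ) x‖ ^ 2)) ≤
      ∫⁻ x, ENNReal.ofReal (dot (grad φ (pt a θ x)) (grad φ (pt a θ x))) ∂(nu m) := by
    have i3 : Integrable (fun x : X m => 2 * x.1 / a * Ws (sl a θ φ) x ^ 2 +
        ‖Wz (sl a θ φ) x‖ ^ 2) := by
      apply integ_of hW.2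
      · exact ((by fun_prop : Continuous fun x : X m => 2 * x.1 / a).mul (hW.cont_Ws.pow 2)).add
          (hW.cont_Wz.norm.pow 2)
      · intro x hx
        rw [Ws_zero_off hx, Wz_zero_off hx]
        simp
    have hnn : ∀ x : X m, 0 ≤ 2 * x.1 / a * Ws (sl a θ φ) x ^ 2 + ‖Wz (sl a θ φ) x‖ ^ 2 := by
      intro x
      rcases le_or_gt x.1 0 with hx | hx
      · rw [Ws_zero_off (hzero x hx), Wz_zero_off (hzero x hx)]
        simp
      · positivity
    rw [ofReal_integral_eq_lintegral_ofReal i3 (Eventually.of_forall hnn), nu_eq]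
    have hms : MeasurableSet {x : X m | 0 < x.1} :=
      (isOpen_lt continuous_const continuous_fst).measurableSet
    rw [← lintegral_indicator hms]
    apply lintegral_mono
    intro x
    rcases le_or_gt x.1 0 with hx | hx
    · simp only []
      rw [Ws_zero_off (hzero x hx), Wz_zero_off (hzero x hx)]
      simp
    · rw [indicator_of_mem (show x ∈ {x : X m | 0 < x.1} from hx)]
      exact ENNReal.ofReal_le_ofReal (sl_point hd ha θ x hx)
  refine le_trans ?_ ((ENNReal.ofReal_le_ofReal key).trans h3)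
  rw [ENNReal.ofReal_add (mul_nonneg hS.le (Real.rpow_nonneg (Pw_nonneg _ _) _))
    (mul_nonneg (by positivity) hMa0), ENNReal.ofReal_mul hS.le,
    ENNReal.ofReal_mul (by positivity), ← ENNReal.ofReal_rpow_of_nonneg (Pw_nonneg _ _)
    (by positivity)]
  gcongr

end Pool.Agent.W5h41.GT
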