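import Pool.Agent.W5h41.GT4

set_option autoImplicit false

/-! # The inequality for `H` -/

namespace Pool.Agent.W5h41.GT

open MeasureTheory Set Filter Topology
open scoped ContDiff NNReal ENNReal

variable {m : ℕ}

/-- `v ∈ H₀¹(Ω)` with weak gradient `G` -/
def IsH01 (Ω : Set (Amb m)) (v : Amb m → ℝ) (G : Amb m → Amb m) : Prop :=
  MemLp v 2 (volume.restrict Ω) ∧ MemLp G 2 (volume.restrict Ω) ∧
  ∃ φ : ℕ → Amb m → ℝ, (∀ k, IsTest Ω (φ k)) ∧
    Tendsto (fun k => eLpNorm (φ k - v) 2 (volume.restrict Ω)) atTop (𝓝 0) ∧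
    Tendsto (fun k => eLpNorm (grad (φ k) - G) 2 (volume.restrict Ω)) atTop (𝓝 0)

/-- invariance under `O(2)` -/
def IsInv (v : Amb m → ℝ) : Prop :=
  ∀ (g : F 2 ≃ₗᵢ[ℝ] F 2) (y : F 2) (z : F m), v (g y, z) = v (y, z)

theorem IsInv.eq {v : Amb m → ℝ} (h : IsInv v) {y y' : F 2} (hy : ‖y‖ = ‖y'‖) (z : F m) :
    v (y, z) = v (y', z) := by
  have h1 := h ((ℝ ∙ (y - y'))ᗮ.reflection) y z
  rw [Submodule.reflection_sub hy] at h1
  exact h1.symm

theorem Om_open {Θ : Set (X m)} (h : IsOpen Θ) : IsOpen (Om Θ) := by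
  apply h.preimage
  fun_prop

theorem ae_slice {a : ℝ} (ha : 0 < a) {q : Amb m → Prop} (h : ∀ᵐ x, q x) :
    ∀ᵐ θ ∂(volume.restrict (Ioo (-Real.pi) Real.pi)), ∀ᵐ x ∂(nu m), q (pt a θ x) := by
  obtain ⟨N, hN⟩ : ∃ N, N = toMeasurable (volume : Measure (Amb m)) {x | ¬ q x} := ⟨_, rfl⟩
  have hNm : MeasurableSet N := by rw [hN]; exact measurableSet_toMeasurable _ _
  have hN0 : volume N = 0 := by rw [hN, measure_toMeasurable]; exact h
  have hsub : ∀ x, ¬ q x → x ∈ N := by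
    intro x hx
    rw [hN]
    exact subset_toMeasurable _ _ hx
  have hf : Measurable (N.indicator (fun _ : Amb m => (1 : ℝ≥0∞))) := measurable_const.indicator hNm
  have h1 := polar (a := a) ha hf
  rw [lintegral_indicator hNm, setLIntegral_one, hN0] at h1
  have h2 : ∫⁻ θ in Ioo (-Real.pi) Real.pi, ∫⁻ x, N.indicator (fun _ : Amb m => (1 : ℝ≥0∞))
      (pt a θ x) ∂(nu m) = 0 := by
    have h3 := h1.symm
    rw [mul_eq_zero] at h3
    rcases h3 with h3 | h3
    · rw [ENNReal.ofReal_eq_zero] at h3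
      linarith
    · exact h3
  have hpm : Measurable fun q : ℝ × X m => N.indicator (fun _ : Amb m => (1 : ℝ≥0∞))
      (pt a q.1 q.2) := hf.comp (pt_cont a).measurable
  have hsf : SFinite (nu m) := by unfold nu; infer_instance
  have hm : Measurable fun θ : ℝ => ∫⁻ x, N.indicator (fun _ : Amb m => (1 : ℝ≥0∞))
      (pt a θ x) ∂(nu m) := hpm.lintegral_prod_right'
  rw [lintegral_eq_zero_iff hm] at h2
  filter_upwards [h2] with θ hθ
  have hm2 : Measurable fun x : X m => N.indicator (fun _ : Amb m => (1 : ℝ≥0∞)) (pt a θ x) :=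
    hpm.comp (measurable_const.prodMk measurable_id)
  have h4 := (lintegral_eq_zero_iff hm2).1 hθ
  filter_upwards [h4] with x hx
  by_contra hcon
  have h5 := hsub _ hcon
  simp [h5] at hx

theorem polar_ae {a : ℝ} (ha : 0 < a) {f : Amb m → ℝ≥0∞} (hf : AEMeasurable f) :
    ∫⁻ x, f x = ENNReal.ofReal a * ∫⁻ θ in Ioo (-Real.pi) Real.pi, ∫⁻ x, f (pt a θ x) ∂(nu m) := by
  rw [lintegral_congr_ae hf.ae_eq_mk, polar ha hf.measurable_mk]
  congr 1
  apply lintegral_congr_ae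
  filter_upwards [ae_slice ha hf.ae_eq_mk] with θ hθ
  apply lintegral_congr_ae
  filter_upwards [hθ] with x hx
  exact hx.symm

theorem eL_tendsto {α E : Type*} [MeasurableSpace α] [NormedAddCommGroup E] {μ : Measure α}
    {f : ℕ → α → E} {g : α → E} (hf : ∀ k, AEStronglyMeasurable (f k) μ) (hg : MemLp g 2 μ)
    (h : Tendsto (fun k => eLpNorm (f k - g) 2 μ) atTop (𝓝 0)) :
    Tendsto (fun k => eLpNorm (f k) 2 μ) atTop (𝓝 (eLpNorm g 2 μ)) := by
  have h1 : ∀ k, eLpNorm (f k) 2 μ ≤ eLpNorm g 2 μ + eLpNorm (f k - g) 2 μ := by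
    intro k
    have e : f k = g + (f k - g) := by abel
    calc eLpNorm (f k) 2 μ = eLpNorm (g + (f k - g)) 2 μ := by rw [← e]
      _ ≤ _ := eLpNorm_add_le hg.1 ((hf k).sub hg.1) (by norm_num)
  have h2 : ∀ k, eLpNorm g 2 μ - eLpNorm (f k - g) 2 μ ≤ eLpNorm (f k) 2 μ := by
    intro k
    rw [tsub_le_iff_right]
    have e : g = f k - (f k - g) := by abel
    calc eLpNorm g 2 μ = eLpNorm (f k - (f k - g)) 2 μ := by rw [← e]
      _ ≤ _ := eLpNorm_sub_le (hf k) ((hf k).sub hg.1) (by norm_num)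
  have h3 : Tendsto (fun k => eLpNorm g 2 μ + eLpNorm (f k - g) 2 μ) atTop
      (𝓝 (eLpNorm g 2 μ + 0)) := tendsto_const_nhds.add h
  have h4 : Tendsto (fun k => eLpNorm g 2 μ - eLpNorm (f k - g) 2 μ) atTop
      (𝓝 (eLpNorm g 2 μ - 0)) :=
    ENNReal.Tendsto.sub tendsto_const_nhds h (Or.inl hg.2.ne)
  rw [add_zero] at h3
  rw [tsub_zero] at h4
  exact tendsto_of_tendsto_of_tendsto_of_le_of_le h4 h3 h2 h1

theorem eL_sq {α E : Type*} [MeasurableSpace α] [NormedAddCommGroup E] {μ : Measure α}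
    (f : α → E) : (eLpNorm f 2 μ) ^ 2 = ∫⁻ x, ‖f x‖ₑ ^ 2 ∂μ := by
  rw [eLpNorm_eq_lintegral_rpow_enorm_toReal (by norm_num) (by norm_num)]
  rw [← ENNReal.rpow_natCast, ← ENNReal.rpow_mul]
  norm_num

theorem liminf_lemma {x y z : ℝ≥0∞} {xs ys zs : ℕ → ℝ≥0∞} (h : ∀ k, xs k + ys k ≤ zs k)
    (hx : x ≤ liminf xs atTop) (hy : Tendsto ys atTop (𝓝 y)) (hz : Tendsto zs atTop (𝓝 z))
    (hyt : y ≠ ⊤) : x + y ≤ z := by
  have hyz : y ≤ z := by
    apply le_of_tendsto_of_tendsto' hy hz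
    intro k
    exact le_trans le_add_self (h k)
  have h1 : Tendsto (fun k => zs k - ys k) atTop (𝓝 (z - y)) :=
    ENNReal.Tendsto.sub hz hy (Or.inr hyt)
  have h2 : liminf xs atTop ≤ z - y := by
    rw [← h1.liminf_eq]
    apply liminf_le_liminf
    · have hfin : ∀ᶠ k in atTop, ys k < ⊤ := hy.eventually_lt_const hyt.lt_top
      filter_upwards [hfin] with k hk
      exact ENNReal.le_sub_of_add_le_right hk.ne (h k)
    · isBoundedDefault
    · isBoundedDefault
  calc x + y ≤ (z - y) + y := by gcongr; exact hx.trans h2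
    _ = z := tsub_add_cancel_of_le hyz

theorem ofReal_sq_enorm (x : ℝ) : ENNReal.ofReal (x ^ 2) = ‖x‖ₑ ^ 2 := by
  rw [← sq_abs, ENNReal.ofReal_pow (abs_nonneg _), ← Real.norm_eq_abs, ofReal_norm]

theorem ofReal_dot (w : Amb m) : ENNReal.ofReal (dot w w) = ‖w.1‖ₑ ^ 2 + ‖w.2‖ₑ ^ 2 := by
  rw [dot_self, ENNReal.ofReal_add (sq_nonneg _) (sq_nonneg _), ENNReal.ofReal_pow (norm_nonneg _),
    ENNReal.ofReal_pow (norm_nonneg _), ofReal_norm, ofReal_norm]

theorem liminf_map {A S : ℝ≥0∞} (hA : A ≠ ⊤) (hS : S ≠ ⊤) {q : ℝ} (hq : 0 ≤ q) {P0 : ℝ≥0∞}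
    {u : ℕ → ℝ≥0∞} (h : P0 ≤ liminf u atTop) :
    A * (S * P0 ^ q) ≤ liminf (fun i => A * (S * (u i) ^ q)) atTop := by
  obtain ⟨g, hg⟩ : ∃ g : ℝ≥0∞ → ℝ≥0∞, g = fun t => A * (S * t ^ q) := ⟨_, rfl⟩
  have hmono : Monotone g := by
    intro s t hst
    rw [hg]
    simp only []
    gcongr
  have hcont : Continuous g := by
    rw [hg]
    exact (ENNReal.continuous_const_mul hA).comp ((ENNReal.continuous_const_mul hS).comp
      ENNReal.continuous_rpow_const)
  have h4 := hmono.map_liminf_of_continuousAt (F := atTop) u hcont.continuousAt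
  have h5 : g P0 ≤ liminf (g ∘ u) atTop := (hmono h).trans_eq h4
  rw [hg] at h5
  exact h5

theorem slice_fatou {p : ℝ} (hp0 : 0 < p) {a θ : ℝ} {ψ : ℕ → Amb m → ℝ}
    (hψ : ∀ i, Continuous (ψ i)) {w : Amb m → ℝ}
    (hθ : ∀ᵐ x ∂(nu m), Tendsto (fun i => ψ i (pt a θ x)) atTop (𝓝 (w (pt a θ x)))) :
    ∫⁻ x, ENNReal.ofReal (|w (pt a θ x)| ^ p) ∂(nu m) ≤
      liminf (fun i => ∫⁻ x, ENNReal.ofReal (|ψ i (pt a θ x)| ^ p) ∂(nu m)) atTop := by
  have hptc : Continuous fun x : X m => pt a θ x := by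
    have h := (pt_cont (m := m) a).comp (Continuous.prodMk_right θ)
    exact h
  have hmeas : ∀ i, Measurable fun x : X m => ENNReal.ofReal (|ψ i (pt a θ x)| ^ p) := by
    intro i
    apply ENNReal.measurable_ofReal.comp
    have : Continuous fun x : X m => |ψ i (pt a θ x)| := ((hψ i).comp hptc).abs
    exact this.measurable.pow_const p
  refine le_trans ?_ (lintegral_liminf_le hmeas)
  apply lintegral_mono_ae
  filter_upwards [hθ] with x hx
  have h4 : Tendsto (fun i => ENNReal.ofReal (|ψ i (pt a θ x)| ^ p)) atTop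
      (𝓝 (ENNReal.ofReal (|w (pt a θ x)| ^ p))) :=
    ENNReal.tendsto_ofReal ((hx.abs).rpow_const (Or.inr hp0.le))
  rw [h4.liminf_eq]

/-- convergence of the energies -/
theorem energy_tendsto {μ : Measure (Amb m)} {φ : ℕ → Amb m → ℝ} (hφ : ∀ k, ContDiff ℝ ∞ (φ k))
    {G : Amb m → Amb m} (hG : MemLp G 2 μ)
    (h : Tendsto (fun k => eLpNorm (grad (φ k) - G) 2 μ) atTop (𝓝 0)) :
    Tendsto (fun k => ∫⁻ x, ENNReal.ofReal (dot (grad (φ k) x) (grad (φ k) x)) ∂μ) atTop
      (𝓝 (∫⁻ x, ENNReal.ofReal (dot (G x) (G x)) ∂μ)) := by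
  have hc : ∀ k, Continuous (grad (φ k)) := fun k => grad_cont (hφ k)
  have hG1 : MemLp (fun x => (G x).1) 2 μ := by
    refine ⟨continuous_fst.comp_aestronglyMeasurable hG.1, lt_of_le_of_lt ?_ hG.2⟩
    exact eLpNorm_mono fun x => norm_fst_le _
  have hG2 : MemLp (fun x => (G x).2) 2 μ := by
    refine ⟨continuous_snd.comp_aestronglyMeasurable hG.1, lt_of_le_of_lt ?_ hG.2⟩
    exact eLpNorm_mono fun x => norm_snd_le _
  have h1 : Tendsto (fun k => eLpNorm ((fun x => (grad (φ k) x).1) - fun x => (G x).1) 2 μ) atTop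
      (𝓝 0) := by
    apply tendsto_of_tendsto_of_tendsto_of_le_of_le tendsto_const_nhds h (fun _ => zero_le)
    intro k
    exact eLpNorm_mono fun x => norm_fst_le ((grad (φ k) - G) x)
  have h2 : Tendsto (fun k => eLpNorm ((fun x => (grad (φ k) x).2) - fun x => (G x).2) 2 μ) atTop
      (𝓝 0) := by
    apply tendsto_of_tendsto_of_tendsto_of_le_of_le tendsto_const_nhds h (fun _ => zero_le)
    intro k
    exact eLpNorm_mono fun x => norm_snd_le ((grad (φ k) - G) x)
  have h3 := eL_tendsto (fun k => (continuous_fst.comp (hc k)).aestronglyMeasurable) hG1 h1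
  have h4 := eL_tendsto (fun k => (continuous_snd.comp (hc k)).aestronglyMeasurable) hG2 h2
  have h5 := (ENNReal.Tendsto.pow h3 (n := 2)).add (ENNReal.Tendsto.pow h4 (n := 2))
  have key : ∀ K : Amb m → Amb m, AEStronglyMeasurable K μ →
      ∫⁻ x, ENNReal.ofReal (dot (K x) (K x)) ∂μ =
      eLpNorm (fun x => (K x).1) 2 μ ^ 2 + eLpNorm (fun x => (K x).2) 2 μ ^ 2 := by
    intro K hK
    rw [eL_sq, eL_sq]
    simp only [ofReal_dot]
    rw [lintegral_add_left']
    exact ((continuous_fst.comp_aestronglyMeasurable hK).enorm).pow_const 2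
  simp only [key _ hG.1, fun k => key (grad (φ k)) (hc k).aestronglyMeasurable]
  exact h5

theorem mass_tendsto {Ω : Set (Amb m)} {φ : ℕ → Amb m → ℝ} (hφ : ∀ k, Continuous (φ k))
    {v : Amb m → ℝ} (hv : MemLp v 2 (volume.restrict Ω))
    (h : Tendsto (fun k => eLpNorm (φ k - v) 2 (volume.restrict Ω)) atTop (𝓝 0)) :
    Tendsto (fun k => ∫⁻ x in Ω, ENNReal.ofReal (φ k x ^ 2)) atTop
      (𝓝 (∫⁻ x in Ω, ENNReal.ofReal (v x ^ 2))) := by
  have h3 := eL_tendsto (fun k => (hφ k).aestronglyMeasurable) hv h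
  have h5 := ENNReal.Tendsto.pow h3 (n := 2)
  simp only [eL_sq] at h5
  simp only [ofReal_sq_enorm]
  exact h5

set_option maxHeartbeats 2000000 in
theorem F1_enn {p : ℝ} (hp0 : 0 < p) (hp : p⁻¹ = 1 / 2 - 1 / ((m : ℝ) + 1)) {Θ : Set (X m)}
    (hΘo : IsOpen Θ) {a b : ℝ} (ha : 0 < a) (hab : a < b) (hΘ : ∀ x ∈ Θ, a < x.1 ∧ x.1 < b)
    {v : Amb m → ℝ} {G : Amb m → Amb m} (h : IsH01 (Om Θ) v G) (hi : IsInv v) :
    ∃ P0 : ℝ≥0∞, (∫⁻ x in Om Θ, ENNReal.ofReal (|v x| ^ p)) =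
        ENNReal.ofReal (2 * Real.pi * a) * P0 ∧
      ENNReal.ofReal (2 * Real.pi * a) * (ENNReal.ofReal (Sob m p) * P0 ^ (2 / p)) +
        ENNReal.ofReal (1 / (b ^ 2 - a ^ 2)) * ∫⁻ x in Om Θ, ENNReal.ofReal (v x ^ 2) ≤
        ∫⁻ x in Om Θ, ENNReal.ofReal (dot (G x) (G x)) := by
  obtain ⟨hv, hG, φ, hφ, h1, h2⟩ := h
  have hΩm : MeasurableSet (Om Θ) := (Om_open hΘo).measurableSet
  have hφc : ∀ k, Continuous (φ k) := fun k => (hφ k).1.continuous
  have hm : TendstoInMeasure (volume.restrict (Om Θ)) φ atTop v :=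
    tendstoInMeasure_of_tendsto_eLpNorm (by norm_num)
      (fun k => (hφc k).aestronglyMeasurable) hv.1 h1
  obtain ⟨ns, hns, hae⟩ := hm.exists_seq_tendsto_ae
  have hφ0 : ∀ k x, x ∉ Om Θ → φ k x = 0 := fun k x hx =>
    image_eq_zero_of_notMem_tsupport fun hc => hx ((hφ k).2.2 hc)
  obtain ⟨w, hw⟩ : ∃ w, w = (Om Θ).indicator v := ⟨_, rfl⟩
  have hwt : ∀ᵐ x, Tendsto (fun i => φ (ns i) x) atTop (𝓝 (w x)) := by
    rw [ae_restrict_iff' hΩm] at hae
    filter_upwards [hae] with x hx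
    rw [hw]
    by_cases hxΩ : x ∈ Om Θ
    · rw [indicator_of_mem hxΩ]
      exact hx hxΩ
    · rw [indicator_of_notMem hxΩ]
      simp only [fun i => hφ0 (ns i) x hxΩ]
      exact tendsto_const_nhds
  have hwm : AEStronglyMeasurable w volume := by
    rw [hw]
    exact (aestronglyMeasurable_indicator_iff hΩm).2 hv.1
  have hwθ : ∀ (θ : ℝ) (x : X m), w (pt a θ x) = w (pt a 0 x) := by
    intro θ x
    rw [hw]
    have h3 : pt a θ x ∈ Om Θ ↔ pt a 0 x ∈ Om Θ := by
      show (‖(pt a θ x).1‖, (pt a θ x).2) ∈ Θ ↔ (‖(pt a 0 x).1‖, (pt a 0 x).2) ∈ Θ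
      rw [pt_norm, pt_norm]
      rfl
    by_cases hx : pt a 0 x ∈ Om Θ
    · rw [indicator_of_mem hx, indicator_of_mem (h3.2 hx)]
      have h4 := hi.eq (y := (pt a θ x).1) (y' := (pt a 0 x).1) (by rw [pt_norm, pt_norm]) x.2
      exact h4
    · rw [indicator_of_notMem hx, indicator_of_notMem (fun hc => hx (h3.1 hc))]
  obtain ⟨P0, hP0⟩ : ∃ P0, P0 = ∫⁻ x, ENNReal.ofReal (|w (pt a 0 x)| ^ p) ∂(nu m) := ⟨_, rfl⟩
  have hvol : (volume.restrict (Ioo (-Real.pi) Real.pi)) (univ : Set ℝ) =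
      ENNReal.ofReal (2 * Real.pi) := by
    rw [Measure.restrict_apply_univ, Real.volume_Ioo]
    congr 1
    ring
  have hsf : SFinite (nu m) := by unfold nu; infer_instance
  refine ⟨P0, ?_, ?_⟩
  · have e1 : ∫⁻ x in Om Θ, ENNReal.ofReal (|v x| ^ p) = ∫⁻ x, ENNReal.ofReal (|w x| ^ p) := by
      rw [← lintegral_indicator hΩm]
      apply lintegral_congr
      intro x
      rw [hw]
      by_cases hx : x ∈ Om Θ
      · rw [indicator_of_mem hx, indicator_of_mem hx]
      · rw [indicator_of_notMem hx, indicator_of_notMem hx, abs_zero, Real.zero_rpow hp0.ne',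
          ENNReal.ofReal_zero]
    have hmm : AEMeasurable (fun x => ENNReal.ofReal (|w x| ^ p)) volume := by
      apply ENNReal.measurable_ofReal.comp_aemeasurable
      exact ((continuous_abs.comp_aestronglyMeasurable hwm).aemeasurable).pow_const p
    rw [e1, polar_ae ha hmm]
    simp only [hwθ]
    rw [← hP0, lintegral_const, hvol, mul_comm P0, ← mul_assoc, ← ENNReal.ofReal_mul ha.le]
    congr 2
    ring
  · -- the limit
    obtain ⟨S, hS⟩ : ∃ S, S = ENNReal.ofReal (Sob m p) := ⟨_, rfl⟩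
    obtain ⟨c, hc⟩ : ∃ c, c = ENNReal.ofReal (1 / (b ^ 2 - a ^ 2)) := ⟨_, rfl⟩
    obtain ⟨A, hA⟩ : ∃ A, A = ENNReal.ofReal a := ⟨_, rfl⟩
    have hAt : A ≠ ⊤ := by rw [hA]; exact ENNReal.ofReal_ne_top
    have hct : c ≠ ⊤ := by rw [hc]; exact ENNReal.ofReal_ne_top
    have hSt : S ≠ ⊤ := by rw [hS]; exact ENNReal.ofReal_ne_top
    have hmp : ∀ i, Measurable fun q : ℝ × X m => ENNReal.ofReal (|φ (ns i) (pt a q.1 q.2)| ^ p) := by
      intro i
      apply ENNReal.measurable_ofReal.comp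
      have : Continuous fun q : ℝ × X m => |φ (ns i) (pt a q.1 q.2)| := by
        exact ((hφc (ns i)).comp (pt_cont a)).abs
      exact this.measurable.pow_const p
    have hmP : ∀ i, Measurable fun θ : ℝ => ∫⁻ x, ENNReal.ofReal (|φ (ns i) (pt a θ x)| ^ p)
        ∂(nu m) := fun i => (hmp i).lintegral_prod_right'
    rw [← hS, ← hc]
    apply liminf_lemma (xs := fun i => ∫⁻ θ in Ioo (-Real.pi) Real.pi, A * (S *
      (∫⁻ x, ENNReal.ofReal (|φ (ns i) (pt a θ x)| ^ p) ∂(nu m)) ^ (2 / p)))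
      (ys := fun i => c * ∫⁻ x in Om Θ, ENNReal.ofReal (φ (ns i) x ^ 2))
      (zs := fun i => ∫⁻ x in Om Θ, ENNReal.ofReal (dot (grad (φ (ns i)) x) (grad (φ (ns i)) x)))
    · intro i
      -- whole space integrals
      have e1 : ∫⁻ x in Om Θ, ENNReal.ofReal (φ (ns i) x ^ 2) =
          ∫⁻ x, ENNReal.ofReal (φ (ns i) x ^ 2) := by
        rw [← lintegral_indicator hΩm]
        apply lintegral_congr
        intro x
        by_cases hx : x ∈ Om Θ
        · rw [indicator_of_mem hx]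
        · rw [indicator_of_notMem hx, hφ0 _ x hx]
          simp
      have e2 : ∫⁻ x in Om Θ, ENNReal.ofReal (dot (grad (φ (ns i)) x) (grad (φ (ns i)) x)) =
          ∫⁻ x, ENNReal.ofReal (dot (grad (φ (ns i)) x) (grad (φ (ns i)) x)) := by
        rw [← lintegral_indicator hΩm]
        apply lintegral_congr
        intro x
        by_cases hx : x ∈ Om Θ
        · rw [indicator_of_mem hx]
        · rw [indicator_of_notMem hx, grad_zero_off (hφ (ns i)).1 fun hcc => hx ((hφ (ns i)).2.2 hcc)]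
          simp [dot]
      have hm1 : Measurable fun x : Amb m => ENNReal.ofReal (φ (ns i) x ^ 2) :=
        ENNReal.measurable_ofReal.comp ((hφc _).pow 2).measurable
      have hm2 : Measurable fun x : Amb m =>
          ENNReal.ofReal (dot (grad (φ (ns i)) x) (grad (φ (ns i)) x)) := by
        apply ENNReal.measurable_ofReal.comp
        have hgc := grad_cont (hφ (ns i)).1
        have hg1 : Continuous fun x => (grad (φ (ns i)) x).1 := continuous_fst.comp hgc
        have hg2 : Continuous fun x => (grad (φ (ns i)) x).2 := continuous_snd.comp hgc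
        have : Continuous fun x => dot (grad (φ (ns i)) x) (grad (φ (ns i)) x) :=
          (hg1.inner hg1).add (hg2.inner hg2)
        exact this.measurable
      rw [e1, e2, polar ha hm1, polar ha hm2, ← hA, mul_left_comm c A,
        ← lintegral_const_mul' _ _ hct, ← lintegral_const_mul' _ _ hAt,
        ← lintegral_const_mul' _ _ hAt]
      rw [← lintegral_add_left]
      · apply lintegral_mono
        intro θ
        simp only []
        rw [← mul_add]
        gcongr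
        have := slice_ineq hp0 hp ha hab hΘ (hφ (ns i)) θ
        rw [← hS, ← hc] at this
        exact this
      · exact ((hmP i).pow_const _ |>.const_mul S).const_mul A
    · -- Fatou
      have e1 : ENNReal.ofReal (2 * Real.pi * a) * (S * P0 ^ (2 / p)) =
          ∫⁻ θ in Ioo (-Real.pi) Real.pi, A * (S * P0 ^ (2 / p)) := by
        have e0 : ENNReal.ofReal (2 * Real.pi * a) = ENNReal.ofReal (2 * Real.pi) *
          ENNReal.ofReal a := ENNReal.ofReal_mul (by positivity)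
        rw [lintegral_const, hvol, hA, e0]
        ring
      rw [e1]
      refine le_trans ?_ (lintegral_liminf_le fun i =>
        ((hmP i).pow_const _ |>.const_mul S).const_mul A)
      apply lintegral_mono_ae
      filter_upwards [ae_slice ha hwt] with θ hθ
      have h3 := slice_fatou hp0 (ψ := fun i => φ (ns i)) (fun i => hφc (ns i)) hθ
      have e3 : ∫⁻ x, ENNReal.ofReal (|w (pt a θ x)| ^ p) ∂(nu m) = P0 := by
        rw [hP0]
        simp only [hwθ θ]
      rw [e3] at h3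
      exact liminf_map hAt hSt (by positivity) h3
    · apply ENNReal.Tendsto.const_mul _ (Or.inr hct)
      exact (mass_tendsto hφc hv h1).comp hns.tendsto_atTop
    · exact (energy_tendsto (fun k => (hφ k).1) hG h2).comp hns.tendsto_atTop
    · apply ENNReal.mul_ne_top hct
      have e : ∫⁻ x in Om Θ, ENNReal.ofReal (v x ^ 2) = eLpNorm v 2 (volume.restrict (Om Θ)) ^ 2 := by
        rw [eL_sq]
        simp only [ofReal_sq_enorm]
      rw [e]
      exact (ENNReal.pow_lt_top hv.2).ne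

end Pool.Agent.W5h41.GT
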