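import Pool.Agent.W5h41.GT5
import Pool.Agent.W5h41.GT1

set_option autoImplicit false

/-! # The real inequality and the vector space `H` -/

namespace Pool.Agent.W5h41.GT

open MeasureTheory Set Filter Topology
open scoped ContDiff NNReal ENNReal

variable {m : ℕ}

theorem memLp_fst {μ : Measure (Amb m)} {G : Amb m → Amb m} (hG : MemLp G 2 μ) :
    MemLp (fun x => (G x).1) 2 μ :=
  ⟨continuous_fst.comp_aestronglyMeasurable hG.1,
    lt_of_le_of_lt (eLpNorm_mono fun x => norm_fst_le _) hG.2⟩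

theorem memLp_snd {μ : Measure (Amb m)} {G : Amb m → Amb m} (hG : MemLp G 2 μ) :
    MemLp (fun x => (G x).2) 2 μ :=
  ⟨continuous_snd.comp_aestronglyMeasurable hG.1,
    lt_of_le_of_lt (eLpNorm_mono fun x => norm_snd_le _) hG.2⟩

theorem integrable_inner' {α E : Type*} [MeasurableSpace α] [NormedAddCommGroup E]
    [InnerProductSpace ℝ E] {μ : Measure α} {f g : α → E} (hf : MemLp f 2 μ) (hg : MemLp g 2 μ) :
    Integrable (fun x => inner ℝ (f x) (g x)) μ := by
  have h1 : Integrable (fun x => ‖f x‖ * ‖g x‖) μ := hf.norm.integrable_mul hg.norm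
  refine h1.mono' (hf.1.inner hg.1) (Eventually.of_forall fun x => ?_)
  exact norm_inner_le_norm _ _

theorem dot_integrable {μ : Measure (Amb m)} {G K : Amb m → Amb m} (hG : MemLp G 2 μ)
    (hK : MemLp K 2 μ) : Integrable (fun x => dot (G x) (K x)) μ :=
  (integrable_inner' (memLp_fst hG) (memLp_fst hK)).add
    (integrable_inner' (memLp_snd hG) (memLp_snd hK))

theorem dot_nonneg (w : Amb m) : 0 ≤ dot w w := by
  rw [dot_self]
  positivity

/-- the level constant -/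
noncomputable def Lc (m : ℕ) (p a : ℝ) : ℝ := (2 * Real.pi * a) ^ (1 - 2 / p) * Sob m p

theorem F1_real {p : ℝ} (hp2 : 2 < p) (hp : p⁻¹ = 1 / 2 - 1 / ((m : ℝ) + 1)) {Θ : Set (X m)}
    (hΘo : IsOpen Θ) {a b : ℝ} (ha : 0 < a) (hab : a < b) (hΘ : ∀ x ∈ Θ, a < x.1 ∧ x.1 < b)
    {v : Amb m → ℝ} {G : Amb m → Amb m} (h : IsH01 (Om Θ) v G) (hi : IsInv v) :
    Integrable (fun x => |v x| ^ p) (volume.restrict (Om Θ)) ∧
      Lc m p a * (∫ x in Om Θ, |v x| ^ p) ^ (2 / p) + 1 / (b ^ 2 - a ^ 2) *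
        (∫ x in Om Θ, v x * v x) ≤ ∫ x in Om Θ, dot (G x) (G x) := by
  have hp0 : 0 < p := by linarith
  obtain ⟨P0, hP, hle⟩ := F1_enn hp0 hp hΘo ha hab hΘ h hi
  obtain ⟨μ, hμ⟩ : ∃ μ, μ = (volume : Measure (Amb m)).restrict (Om Θ) := ⟨_, rfl⟩
  have hv : MemLp v 2 μ := by rw [hμ]; exact h.1
  have hG : MemLp G 2 μ := by rw [hμ]; exact h.2.1
  rw [← hμ] at hP hle ⊢
  obtain ⟨κ, hκ⟩ : ∃ κ, κ = 2 * Real.pi * a := ⟨_, rfl⟩
  have hκ0 : 0 < κ := by rw [hκ]; positivity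
  rw [← hκ] at hP hle
  have hS := (Sob_set (m := m) hp0 hp).1
  have hab2 : 0 < b ^ 2 - a ^ 2 := by nlinarith
  have hE : ∫⁻ x, ENNReal.ofReal (dot (G x) (G x)) ∂μ = ENNReal.ofReal (∫ x, dot (G x) (G x) ∂μ) :=
    (ofReal_integral_eq_lintegral_ofReal (dot_integrable hG hG)
      (Eventually.of_forall fun x => dot_nonneg _)).symm
  have hvv : Integrable (fun x => v x ^ 2) μ := hv.integrable_sq
  have hMs : ∫⁻ x, ENNReal.ofReal (v x ^ 2) ∂μ = ENNReal.ofReal (∫ x, v x ^ 2 ∂μ) :=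
    (ofReal_integral_eq_lintegral_ofReal hvv (Eventually.of_forall fun x => sq_nonneg _)).symm
  rw [hE, hMs] at hle
  have hP0 : P0 ≠ ⊤ := by
    intro hcon
    rw [hcon, ENNReal.top_rpow_of_pos (by positivity), ENNReal.mul_top, ENNReal.mul_top,
      top_add, top_le_iff] at hle
    · exact ENNReal.ofReal_ne_top hle
    · simp [hκ0]
    · simp [hS]
  obtain ⟨q, hq⟩ : ∃ q, q = P0.toReal := ⟨_, rfl⟩
  have hq0 : 0 ≤ q := by rw [hq]; exact ENNReal.toReal_nonneg
  have hPq : P0 = ENNReal.ofReal q := by rw [hq, ENNReal.ofReal_toReal hP0]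
  rw [hPq, ← ENNReal.ofReal_mul hκ0.le] at hP
  have hint : Integrable (fun x => |v x| ^ p) μ := by
    refine ⟨(hv.1.aemeasurable.abs.pow_const p).aestronglyMeasurable, ?_⟩
    rw [hasFiniteIntegral_iff_ofReal (Eventually.of_forall fun x => Real.rpow_nonneg (abs_nonneg _) _),
      hP]
    exact ENNReal.ofReal_lt_top
  refine ⟨hint, ?_⟩
  have hPr : ∫ x, |v x| ^ p ∂μ = κ * q := by
    rw [← ofReal_integral_eq_lintegral_ofReal hint
      (Eventually.of_forall fun x => Real.rpow_nonneg (abs_nonneg _) _)] at hP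
    exact (ENNReal.ofReal_eq_ofReal_iff (integral_nonneg fun x => Real.rpow_nonneg (abs_nonneg _) _)
      (by positivity)).1 hP
  have hM0 : 0 ≤ ∫ x, v x ^ 2 ∂μ := integral_nonneg fun x => sq_nonneg _
  rw [hPq, ENNReal.ofReal_rpow_of_nonneg hq0 (by positivity), ← ENNReal.ofReal_mul hS.le,
    ← ENNReal.ofReal_mul hκ0.le, ← ENNReal.ofReal_mul (by positivity),
    ← ENNReal.ofReal_add (by positivity) (by positivity),
    ENNReal.ofReal_le_ofReal_iff (integral_nonneg fun x => dot_nonneg _)] at hle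
  have e1 : ∫ x, v x * v x ∂μ = ∫ x, v x ^ 2 ∂μ := by
    congr 1
    funext x
    ring
  have e2 : Lc m p a * (κ * q) ^ (2 / p) = κ * (Sob m p * q ^ (2 / p)) := by
    unfold Lc
    rw [← hκ, Real.mul_rpow hκ0.le hq0]
    have : κ ^ (1 - 2 / p) * κ ^ (2 / p) = κ := by
      rw [← Real.rpow_add hκ0]
      simp
    calc κ ^ (1 - 2 / p) * Sob m p * (κ ^ (2 / p) * q ^ (2 / p)) =
        (κ ^ (1 - 2 / p) * κ ^ (2 / p)) * (Sob m p * q ^ (2 / p)) := by ring
      _ = _ := by rw [this]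
  rw [hPr, e1, e2]
  exact hle

theorem grad_add {φ ψ : Amb m → ℝ} (h1 : Differentiable ℝ φ) (h2 : Differentiable ℝ ψ) :
    grad (φ + ψ) = grad φ + grad ψ := by
  funext x
  apply Prod.ext
  · rw [grad1_eq (h1.add h2), Pi.add_apply, Prod.fst_add, grad1_eq h1, grad1_eq h2,
      fderiv_add (h1 x) (h2 x), ContinuousLinearMap.add_comp, map_add]
  · rw [grad2_eq (h1.add h2), Pi.add_apply, Prod.snd_add, grad2_eq h1, grad2_eq h2,
      fderiv_add (h1 x) (h2 x), ContinuousLinearMap.add_comp, map_add]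

theorem grad_smul {φ : Amb m → ℝ} (h1 : Differentiable ℝ φ) (s : ℝ) :
    grad (s • φ) = s • grad φ := by
  funext x
  apply Prod.ext
  · rw [grad1_eq (h1.const_smul s), Pi.smul_apply, Prod.smul_fst, grad1_eq h1,
      fderiv_const_smul (h1 x), ContinuousLinearMap.smul_comp, map_smul]
  · rw [grad2_eq (h1.const_smul s), Pi.smul_apply, Prod.smul_snd, grad2_eq h1,
      fderiv_const_smul (h1 x), ContinuousLinearMap.smul_comp, map_smul]

theorem IsTest.add {Ω : Set (Amb m)} {φ ψ : Amb m → ℝ} (h1 : IsTest Ω φ) (h2 : IsTest Ω ψ) :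
    IsTest Ω (φ + ψ) :=
  ⟨h1.1.add h2.1, h1.2.1.add h2.2.1, (tsupport_add φ ψ).trans (union_subset h1.2.2 h2.2.2)⟩

theorem IsTest.smul {Ω : Set (Amb m)} {φ : Amb m → ℝ} (h1 : IsTest Ω φ) (s : ℝ) :
    IsTest Ω (s • φ) := by
  refine ⟨h1.1.const_smul s, h1.2.1.smul_left (f := fun _ => s), ?_⟩
  refine subset_trans ?_ h1.2.2
  exact tsupport_smul_subset_right (fun _ => s) φ

theorem IsH01.add {Ω : Set (Amb m)} {v w : Amb m → ℝ} {G K : Amb m → Amb m} (h1 : IsH01 Ω v G)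
    (h2 : IsH01 Ω w K) : IsH01 Ω (v + w) (G + K) := by
  obtain ⟨a1, a2, φ, a3, a4, a5⟩ := h1
  obtain ⟨b1, b2, ψ, b3, b4, b5⟩ := h2
  refine ⟨a1.add b1, a2.add b2, fun k => φ k + ψ k, fun k => (a3 k).add (b3 k), ?_, ?_⟩
  · have h := a4.add b4
    rw [add_zero] at h
    apply tendsto_of_tendsto_of_tendsto_of_le_of_le tendsto_const_nhds h (fun _ => zero_le)
    intro k
    have e : φ k + ψ k - (v + w) = (φ k - v) + (ψ k - w) := by abel
    simp only []
    rw [e]
    exact eLpNorm_add_le ((a3 k).1.continuous.aestronglyMeasurable.sub a1.1)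
      ((b3 k).1.continuous.aestronglyMeasurable.sub b1.1) (by norm_num)
  · have h := a5.add b5
    rw [add_zero] at h
    apply tendsto_of_tendsto_of_tendsto_of_le_of_le tendsto_const_nhds h (fun _ => zero_le)
    intro k
    simp only []
    rw [grad_add ((a3 k).1.differentiable (by simp)) ((b3 k).1.differentiable (by simp))]
    have e : grad (φ k) + grad (ψ k) - (G + K) = (grad (φ k) - G) + (grad (ψ k) - K) := by abel
    rw [e]
    exact eLpNorm_add_le ((grad_cont (a3 k).1).aestronglyMeasurable.sub a2.1)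
      ((grad_cont (b3 k).1).aestronglyMeasurable.sub b2.1) (by norm_num)

theorem IsH01.smul {Ω : Set (Amb m)} {v : Amb m → ℝ} {G : Amb m → Amb m} (h1 : IsH01 Ω v G)
    (s : ℝ) : IsH01 Ω (s • v) (s • G) := by
  obtain ⟨a1, a2, φ, a3, a4, a5⟩ := h1
  refine ⟨a1.const_smul s, a2.const_smul s, fun k => s • φ k, fun k => (a3 k).smul s, ?_, ?_⟩
  · have h := ENNReal.Tendsto.const_mul a4 (a := ‖s‖ₑ) (Or.inr enorm_ne_top)
    rw [mul_zero] at h
    apply tendsto_of_tendsto_of_tendsto_of_le_of_le tendsto_const_nhds h (fun _ => zero_le)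
    intro k
    simp only []
    rw [← smul_sub, eLpNorm_const_smul]
  · have h := ENNReal.Tendsto.const_mul a5 (a := ‖s‖ₑ) (Or.inr enorm_ne_top)
    rw [mul_zero] at h
    apply tendsto_of_tendsto_of_tendsto_of_le_of_le tendsto_const_nhds h (fun _ => zero_le)
    intro k
    simp only []
    rw [grad_smul ((a3 k).1.differentiable (by simp)), ← smul_sub, eLpNorm_const_smul]

theorem IsTest.isH01 {Ω : Set (Amb m)} {φ : Amb m → ℝ} (h : IsTest Ω φ) :
    IsH01 Ω φ (grad φ) := by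
  refine ⟨?_, ?_, fun _ => φ, fun _ => h, ?_, ?_⟩
  · exact (h.1.continuous.memLp_of_hasCompactSupport h.2.1).restrict _
  · refine MemLp.restrict _ ?_
    apply (grad_cont h.1).memLp_of_hasCompactSupport
    exact HasCompactSupport.intro h.2.1 fun x hx => grad_zero_off h.1 hx
  · simp
  · simp

theorem IsTest.zero (Ω : Set (Amb m)) : IsTest Ω (0 : Amb m → ℝ) :=
  ⟨contDiff_const, HasCompactSupport.zero, by simp⟩

/-- the space `H`, as pairs (function, weak gradient) -/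
def Hsp (Θ : Set (X m)) : Submodule ℝ ((Amb m → ℝ) × (Amb m → Amb m)) where
  carrier := {u | IsH01 (Om Θ) u.1 u.2 ∧ IsInv u.1}
  add_mem' := by
    rintro u w ⟨hu1, hu2⟩ ⟨hw1, hw2⟩
    refine ⟨hu1.add hw1, fun g y z => ?_⟩
    show u.1 (g y, z) + w.1 (g y, z) = u.1 (y, z) + w.1 (y, z)
    rw [hu2 g y z, hw2 g y z]
  zero_mem' := by
    refine ⟨?_, fun g y z => rfl⟩
    have h1 := (IsTest.zero (Om Θ)).isH01
    have h2 : grad (0 : Amb m → ℝ) = 0 := by
      have := grad_smul (φ := (0 : Amb m → ℝ)) (differentiable_const 0) 0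
      rw [zero_smul, zero_smul] at this
      exact this
    rw [h2] at h1
    exact h1
  smul_mem' := by
    rintro s u ⟨hu1, hu2⟩
    refine ⟨hu1.smul s, fun g y z => ?_⟩
    show s • u.1 (g y, z) = s • u.1 (y, z)
    rw [hu2 g y z]

end Pool.Agent.W5h41.GT
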