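import Pool.Agent.W5h41.GT6

set_option autoImplicit false

/-! # Concentrated test functions -/

namespace Pool.Agent.W5h41.GT

open MeasureTheory Set Filter Topology
open scoped ContDiff NNReal ENNReal

variable {m : ℕ}

/-- scaled function -/
noncomputable def sc (ε : ℝ) (x0 : X m) (W : X m → ℝ) (x : X m) : ℝ := W (ε⁻¹ • (x - x0))

theorem sc_zero {W : X m → ℝ} {R : ℝ} (hR : ∀ x, R < ‖x‖ → W x = 0) {ε : ℝ} (hε : 0 < ε)
    (x0 x : X m) (hx : ε * R < ‖x - x0‖) : sc ε x0 W x = 0 := by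
  unfold sc
  apply hR
  rw [norm_smul, norm_inv, Real.norm_eq_abs, abs_of_pos hε, inv_mul_eq_div, lt_div_iff₀ hε]
  linarith

theorem sc_fderiv {W : X m → ℝ} (h : CC W) {ε : ℝ} (x0 x : X m) :
    HasFDerivAt (sc ε x0 W) (ε⁻¹ • fderiv ℝ W (ε⁻¹ • (x - x0))) x := by
  have h1 : HasFDerivAt (fun y : X m => ε⁻¹ • (y - x0))
      (ε⁻¹ • ContinuousLinearMap.id ℝ (X m)) x :=
    ((hasFDerivAt_id x).sub_const x0).const_smul ε⁻¹
  have h2 := (h.diff (ε⁻¹ • (x - x0))).hasFDerivAt.comp x h1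
  have e : (fderiv ℝ W (ε⁻¹ • (x - x0))).comp (ε⁻¹ • ContinuousLinearMap.id ℝ (X m)) =
      ε⁻¹ • fderiv ℝ W (ε⁻¹ • (x - x0)) := by
    rw [ContinuousLinearMap.comp_smul, ContinuousLinearMap.comp_id]
  rw [e] at h2
  exact h2

theorem sc_CC {W : X m → ℝ} (h : CC W) {ε : ℝ} (hε : 0 < ε) (x0 : X m) : CC (sc ε x0 W) := by
  constructor
  · unfold sc
    apply h.1.comp
    fun_prop
  · obtain ⟨R, hR⟩ := h.2.isBounded.subset_closedBall (0 : X m)
    have hR' : ∀ x, R < ‖x‖ → W x = 0 := by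
      intro x hx
      apply image_eq_zero_of_notMem_tsupport
      intro hc
      have := hR hc
      rw [mem_closedBall_zero_iff] at this
      linarith
    apply HasCompactSupport.intro (isCompact_closedBall x0 (ε * R))
    intro x hx
    rw [mem_closedBall_iff_norm, not_le] at hx
    exact sc_zero hR' hε x0 x hx

theorem sc_Ws {W : X m → ℝ} (h : CC W) {ε : ℝ} (x0 x : X m) :
    Ws (sc ε x0 W) x = ε⁻¹ * Ws W (ε⁻¹ • (x - x0)) := by
  unfold Ws
  rw [(sc_fderiv h x0 x).fderiv]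
  rfl

theorem sc_Wz {W : X m → ℝ} (h : CC W) {ε : ℝ} (x0 x : X m) :
    Wz (sc ε x0 W) x = ε⁻¹ • Wz W (ε⁻¹ • (x - x0)) := by
  unfold Wz
  rw [(sc_fderiv h x0 x).fderiv]
  rfl

theorem sc_int {ε : ℝ} (hε : 0 < ε) (x0 : X m) (f : X m → ℝ) :
    ∫ x, f (ε⁻¹ • (x - x0)) = ε ^ (m + 1) * ∫ x, f x := by
  have := haarX m
  have h1 : ∫ x, f (ε⁻¹ • (x - x0)) = ∫ x : X m, f (ε⁻¹ • x) :=
    integral_sub_right_eq_self (fun x : X m => f (ε⁻¹ • x)) x0
  rw [h1, Measure.integral_comp_inv_smul]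
  have hfr : Module.finrank ℝ (X m) = m + 1 := by
    rw [Module.finrank_prod, finrank_euclideanSpace_fin, Module.finrank_self]
    ring
  rw [hfr, abs_of_pos (by positivity), smul_eq_mul]

theorem sc_En {W : X m → ℝ} (h : CC W) {ε : ℝ} (hε : 0 < ε) (x0 : X m) :
    En (sc ε x0 W) = (ε⁻¹) ^ 2 * (ε ^ (m + 1) * En W) := by
  unfold En
  rw [← sc_int hε x0 (fun x => Ws W x ^ 2 + ‖Wz W x‖ ^ 2), ← integral_const_mul]
  congr 1
  funext x
  rw [sc_Ws h, sc_Wz h, norm_smul, norm_inv, Real.norm_eq_abs, abs_of_pos hε]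
  ring

theorem sc_Pw {p : ℝ} {W : X m → ℝ} {ε : ℝ} (hε : 0 < ε) (x0 : X m) :
    Pw p (sc ε x0 W) = ε ^ (m + 1) * Pw p W := by
  unfold Pw
  exact sc_int hε x0 (fun x => |W x| ^ p)

/-- the map `(y, z) ↦ (|y|² / (2 a), z)` -/
noncomputable def TT (a : ℝ) (x : Amb m) : X m := (‖x.1‖ ^ 2 / (2 * a), x.2)

theorem TT_pt {a : ℝ} (ha : 0 < a) (θ : ℝ) {x : X m} (hx : 0 ≤ x.1) : TT a (pt a θ x) = x := by
  unfold TT
  rw [pt_norm, Real.sq_sqrt (by positivity)]
  have : 2 * a * x.1 / (2 * a) = x.1 := by field_simp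
  rw [this]
  rfl

theorem TT_contDiff (a : ℝ) : ContDiff ℝ ∞ (TT a : Amb m → X m) := by
  unfold TT
  apply ContDiff.prodMk
  · exact ((contDiff_norm_sq ℝ).comp contDiff_fst).div_const _
  · exact contDiff_snd

theorem sym_int {a : ℝ} (ha : 0 < a) {f : X m → ℝ} (hf : Continuous f) (hc : HasCompactSupport f)
    (hn : ∀ x, 0 ≤ f x) (hz : ∀ x : X m, x.1 ≤ 0 → f x = 0) :
    ∫⁻ x : Amb m, ENNReal.ofReal (f (TT a x)) = ENNReal.ofReal (2 * Real.pi * a * ∫ x, f x) := by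
  have hm : Measurable fun x : Amb m => ENNReal.ofReal (f (TT a x)) :=
    ENNReal.measurable_ofReal.comp (hf.comp (TT_contDiff a).continuous).measurable
  rw [polar ha hm]
  have hms : MeasurableSet {x : X m | 0 < x.1} :=
    (isOpen_lt continuous_const continuous_fst).measurableSet
  have e1 : ∀ θ : ℝ, ∫⁻ x, ENNReal.ofReal (f (TT a (pt a θ x))) ∂(nu m) =
      ENNReal.ofReal (∫ x, f x) := by
    intro θ
    rw [ofReal_integral_eq_lintegral_ofReal (hf.integrable_of_hasCompactSupport hc)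
      (Eventually.of_forall hn), nu_eq, ← lintegral_indicator hms]
    apply lintegral_congr
    intro x
    rcases le_or_gt x.1 0 with hx | hx
    · rw [indicator_of_notMem (by simpa using hx), hz x hx]
      simp
    · rw [indicator_of_mem (show x ∈ {x : X m | 0 < x.1} from hx), TT_pt ha θ hx.le]
  simp only [e1]
  rw [lintegral_const, Measure.restrict_apply_univ, Real.volume_Ioo,
    mul_comm (ENNReal.ofReal (∫ x, f x)), ← mul_assoc, ← ENNReal.ofReal_mul ha.le,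
    ← ENNReal.ofReal_mul (by nlinarith [Real.pi_pos])]
  congr 1
  ring

theorem sym_grad {a : ℝ} (ha : 0 < a) {w : X m → ℝ} (h : CC w) (x : Amb m) :
    dot (grad (w ∘ TT a) x) (grad (w ∘ TT a) x) =
      2 * (TT a x).1 / a * Ws w (TT a x) ^ 2 + ‖Wz w (TT a x)‖ ^ 2 := by
  have hd : Differentiable ℝ (w ∘ TT a : Amb m → ℝ) :=
    h.diff.comp ((TT_contDiff a).differentiable (by simp))
  have hw : HasFDerivAt w (fderiv ℝ w (TT a x)) (TT a x) := (h.diff _).hasFDerivAt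
  -- the y derivative
  have h1 : HasFDerivAt (fun y : F 2 => (w ∘ TT a) (y, x.2))
      ((Ws w (TT a x) / a) • innerSL ℝ x.1) x.1 := by
    have h2 : HasFDerivAt (fun y : F 2 => TT a (y, x.2))
        (((1 / a) • innerSL ℝ x.1 : F 2 →L[ℝ] ℝ).prod (0 : F 2 →L[ℝ] F m)) x.1 := by
      have h3 : HasFDerivAt (fun y : F 2 => ‖y‖ ^ 2 / (2 * a)) ((1 / a) • innerSL ℝ x.1) x.1 := by
        have h4 : HasFDerivAt (fun y : F 2 => ‖y‖ ^ 2) (2 • (innerSL ℝ x.1)) x.1 :=
          (hasStrictFDerivAt_norm_sq x.1).hasFDerivAt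
        have h5 := h4.mul_const (2 * a)⁻¹
        have e : (2 * a)⁻¹ • (2 • (innerSL ℝ x.1)) = (1 / a) • (innerSL ℝ x.1) := by
          rw [← Nat.cast_smul_eq_nsmul ℝ, smul_smul]
          congr 1
          push_cast
          field_simp
        rw [e] at h5
        exact h5
      exact h3.prodMk (hasFDerivAt_const x.2 x.1)
    have h6 := hw.comp x.1 h2
    have e : (fderiv ℝ w (TT a x)).comp (((1 / a) • innerSL ℝ x.1 : F 2 →L[ℝ] ℝ).prod
        (0 : F 2 →L[ℝ] F m)) = (Ws w (TT a x) / a) • innerSL ℝ x.1 := by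
      ext y
      unfold Ws
      simp only [ContinuousLinearMap.comp_apply, ContinuousLinearMap.prod_apply,
        _root_.smul_apply, innerSL_apply_apply, _root_.zero_apply, smul_eq_mul]
      have : ((1 / a * inner ℝ x.1 y, (0 : F m)) : X m) =
          (1 / a * inner ℝ x.1 y) • ((1, 0) : X m) := by
        rw [Prod.smul_mk, smul_zero, smul_eq_mul, mul_one]
      rw [this, map_smul, smul_eq_mul]
      ring
    rw [e] at h6
    exact h6
  have h2 : HasFDerivAt (fun z : F m => (w ∘ TT a) (x.1, z)) (Wz w (TT a x)) x.2 := by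
    have h3 : HasFDerivAt (fun z : F m => TT a (x.1, z)) (ContinuousLinearMap.inr ℝ ℝ (F m)) x.2 := by
      have h5 : HasFDerivAt (fun _ : F m => ‖x.1‖ ^ 2 / (2 * a)) (0 : F m →L[ℝ] ℝ) x.2 :=
        hasFDerivAt_const _ _
      have h6 : HasFDerivAt (fun z : F m => z) (ContinuousLinearMap.id ℝ (F m)) x.2 :=
        hasFDerivAt_id x.2
      have h4 := h5.prodMk h6
      exact h4
    exact hw.comp x.2 h3
  rw [dot_self]
  have e1 : ‖(grad (w ∘ TT a) x).1‖ = |Ws w (TT a x) / a| * ‖x.1‖ := by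
    unfold grad gradient
    rw [LinearIsometryEquiv.norm_map, h1.fderiv, norm_smul, innerSL_apply_norm, Real.norm_eq_abs]
  have e2 : ‖(grad (w ∘ TT a) x).2‖ = ‖Wz w (TT a x)‖ := by
    unfold grad gradient
    rw [LinearIsometryEquiv.norm_map, h2.fderiv]
  rw [e1, e2, mul_pow, sq_abs]
  unfold TT
  simp only []
  field_simp

end Pool.Agent.W5h41.GT
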