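import Pool.Agent.W5h41.GT7

set_option autoImplicit false

/-! # Almost optimal functions, and the frame -/

namespace Pool.Agent.W5h41.GT

open MeasureTheory Set Filter Topology
open scoped ContDiff NNReal ENNReal

variable {m : ℕ}

theorem sym_int_real {a : ℝ} (ha : 0 < a) {f : X m → ℝ} (hf : Continuous f)
    (hc : HasCompactSupport f) (hn : ∀ x, 0 ≤ f x) (hz : ∀ x : X m, x.1 ≤ 0 → f x = 0) :
    ∫ x : Amb m, f (TT a x) = 2 * Real.pi * a * ∫ x, f x := by
  have hcont : Continuous fun x : Amb m => f (TT a x) := hf.comp (TT_contDiff a).continuous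
  rw [integral_eq_lintegral_of_nonneg_ae (Eventually.of_forall fun x => hn _)
    hcont.aestronglyMeasurable, sym_int ha hf hc hn hz, ENNReal.toReal_ofReal]
  have : 0 ≤ ∫ x, f x := integral_nonneg hn
  positivity

theorem F2 {p : ℝ} (hp2 : 2 < p) (hp : p⁻¹ = 1 / 2 - 1 / ((m : ℝ) + 1)) {Θ : Set (X m)}
    (hΘo : IsOpen Θ) {x1 : X m} (hx1 : x1 ∈ Θ) (hρ : 0 < x1.1) {η : ℝ} (hη : 0 < η) :
    ∃ u : (Amb m → ℝ) × (Amb m → Amb m), u ∈ Hsp Θ ∧ 0 < ∫ x in Om Θ, |u.1 x| ^ p ∧
      ∫ x in Om Θ, dot (u.2 x) (u.2 x) ≤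
        (Lc m p x1.1 + η) * (∫ x in Om Θ, |u.1 x| ^ p) ^ (2 / p) := by
  have hp0 : 0 < p := by linarith
  obtain ⟨ρ, hρe⟩ : ∃ ρ, ρ = x1.1 := ⟨_, rfl⟩
  rw [← hρe] at hρ ⊢
  obtain ⟨K, hK⟩ : ∃ K, K = (2 * Real.pi * ρ) ^ (1 - 2 / p) := ⟨_, rfl⟩
  have hK0 : 0 < K := by rw [hK]; positivity
  obtain ⟨hS0, -, hS2⟩ := Sob_set (m := m) hp0 hp
  obtain ⟨W, hW, hPW, hEW⟩ := hS2 (η / (2 * K)) (by positivity)
  obtain ⟨S', hS'⟩ : ∃ S', S' = Sob m p + η / (2 * K) := ⟨_, rfl⟩
  rw [← hS'] at hEW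
  have hS'0 : 0 < S' := by rw [hS']; positivity
  obtain ⟨t, ht⟩ : ∃ t, t = η / (2 * K * S') := ⟨_, rfl⟩
  have ht0 : 0 < t := by rw [ht]; positivity
  obtain ⟨R, hR0, hR⟩ : ∃ R : ℝ, 0 < R ∧ ∀ x : X m, R < ‖x‖ → W x = 0 := by
    obtain ⟨R, hR⟩ := hW.2.isBounded.subset_closedBall (0 : X m)
    refine ⟨max R 1, by positivity, fun x hx => ?_⟩
    apply image_eq_zero_of_notMem_tsupport
    intro hc
    have := hR hc
    rw [mem_closedBall_zero_iff] at this
    have := lt_of_le_of_lt (le_max_left R 1) hx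
    linarith
  obtain ⟨x0, hx0⟩ : ∃ x0 : X m, x0 = (ρ / 2, x1.2) := ⟨_, rfl⟩
  have hx01 : x0.1 = ρ / 2 := by rw [hx0]
  -- a neighbourhood
  obtain ⟨δ, hδ, hball⟩ : ∃ δ > 0, ∀ x : X m, dist x x0 < δ →
      ((Real.sqrt (2 * ρ * x.1), x.2) : X m) ∈ Θ := by
    have hg : Continuous fun x : X m => ((Real.sqrt (2 * ρ * x.1), x.2) : X m) := by fun_prop
    have h1 : ((Real.sqrt (2 * ρ * x0.1), x0.2) : X m) ∈ Θ := by
      have e : ((Real.sqrt (2 * ρ * x0.1), x0.2) : X m) = x1 := by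
        rw [hx0]
        have : 2 * ρ * (ρ / 2) = ρ ^ 2 := by ring
        simp only [this]
        rw [Real.sqrt_sq hρ.le, hρe]
      rw [e]
      exact hx1
    have h2 : (fun x : X m => ((Real.sqrt (2 * ρ * x.1), x.2) : X m)) ⁻¹' Θ ∈ 𝓝 x0 :=
      (hΘo.preimage hg).mem_nhds h1
    exact Metric.mem_nhds_iff.1 h2
  obtain ⟨ε, hε⟩ : ∃ ε, ε = min (δ / 2) (min (ρ / 4) (t * ρ / 2)) / R := ⟨_, rfl⟩
  have hmin : 0 < min (δ / 2) (min (ρ / 4) (t * ρ / 2)) := by positivity
  have hε0 : 0 < ε := by rw [hε]; positivity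
  have hεR : ε * R = min (δ / 2) (min (ρ / 4) (t * ρ / 2)) := by rw [hε]; field_simp
  have hε1 : ε * R < δ := by
    rw [hεR]
    have := min_le_left (δ / 2) (min (ρ / 4) (t * ρ / 2))
    linarith
  have hε2 : ε * R ≤ ρ / 4 := by
    rw [hεR]
    exact (min_le_right _ _).trans (min_le_left _ _)
  have hε3 : 2 * (ε * R) / ρ ≤ t := by
    rw [div_le_iff₀ hρ, hεR]
    have := (min_le_right (δ / 2) (min (ρ / 4) (t * ρ / 2))).trans (min_le_right _ _)
    linarith
  obtain ⟨w, hw⟩ : ∃ w, w = sc ε x0 W := ⟨_, rfl⟩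
  have hwCC : CC w := by rw [hw]; exact sc_CC hW hε0 x0
  have hw0 : ∀ x : X m, ε * R < ‖x - x0‖ → w x = 0 := by
    intro x hx
    rw [hw]
    exact sc_zero hR hε0 x0 x hx
  have hwt : ∀ x : X m, x ∈ tsupport w → ‖x - x0‖ ≤ ε * R := by
    have h1 : tsupport w ⊆ {x : X m | ‖x - x0‖ ≤ ε * R} := by
      apply closure_minimal
      · intro x hx
        by_contra hcon
        exact hx (hw0 x (not_le.1 hcon))
      · exact isClosed_le (by fun_prop) continuous_const
    exact fun x hx => h1 hx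
  have hwb : ∀ x : X m, x ∈ tsupport w → 0 < x.1 ∧ 2 * x.1 / ρ ≤ 1 + t := by
    intro x hx
    have h1 := hwt x hx
    have h2 : |x.1 - ρ / 2| ≤ ε * R := by
      have h3 := (norm_fst_le (x - x0)).trans h1
      rw [Prod.fst_sub, hx01, Real.norm_eq_abs] at h3
      exact h3
    obtain ⟨h3, h4⟩ := abs_le.1 h2
    constructor
    · linarith
    · have h5 : 2 * x.1 / ρ ≤ 2 * (ρ / 2 + ε * R) / ρ := by
        apply div_le_div_of_nonneg_right _ hρ.le
        linarith
      have h6 : 2 * (ρ / 2 + ε * R) / ρ = 1 + 2 * (ε * R) / ρ := by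
        field_simp
      linarith
  obtain ⟨v, hv⟩ : ∃ v : Amb m → ℝ, v = w ∘ TT ρ := ⟨_, rfl⟩
  have hvt : IsTest (Om Θ) v := by
    refine ⟨?_, ?_, ?_⟩
    · rw [hv]
      exact hwCC.1.comp (TT_contDiff ρ)
    · apply HasCompactSupport.intro
        ((isCompact_closedBall (0 : F 2) (ρ + ε * R)).prod (isCompact_closedBall x0.2 (ε * R)))
      intro x hx
      rw [hv, Function.comp_apply]
      apply hw0
      by_contra hcon
      rw [not_lt] at hcon
      apply hx
      have h1 := (norm_fst_le (TT ρ x - x0)).trans hcon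
      have h2 := (norm_snd_le (TT ρ x - x0)).trans hcon
      constructor
      · rw [mem_closedBall_zero_iff]
        rw [Prod.fst_sub, hx01, Real.norm_eq_abs] at h1
        obtain ⟨h3, h4⟩ := abs_le.1 h1
        unfold TT at h4
        simp only [] at h4
        have h5 : ‖x.1‖ ^ 2 ≤ 2 * ρ * (ρ / 2 + ε * R) := by
          have : ‖x.1‖ ^ 2 / (2 * ρ) ≤ ρ / 2 + ε * R := by linarith
          rw [div_le_iff₀ (by positivity)] at this
          linarith
        have h6 : 0 ≤ ε * R := by positivity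
        apply le_of_sq_le_sq _ (by positivity)
        nlinarith
      · rw [mem_closedBall_iff_norm]
        exact h2
    · refine subset_trans (closure_minimal (t := {x : Amb m | ‖TT ρ x - x0‖ ≤ ε * R}) ?_ ?_) ?_
      · intro x hx
        by_contra hcon
        apply hx
        rw [hv, Function.comp_apply]
        exact hw0 _ (not_le.1 hcon)
      · have := (TT_contDiff (m := m) ρ).continuous
        exact isClosed_le (by fun_prop) continuous_const
      · intro x hx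
        have h1 := hball (TT ρ x) (by
          rw [dist_eq_norm]
          exact lt_of_le_of_lt hx hε1)
        unfold TT at h1
        simp only [] at h1
        have h2 : 2 * ρ * (‖x.1‖ ^ 2 / (2 * ρ)) = ‖x.1‖ ^ 2 := by field_simp
        rw [h2, Real.sqrt_sq (norm_nonneg _)] at h1
        exact h1
  have hvi : IsInv v := by
    intro g y z
    rw [hv]
    show w (TT ρ (g y, z)) = w (TT ρ (y, z))
    unfold TT
    simp
  -- the integrals
  have hzero : ∀ x : Amb m, x ∉ Om Θ → v x = 0 := fun x hx =>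
    image_eq_zero_of_notMem_tsupport fun hc => hx (hvt.2.2 hc)
  have hgzero : ∀ x : Amb m, x ∉ Om Θ → grad v x = 0 := fun x hx =>
    grad_zero_off hvt.1 fun hc => hx (hvt.2.2 hc)
  have eP : ∫ x in Om Θ, |v x| ^ p = 2 * Real.pi * ρ * Pw p w := by
    rw [setIntegral_eq_integral_of_forall_compl_eq_zero (fun x hx => by
      rw [hzero x hx, abs_zero, Real.zero_rpow hp0.ne'])]
    rw [hv]
    apply sym_int_real hρ (f := fun x => |w x| ^ p)
    · exact hwCC.cont.abs.rpow_const (fun x => Or.inr hp0.le)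
    · apply HasCompactSupport.intro hwCC.2
      intro x hx
      rw [image_eq_zero_of_notMem_tsupport hx, abs_zero, Real.zero_rpow hp0.ne']
    · exact fun x => Real.rpow_nonneg (abs_nonneg _) _
    · intro x hx
      have hx2 : x ∉ tsupport w := fun hc => by
        have := (hwb x hc).1
        linarith
      show |w x| ^ p = 0
      rw [image_eq_zero_of_notMem_tsupport hx2, abs_zero, Real.zero_rpow hp0.ne']
  have eD : ∫ x in Om Θ, dot (grad v x) (grad v x) = 2 * Real.pi * ρ *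
      ∫ x : X m, (2 * x.1 / ρ * Ws w x ^ 2 + ‖Wz w x‖ ^ 2) := by
    rw [setIntegral_eq_integral_of_forall_compl_eq_zero (fun x hx => by
      rw [hgzero x hx]
      simp [dot])]
    have e : ∀ x : Amb m, dot (grad v x) (grad v x) =
        (fun x : X m => 2 * x.1 / ρ * Ws w x ^ 2 + ‖Wz w x‖ ^ 2) (TT ρ x) := by
      intro x
      rw [hv, sym_grad hρ hwCC]
    simp only [e]
    apply sym_int_real hρ (f := fun x : X m => 2 * x.1 / ρ * Ws w x ^ 2 + ‖Wz w x‖ ^ 2)
    · exact ((by fun_prop : Continuous fun x : X m => 2 * x.1 / ρ).mul (hwCC.cont_Ws.pow 2)).add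
        (hwCC.cont_Wz.norm.pow 2)
    · apply HasCompactSupport.intro hwCC.2
      intro x hx
      rw [Ws_zero_off hx, Wz_zero_off hx]
      simp
    · intro x
      by_cases hx : x ∈ tsupport w
      · have := (hwb x hx).1
        positivity
      · rw [Ws_zero_off hx, Wz_zero_off hx]
        simp
    · intro x hx
      have hx2 : x ∉ tsupport w := fun hc => by
        have := (hwb x hc).1
        linarith
      rw [Ws_zero_off hx2, Wz_zero_off hx2]
      simp
  have hDle : ∫ x : X m, (2 * x.1 / ρ * Ws w x ^ 2 + ‖Wz w x‖ ^ 2) ≤ (1 + t) * En w := by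
    unfold En
    rw [← integral_const_mul]
    apply integral_mono
    · apply integ_of hwCC.2
      · exact ((by fun_prop : Continuous fun x : X m => 2 * x.1 / ρ).mul (hwCC.cont_Ws.pow 2)).add
          (hwCC.cont_Wz.norm.pow 2)
      · intro x hx
        rw [Ws_zero_off hx, Wz_zero_off hx]
        simp
    · exact (En_int hwCC).const_mul _
    · intro x
      simp only []
      by_cases hx : x ∈ tsupport w
      · have h1 := (hwb x hx).2
        have h2 : 2 * x.1 / ρ * Ws w x ^ 2 ≤ (1 + t) * Ws w x ^ 2 :=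
          mul_le_mul_of_nonneg_right h1 (sq_nonneg _)
        have h3 : 0 ≤ t * ‖Wz w x‖ ^ 2 := by positivity
        linarith
      · rw [Ws_zero_off hx, Wz_zero_off hx]
        simp
  have hPw : Pw p w = ε ^ (m + 1) * Pw p W := by rw [hw]; exact sc_Pw hε0 x0
  have hEn : En w = (ε⁻¹) ^ 2 * (ε ^ (m + 1) * En W) := by rw [hw]; exact sc_En hW hε0 x0
  have hPw0 : 0 < Pw p w := by rw [hPw]; positivity
  refine ⟨(v, grad v), ⟨hvt.isH01, hvi⟩, ?_, ?_⟩
  · show 0 < ∫ x in Om Θ, |v x| ^ p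
    rw [eP]
    positivity
  · show ∫ x in Om Θ, dot (grad v x) (grad v x) ≤
      (Lc m p ρ + η) * (∫ x in Om Θ, |v x| ^ p) ^ (2 / p)
    rw [eP, eD, Real.mul_rpow (by positivity) hPw0.le]
    obtain ⟨κ, hκ⟩ : ∃ κ, κ = 2 * Real.pi * ρ := ⟨_, rfl⟩
    have hκ0 : 0 < κ := by rw [hκ]; positivity
    have e1 : Lc m p ρ + η = K * (1 + t) * S' := by
      unfold Lc
      rw [← hK, ht, hS']
      have h1 : Sob m p + η / (2 * K) ≠ 0 := by rw [← hS']; exact hS'0.ne'
      field_simp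
      ring
    have e2 : Pw p w ^ (2 / p) = (ε⁻¹) ^ 2 * ε ^ (m + 1) * Pw p W ^ (2 / p) := by
      rw [hPw, Real.mul_rpow (by positivity) hPW.le]
      congr 1
      rw [← Real.rpow_natCast, ← Real.rpow_mul hε0.le]
      have h1 : ((m + 1 : ℕ) : ℝ) * (2 / p) = ((m + 1 : ℕ) : ℝ) - 2 := by
        have : (2 / p) = 2 * p⁻¹ := by rw [div_eq_mul_inv]
        rw [this, hp]
        push_cast
        have : (m : ℝ) + 1 ≠ 0 := by positivity
        field_simp
      rw [h1, Real.rpow_sub hε0, Real.rpow_natCast]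
      have h2 : ε ^ (2 : ℝ) = ε ^ 2 := by
        rw [← Real.rpow_natCast]
        norm_num
      rw [h2]
      field_simp
    rw [e1, e2, ← hκ]
    have e3 : κ = K * κ ^ (2 / p) := by
      rw [hK, ← hκ, ← Real.rpow_add hκ0]
      simp
    have hEnle : En w ≤ (ε⁻¹) ^ 2 * (ε ^ (m + 1) * (S' * Pw p W ^ (2 / p))) := by
      rw [hEn]
      gcongr
    calc κ * ∫ x : X m, (2 * x.1 / ρ * Ws w x ^ 2 + ‖Wz w x‖ ^ 2) ≤ κ * ((1 + t) * En w) :=
          mul_le_mul_of_nonneg_left hDle hκ0.le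
      _ ≤ κ * ((1 + t) * ((ε⁻¹) ^ 2 * (ε ^ (m + 1) * (S' * Pw p W ^ (2 / p))))) := by gcongr
      _ = K * κ ^ (2 / p) * ((1 + t) * ((ε⁻¹) ^ 2 * (ε ^ (m + 1) * (S' * Pw p W ^ (2 / p))))) := by
          rw [← e3]
      _ = _ := by ring

end Pool.Agent.W5h41.GT
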