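import Pool.Agent.W5h41.GT8

set_option autoImplicit false

/-! # The frame -/

namespace Pool.Agent.W5h41.GT

open MeasureTheory Set Filter Topology
open scoped ContDiff NNReal ENNReal

variable {m : ℕ}

theorem dot_exp (G K : Amb m) (s : ℝ) :
    dot (G + s • K) (G + s • K) = dot G G + 2 * s * dot G K + s ^ 2 * dot K K := by
  unfold dot
  simp only [Prod.fst_add, Prod.snd_add, Prod.smul_fst, Prod.smul_snd, inner_add_left,
    inner_add_right, real_inner_smul_left, real_inner_smul_right]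
  rw [real_inner_comm K.1 G.1, real_inner_comm K.2 G.2]
  ring

theorem dot_left (G K : Amb m) (s : ℝ) : dot (s • G) K = s * dot G K := by
  unfold dot
  simp only [Prod.smul_fst, Prod.smul_snd, real_inner_smul_left]
  ring

theorem dot_right (G K : Amb m) (s : ℝ) : dot G (s • K) = s * dot G K := by
  unfold dot
  simp only [Prod.smul_fst, Prod.smul_snd, real_inner_smul_right]
  ring

theorem int_exp {α : Type*} [MeasurableSpace α] {μ : Measure α} {f g h : α → ℝ}
    (hf : Integrable f μ) (hg : Integrable g μ) (hh : Integrable h μ) (s : ℝ) :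
    ∫ x, (f x + 2 * s * g x + s ^ 2 * h x) ∂μ =
      (∫ x, f x ∂μ) + 2 * s * (∫ x, g x ∂μ) + s ^ 2 * ∫ x, h x ∂μ := by
  have i2 := hg.const_mul (2 * s)
  have i3 := hh.const_mul (s ^ 2)
  have i12 : Integrable (fun x => f x + 2 * s * g x) μ := hf.add i2
  rw [integral_add i12 i3, integral_add hf i2, integral_const_mul, integral_const_mul]

/-- convexity of `|x|^p` -/
theorem conv_pt {p : ℝ} (hp : 2 < p) (x y : ℝ) :
    |x| ^ p + p * (|x| ^ (p - 2) * x * y) ≤ |x + y| ^ p := by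
  have hp0 : 0 < p := by linarith
  obtain ⟨t, ht⟩ : ∃ t, t = x + y := ⟨_, rfl⟩
  have hy : y = t - x := by rw [ht]; ring
  rw [← ht, hy]
  have hxx : |x| ^ (p - 2) * x * x = |x| ^ p := by
    rcases eq_or_ne x 0 with h | h
    · rw [h]
      simp [Real.zero_rpow hp0.ne']
    · have hx : 0 < |x| := abs_pos.2 h
      have e : x * x = |x| ^ (2 : ℝ) := by
        rw [show (2 : ℝ) = ((2 : ℕ) : ℝ) by norm_num, Real.rpow_natCast, sq_abs]
        ring
      rw [mul_assoc, e, ← Real.rpow_add hx]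
      congr 1
      ring
  -- Young
  have hconj : p.HolderConjugate (p / (p - 1)) := Real.HolderConjugate.conjExponent (by linarith)
  have hy1 := Real.young_inequality_of_nonneg (abs_nonneg t)
    (Real.rpow_nonneg (abs_nonneg x) (p - 1)) hconj
  have e1 : (|x| ^ (p - 1)) ^ (p / (p - 1)) = |x| ^ p := by
    rw [← Real.rpow_mul (abs_nonneg x)]
    congr 1
    have : p - 1 ≠ 0 := by linarith
    field_simp
  rw [e1] at hy1
  have h2 : |x| ^ (p - 2) * x * t ≤ |t| * |x| ^ (p - 1) := by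
    have h3 : |x| ^ (p - 2) * |x| = |x| ^ (p - 1) := by
      rcases eq_or_ne x 0 with h | h
      · rw [h, abs_zero, mul_zero, Real.zero_rpow (by linarith)]
      · have hx : 0 < |x| := abs_pos.2 h
        nth_rewrite 2 [← Real.rpow_one |x|]
        rw [← Real.rpow_add hx]
        congr 1
        ring
    calc |x| ^ (p - 2) * x * t ≤ |(|x| ^ (p - 2) * x * t)| := le_abs_self _
      _ = |x| ^ (p - 2) * |x| * |t| := by
          rw [abs_mul, abs_mul, abs_of_nonneg (Real.rpow_nonneg (abs_nonneg x) _)]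
      _ = _ := by rw [h3, mul_comm]
  have h4 : p * (|x| ^ (p - 2) * x * (t - x)) = p * (|x| ^ (p - 2) * x * t) - p * |x| ^ p := by
    rw [← hxx]
    ring
  rw [h4]
  have h5 : p * (|t| ^ p / p + |x| ^ p / (p / (p - 1))) = |t| ^ p + (p - 1) * |x| ^ p := by
    have : p - 1 ≠ 0 := by linarith
    field_simp
  have h6 : p * (|x| ^ (p - 2) * x * t) ≤ |t| ^ p + (p - 1) * |x| ^ p := by
    rw [← h5]
    exact mul_le_mul_of_nonneg_left (h2.trans hy1) hp0.le
  linarith

/-- bound of the integrand of `I` -/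
theorem I_pt {p : ℝ} (hp : 2 < p) (x y : ℝ) :
    |(|x| ^ (p - 2) * x * y)| ≤ |x| ^ p + |y| ^ p := by
  have hp0 : 0 < p := by linarith
  have h3 : |x| ^ (p - 2) * |x| = |x| ^ (p - 1) := by
    rcases eq_or_ne x 0 with h | h
    · rw [h, abs_zero, mul_zero, Real.zero_rpow (by linarith)]
    · have hx : 0 < |x| := abs_pos.2 h
      nth_rewrite 2 [← Real.rpow_one |x|]
      rw [← Real.rpow_add hx]
      congr 1
      ring
  rw [abs_mul, abs_mul, abs_of_nonneg (Real.rpow_nonneg (abs_nonneg x) _), h3]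
  have hz : ∀ r : ℝ, 0 ≤ r → r ^ (p - 1) * r = r ^ p := by
    intro r hr
    rcases hr.eq_or_lt with h | h
    · rw [← h, mul_zero, Real.zero_rpow hp0.ne']
    · nth_rewrite 2 [← Real.rpow_one r]
      rw [← Real.rpow_add h]
      congr 1
      ring
  have hx0 : 0 ≤ |x| ^ p := Real.rpow_nonneg (abs_nonneg _) _
  have hy0 : 0 ≤ |y| ^ p := Real.rpow_nonneg (abs_nonneg _) _
  rcases le_total |x| |y| with h | h
  · have : |x| ^ (p - 1) * |y| ≤ |y| ^ p := by
      rw [← hz |y| (abs_nonneg _)]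
      exact mul_le_mul_of_nonneg_right (Real.rpow_le_rpow (abs_nonneg _) h (by linarith))
        (abs_nonneg _)
    linarith
  · have : |x| ^ (p - 1) * |y| ≤ |x| ^ p := by
      rw [← hz |x| (abs_nonneg _)]
      exact mul_le_mul_of_nonneg_left h (Real.rpow_nonneg (abs_nonneg _) _)
    linarith

theorem I_integrable {p : ℝ} (hp : 2 < p) {μ : Measure (Amb m)} {v h : Amb m → ℝ}
    (hv : AEStronglyMeasurable v μ) (hh : AEStronglyMeasurable h μ)
    (h1 : Integrable (fun x => |v x| ^ p) μ) (h2 : Integrable (fun x => |h x| ^ p) μ) :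
    Integrable (fun x => |v x| ^ (p - 2) * v x * h x) μ := by
  refine (h1.add h2).mono' ?_ (Eventually.of_forall fun x => ?_)
  · have e1 : AEStronglyMeasurable (fun x => |v x| ^ (p - 2)) μ :=
      (hv.aemeasurable.abs.pow_const (p - 2)).aestronglyMeasurable
    exact (e1.mul hv).mul hh
  · rw [Real.norm_eq_abs]
    exact I_pt hp (v x) (h x)

variable {p : ℝ} {Θ : Set (X m)} {a b : ℝ}

/-- hypotheses on the domain -/
structure Dom (Θ : Set (X m)) (a b : ℝ) : Prop where
  op : IsOpen Θ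
  ha : 0 < a
  hab : a < b
  sub : ∀ x ∈ Θ, a < x.1 ∧ x.1 < b
  inf : ∀ η : ℝ, 0 < η → ∃ x ∈ Θ, x.1 < a + η

theorem Lc_pos (hp0 : 0 < p) (hp : p⁻¹ = 1 / 2 - 1 / ((m : ℝ) + 1)) (ha : 0 < a) :
    0 < Lc m p a := by
  unfold Lc
  have := (Sob_set (m := m) hp0 hp).1
  positivity

theorem opt_exists (hp2 : 2 < p) (hp : p⁻¹ = 1 / 2 - 1 / ((m : ℝ) + 1)) (hd : Dom Θ a b)
    {η : ℝ} (hη : 0 < η) :
    ∃ u : (Amb m → ℝ) × (Amb m → Amb m), u ∈ Hsp Θ ∧ 0 < ∫ x in Om Θ, |u.1 x| ^ p ∧
      ∫ x in Om Θ, dot (u.2 x) (u.2 x) ≤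
        (Lc m p a + η) * (∫ x in Om Θ, |u.1 x| ^ p) ^ (2 / p) := by
  have hp0 : 0 < p := by linarith
  have hcont : ContinuousAt (fun ρ : ℝ => Lc m p ρ) a := by
    unfold Lc
    apply ContinuousAt.mul _ continuousAt_const
    apply ContinuousAt.rpow_const
    · exact (continuous_const.mul continuous_id).continuousAt
    · left
      have := hd.ha
      have : 0 < 2 * Real.pi * a := by positivity
      exact this.ne'
  obtain ⟨δ, hδ, h1⟩ := Metric.continuousAt_iff.1 hcont (η / 2) (by positivity)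
  obtain ⟨x1, hx1, hx2⟩ := hd.inf δ hδ
  have hx3 := (hd.sub x1 hx1).1
  have hρ : 0 < x1.1 := lt_trans hd.ha hx3
  have h2 := h1 (x := x1.1) (by
    rw [Real.dist_eq, abs_of_pos (by linarith)]
    linarith)
  rw [Real.dist_eq] at h2
  obtain ⟨u, hu1, hu2, hu3⟩ := F2 hp2 hp hd.op hx1 hρ (η := η / 2) (by positivity)
  refine ⟨u, hu1, hu2, hu3.trans ?_⟩
  apply mul_le_mul_of_nonneg_right _ (Real.rpow_nonneg hu2.le _)
  have := (abs_lt.1 h2).2
  linarith

/-- the frame of `H` -/
noncomputable def frame (hp2 : 2 < p) (hp : p⁻¹ = 1 / 2 - 1 / ((m : ℝ) + 1)) (hd : Dom Θ a b) :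
    Frame (Hsp Θ) p (Lc m p a) (1 / (b ^ 2 - a ^ 2)) where
  D u h := ∫ x in Om Θ, dot (u.1.2 x) (h.1.2 x)
  M u h := ∫ x in Om Θ, u.1.1 x * h.1.1 x
  P u := ∫ x in Om Θ, |u.1.1 x| ^ p
  I u h := ∫ x in Om Θ, |u.1.1 x| ^ (p - 2) * u.1.1 x * h.1.1 x
  D_exp u h s := by
    have e : ∀ x, dot ((u + s • h).1.2 x) ((u + s • h).1.2 x) = dot (u.1.2 x) (u.1.2 x) +
        2 * s * dot (u.1.2 x) (h.1.2 x) + s ^ 2 * dot (h.1.2 x) (h.1.2 x) := fun x =>
      dot_exp _ _ _
    simp only [e]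
    exact int_exp (dot_integrable u.2.1.2.1 u.2.1.2.1) (dot_integrable u.2.1.2.1 h.2.1.2.1)
      (dot_integrable h.2.1.2.1 h.2.1.2.1) s
  M_exp u h s := by
    have e : ∀ x, (u + s • h).1.1 x * (u + s • h).1.1 x = u.1.1 x * u.1.1 x +
        2 * s * (u.1.1 x * h.1.1 x) + s ^ 2 * (h.1.1 x * h.1.1 x) := fun x => by
      have : (u + s • h).1.1 x = u.1.1 x + s * h.1.1 x := rfl
      rw [this]
      ring
    simp only [e]
    exact int_exp (u.2.1.1.integrable_mul u.2.1.1) (u.2.1.1.integrable_mul h.2.1.1)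
      (h.2.1.1.integrable_mul h.2.1.1) s
  D_left u h s := by
    have e : ∀ x, dot ((s • u).1.2 x) (h.1.2 x) = s * dot (u.1.2 x) (h.1.2 x) := fun x =>
      dot_left _ _ _
    simp only [e]
    rw [integral_const_mul]
  D_right u h s := by
    have e : ∀ x, dot (u.1.2 x) ((s • h).1.2 x) = s * dot (u.1.2 x) (h.1.2 x) := fun x =>
      dot_right _ _ _
    simp only [e]
    rw [integral_const_mul]
  M_left u h s := by
    have e : ∀ x, (s • u).1.1 x * h.1.1 x = s * (u.1.1 x * h.1.1 x) := fun x => by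
      have : (s • u).1.1 x = s * u.1.1 x := rfl
      rw [this]
      ring
    simp only [e]
    rw [integral_const_mul]
  M_right u h s := by
    have e : ∀ x, u.1.1 x * (s • h).1.1 x = s * (u.1.1 x * h.1.1 x) := fun x => by
      have : (s • h).1.1 x = s * h.1.1 x := rfl
      rw [this]
      ring
    simp only [e]
    rw [integral_const_mul]
  I_left u h s hs := by
    have e : ∀ x, |(s • u).1.1 x| ^ (p - 2) * (s • u).1.1 x * h.1.1 x =
        s ^ (p - 1) * (|u.1.1 x| ^ (p - 2) * u.1.1 x * h.1.1 x) := fun x => by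
      have e1 : (s • u).1.1 x = s * u.1.1 x := rfl
      have e2 : s ^ (p - 1) = s ^ (p - 2) * s := by
        nth_rewrite 3 [← Real.rpow_one s]
        rw [← Real.rpow_add hs]
        congr 1
        ring
      rw [e1, abs_mul, abs_of_pos hs, Real.mul_rpow hs.le (abs_nonneg _), e2]
      ring
    simp only [e]
    rw [integral_const_mul]
  I_right u h s := by
    have e : ∀ x, |u.1.1 x| ^ (p - 2) * u.1.1 x * (s • h).1.1 x =
        s * (|u.1.1 x| ^ (p - 2) * u.1.1 x * h.1.1 x) := fun x => by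
      have e1 : (s • h).1.1 x = s * h.1.1 x := rfl
      rw [e1]
      ring
    simp only [e]
    rw [integral_const_mul]
  P_smul u s hs := by
    have e : ∀ x, |(s • u).1.1 x| ^ p = s ^ p * |u.1.1 x| ^ p := fun x => by
      have e1 : (s • u).1.1 x = s * u.1.1 x := rfl
      rw [e1, abs_mul, abs_of_pos hs, Real.mul_rpow hs.le (abs_nonneg _)]
    simp only [e]
    rw [integral_const_mul]
  I_self u := by
    congr 1
    funext x
    rcases eq_or_ne (u.1.1 x) 0 with h | h
    · rw [h]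
      simp [Real.zero_rpow (by linarith : p ≠ 0)]
    · have hx : 0 < |u.1.1 x| := abs_pos.2 h
      have e : u.1.1 x * u.1.1 x = |u.1.1 x| ^ (2 : ℝ) := by
        rw [show (2 : ℝ) = ((2 : ℕ) : ℝ) by norm_num, Real.rpow_natCast, sq_abs]
        ring
      rw [mul_assoc, e, ← Real.rpow_add hx]
      congr 1
      ring
  P_nonneg u := integral_nonneg fun x => Real.rpow_nonneg (abs_nonneg _) _
  M_nonneg u := integral_nonneg fun x => mul_self_nonneg _
  M_pos u hu := by
    have i1 := u.2.1.1.integrable_mul u.2.1.1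
    rcases (integral_nonneg (μ := volume.restrict (Om Θ)) (f := fun x => u.1.1 x * u.1.1 x)
      fun x => mul_self_nonneg _).eq_or_lt with h | h
    · exfalso
      have h1 := (integral_eq_zero_iff_of_nonneg (fun x => mul_self_nonneg (u.1.1 x)) i1).1 h.symm
      have h2 : ∫ x in Om Θ, |u.1.1 x| ^ p = 0 := by
        have : ∫ x in Om Θ, |u.1.1 x| ^ p = ∫ x in Om Θ, (0 : ℝ) := by
          apply integral_congr_ae
          filter_upwards [h1] with x hx
          have h3 : u.1.1 x = 0 := mul_self_eq_zero.1 hx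
          rw [h3, abs_zero, Real.zero_rpow (by linarith : p ≠ 0)]
        rw [this, integral_zero]
      linarith
    · exact h
  conv u h s := by
    have i1 := (F1_real hp2 hp hd.op hd.ha hd.hab hd.sub u.2.1 u.2.2).1
    have i2 := (F1_real hp2 hp hd.op hd.ha hd.hab hd.sub h.2.1 h.2.2).1
    have i3 := (F1_real hp2 hp hd.op hd.ha hd.hab hd.sub (u + s • h).2.1 (u + s • h).2.2).1
    have i4 := (I_integrable hp2 u.2.1.1.1 h.2.1.1.1 i1 i2).const_mul (p * s)
    rw [← integral_const_mul, ← integral_add i1 i4]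
    apply integral_mono (i1.add i4) i3
    intro x
    have h1 := conv_pt hp2 (u.1.1 x) (s * h.1.1 x)
    have e1 : (u + s • h).1.1 x = u.1.1 x + s * h.1.1 x := rfl
    show |u.1.1 x| ^ p + p * s * (|u.1.1 x| ^ (p - 2) * u.1.1 x * h.1.1 x) ≤
      |(u + s • h).1.1 x| ^ p
    rw [e1]
    refine le_trans (le_of_eq ?_) h1
    ring
  sob u := (F1_real hp2 hp hd.op hd.ha hd.hab hd.sub u.2.1 u.2.2).2
  opt η hη := by
    obtain ⟨u, h1, h2, h3⟩ := opt_exists hp2 hp hd hη
    exact ⟨⟨u, h1⟩, h2, h3⟩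

end Pool.Agent.W5h41.GT
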