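import Pool.Agent.W5h41.MA13

set_option autoImplicit false

/-! # The universal range -/

namespace Pool.Agent.W5h41.MA

open Complex Metric Set Filter Topology MeasureTheory
open Pool.Agent.W677.Mar

theorem MB_mono {C C' : ℝ} {t : ℂ} {B : ℝ} (h : MB C t B) (hC : C ≤ C') : MB C' t B := by
  intro Y H S r hr
  exact (h Y H S r hr).trans (mul_le_mul_of_nonneg_right hC (Real.exp_pos _).le)

theorem MB_zero : MB (2 * Real.pi) 0 0 := by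
  intro Y H S r hr
  simp

/-- small `t` -/
theorem piece0 : ∃ C : ℝ, ∀ t : ℂ, ‖t‖ ≤ 1 / 5 → MB C t (4 / 3 * ‖t‖ ^ 2) := by
  obtain ⟨C, hC⟩ := MB_method (θ := 7 / 50) (δ := 1 / 500) (by norm_num) (by norm_num) (by norm_num)
  refine ⟨max C (2 * Real.pi), fun t ht => ?_⟩
  by_cases ht0 : t = 0
  · rw [ht0, norm_zero]
    apply MB_mono _ (le_max_right _ _)
    have : (4 / 3 * (0 : ℝ) ^ 2) = 0 := by norm_num
    rw [this]
    exact MB_zero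
  · have hT0 : 0 < ‖t‖ := norm_pos_iff.2 ht0
    apply MB_mono _ (le_max_left _ _)
    have hre : t.re ≤ ‖t‖ := Complex.re_le_norm t
    obtain ⟨T, hT⟩ : ∃ T, T = ‖t‖ := ⟨_, rfl⟩
    rw [← hT] at ht hT0 hre
    apply hC t _ ht0 (by rw [← hT]; linarith) (by rw [← hT]; positivity) (by rw [← hT]; nlinarith)
    rw [← hT]
    obtain ⟨σ, hσ⟩ : ∃ σ, σ = 4 / 3 * T ^ 2 := ⟨_, rfl⟩
    rw [← hσ]
    have h1 : (1 + σ - T) ^ 2 ≤ (1 + σ) ^ 2 - 2 * (1 + σ) * t.re + T ^ 2 := by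
      have : 0 ≤ σ := by rw [hσ]; positivity
      nlinarith
    have h2 : (σ + 7 / 50) * (σ + 1 + 7 / 50) + 1 / 500 * ((σ + 1) * (σ + 2)) ≤
        7 / 50 * (1 - 7 / 50) * (4 / 3) * (σ + 2) * (1 + σ - T) ^ 2 := by
      rw [hσ]
      have p2 : T ^ 2 ≤ (1 / 5) ^ 2 := pow_le_pow_left₀ hT0.le ht 2
      have p3 : T ^ 3 ≤ (1 / 5) ^ 3 := pow_le_pow_left₀ hT0.le ht 3
      have p4 : T ^ 4 ≤ (1 / 5) ^ 4 := pow_le_pow_left₀ hT0.le ht 4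
      have p5 : T ^ 5 ≤ (1 / 5) ^ 5 := pow_le_pow_left₀ hT0.le ht 5
      have p6 : 0 ≤ T ^ 6 := by positivity
      nlinarith
    calc T ^ 2 * ((σ + 7 / 50) * (σ + 1 + 7 / 50) + 1 / 500 * ((σ + 1) * (σ + 2)))
        ≤ T ^ 2 * (7 / 50 * (1 - 7 / 50) * (4 / 3) * (σ + 2) * (1 + σ - T) ^ 2) :=
          mul_le_mul_of_nonneg_left h2 (sq_nonneg T)
      _ = 7 / 50 * (1 - 7 / 50) * σ * (σ + 2) * (1 + σ - T) ^ 2 := by rw [hσ]; ring
      _ ≤ _ := by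
          apply mul_le_mul_of_nonneg_left h1
          have : 0 ≤ σ := by rw [hσ]; positivity
          have e : (7 : ℝ) / 50 * (1 - 7 / 50) = 301 / 2500 := by norm_num
          rw [e]
          positivity

/-- one fixed modulus and a half plane of directions -/
theorem pieceN {θ σ T d : ℝ} (hθ0 : 0 < θ) (hθ1 : θ < 1) (hσ0 : 0 < σ) (hσ1 : σ ≤ 1) (hT : 0 < T)
    (hT1 : T ≤ 1)
    (h : T ^ 2 * ((σ + θ) * (σ + 1 + θ) + 1 / 2000 * ((σ + 1) * (σ + 2))) ≤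
      θ * (1 - θ) * σ * (σ + 2) * ((1 + σ) ^ 2 - 2 * (1 + σ) * d + T ^ 2)) :
    ∃ C : ℝ, ∀ t : ℂ, ‖t‖ = T → t.re ≤ d → MB C t σ := by
  obtain ⟨C, hC⟩ := MB_method (θ := θ) (δ := 1 / 2000) hθ0 hθ1 (by norm_num)
  refine ⟨C, fun t ht hd => ?_⟩
  apply hC t σ (by rw [← norm_pos_iff, ht]; exact hT) (by rw [ht]; exact hT1) hσ0 hσ1
  rw [ht]
  refine h.trans ?_
  apply mul_le_mul_of_nonneg_left _ (by
    have : 0 ≤ 1 - θ := by linarith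
    positivity)
  nlinarith

theorem piece1 : ∃ C : ℝ, ∀ t : ℂ, ‖t‖ = 17 / 100 → MB C t (4 / 125) := by
  obtain ⟨C, hC⟩ := pieceN (θ := 11 / 100) (σ := 4 / 125) (T := 17 / 100) (d := 17 / 100)
    (by norm_num) (by norm_num) (by norm_num) (by norm_num) (by norm_num) (by norm_num)
    (by norm_num)
  exact ⟨C, fun t ht => hC t ht (by rw [← ht]; exact Complex.re_le_norm t)⟩

theorem piece2 : ∃ C : ℝ, ∀ t : ℂ, ‖t‖ = 6 / 25 → t.re ≤ 18 / 125 → MB C t (13 / 200) :=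
  pieceN (θ := 3 / 20) (by norm_num) (by norm_num) (by norm_num) (by norm_num) (by norm_num)
    (by norm_num) (by norm_num)

theorem piece3 : ∃ C : ℝ, ∀ t : ℂ, ‖t‖ = 8 / 25 → t.re ≤ 8 / 65 → MB C t (59 / 500) :=
  pieceN (θ := 19 / 100) (by norm_num) (by norm_num) (by norm_num) (by norm_num) (by norm_num)
    (by norm_num) (by norm_num)

/-- the value of the moments at a direction -/
theorem re_conj (t u : ℂ) : ((starRingEnd ℂ) t * u).re = t.re * u.re + t.im * u.im := by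
  rw [Complex.mul_re, Complex.conj_re, Complex.conj_im]
  ring

/-- a radial choice -/
theorem radial {u : ℂ} (hu : u ≠ 0) {T : ℝ} (hT : 0 < T) :
    ∃ t : ℂ, ‖t‖ = T ∧ t.re = T * (u.re / ‖u‖) ∧ ((starRingEnd ℂ) t * u).re = T * ‖u‖ := by
  have hn : 0 < ‖u‖ := norm_pos_iff.2 hu
  refine ⟨((T / ‖u‖ : ℝ) : ℂ) * u, ?_, ?_, ?_⟩
  · rw [norm_mul, Complex.norm_real, Real.norm_of_nonneg (by positivity)]
    field_simp
  · rw [Complex.re_ofReal_mul]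
    ring
  · rw [map_mul, Complex.conj_ofReal, mul_assoc, ← Complex.normSq_eq_conj_mul_self,
      ← Complex.ofReal_mul, Complex.ofReal_re, Complex.normSq_eq_norm_sq]
    field_simp

/-- a tilted choice -/
theorem tilted (u : ℂ) {T c s : ℝ} (hT : 0 < T) (hcs : c ^ 2 + s ^ 2 = 1) :
    ∃ t : ℂ, ‖t‖ = T ∧ t.re = T * c ∧ ((starRingEnd ℂ) t * u).re = T * (c * u.re + s * |u.im|) := by
  rcases le_total 0 u.im with h | h
  · refine ⟨⟨T * c, T * s⟩, ?_, rfl, ?_⟩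
    · rw [← sq_eq_sq₀ (norm_nonneg _) hT.le, ← Complex.normSq_eq_norm_sq, Complex.normSq_mk]
      linear_combination T ^ 2 * hcs
    · rw [re_conj, abs_of_nonneg h]
      ring
  · refine ⟨⟨T * c, -(T * s)⟩, ?_, rfl, ?_⟩
    · rw [← sq_eq_sq₀ (norm_nonneg _) hT.le, ← Complex.normSq_eq_norm_sq, Complex.normSq_mk]
      linear_combination T ^ 2 * hcs
    · rw [re_conj, abs_of_nonpos h]
      ring

theorem tilt2 {x y ρ : ℝ} (hy : 0 ≤ y) (h : x ^ 2 + y ^ 2 = ρ ^ 2) (h1 : 16 / 25 ≤ ρ)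
    (h2 : ρ ≤ 43 / 50) (h3 : 3 / 5 * ρ ≤ x) (h4 : 2 * x - 1 ≤ 3 / 16 * ρ ^ 2) :
    3 / 16 * ρ ^ 2 ≤ 6 / 25 * (3 / 5 * x + 4 / 5 * y) - 13 / 200 := by
  by_contra hcon
  push Not at hcon
  obtain ⟨q, hq⟩ : ∃ q, q = ρ ^ 2 := ⟨_, rfl⟩
  rw [← hq] at h h4 hcon
  have hN : 24 / 125 * y < 13 / 200 + 3 / 16 * q - 18 / 125 * x := by linarith
  have hN2 : (24 / 125 * y) ^ 2 < (13 / 200 + 3 / 16 * q - 18 / 125 * x) ^ 2 :=
    pow_lt_pow_left₀ hN (by positivity) (by norm_num)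
  have hy2 : (24 / 125 * y) ^ 2 = (24 / 125) ^ 2 * (q - x ^ 2) := by
    rw [← h]; ring
  rw [hy2] at hN2
  have q1 : (16 / 25) ^ 2 ≤ q := by rw [hq]; exact pow_le_pow_left₀ (by norm_num) h1 2
  have q2 : q ≤ (43 / 50) ^ 2 := by rw [hq]; exact pow_le_pow_left₀ (by linarith) h2 2
  have hlo : 2 / 5 * (q + 16 / 25 * (43 / 50)) ≤ x := by
    have : 0 ≤ (ρ - 16 / 25) * (43 / 50 - ρ) := mul_nonneg (by linarith) (by linarith)
    rw [hq]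
    nlinarith
  have hhi : x ≤ (1 + 3 / 16 * q) / 2 := by linarith
  nlinarith [mul_nonneg (sub_nonneg.2 hlo) (sub_nonneg.2 hhi),
    mul_nonneg (sub_nonneg.2 q1) (sub_nonneg.2 q2),
    mul_nonneg (sub_nonneg.2 hlo) (sub_nonneg.2 q1), mul_nonneg (sub_nonneg.2 hlo) (sub_nonneg.2 q2),
    mul_nonneg (sub_nonneg.2 hhi) (sub_nonneg.2 q1), mul_nonneg (sub_nonneg.2 hhi) (sub_nonneg.2 q2)]

theorem tilt3 {x y ρ : ℝ} (hy : 0 ≤ y) (h : x ^ 2 + y ^ 2 = ρ ^ 2) (h1 : 43 / 50 ≤ ρ)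
    (h2 : ρ ≤ 1) (h3 : 5 / 13 * ρ ≤ x) (h4 : 2 * x - 1 ≤ 3 / 16 * ρ ^ 2) :
    3 / 16 * ρ ^ 2 ≤ 8 / 25 * (5 / 13 * x + 12 / 13 * y) - 59 / 500 := by
  by_contra hcon
  push Not at hcon
  obtain ⟨q, hq⟩ : ∃ q, q = ρ ^ 2 := ⟨_, rfl⟩
  rw [← hq] at h h4 hcon
  have hN : 96 / 325 * y < 59 / 500 + 3 / 16 * q - 8 / 65 * x := by linarith
  have hN2 : (96 / 325 * y) ^ 2 < (59 / 500 + 3 / 16 * q - 8 / 65 * x) ^ 2 :=
    pow_lt_pow_left₀ hN (by positivity) (by norm_num)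
  have hy2 : (96 / 325 * y) ^ 2 = (96 / 325) ^ 2 * (q - x ^ 2) := by
    rw [← h]; ring
  rw [hy2] at hN2
  have q1 : (43 / 50) ^ 2 ≤ q := by rw [hq]; exact pow_le_pow_left₀ (by norm_num) h1 2
  have q2 : q ≤ 1 := by rw [hq]; nlinarith
  have hlo : 5 / 13 * ((q + 43 / 50) * (50 / 93)) ≤ x := by
    have : 0 ≤ (ρ - 43 / 50) * (1 - ρ) := mul_nonneg (by linarith) (by linarith)
    rw [hq]
    nlinarith
  have hhi : x ≤ (1 + 3 / 16 * q) / 2 := by linarith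
  nlinarith [mul_nonneg (sub_nonneg.2 hlo) (sub_nonneg.2 hhi),
    mul_nonneg (sub_nonneg.2 q1) (sub_nonneg.2 q2),
    mul_nonneg (sub_nonneg.2 hlo) (sub_nonneg.2 q1), mul_nonneg (sub_nonneg.2 hlo) (sub_nonneg.2 q2),
    mul_nonneg (sub_nonneg.2 hhi) (sub_nonneg.2 q1), mul_nonneg (sub_nonneg.2 hhi) (sub_nonneg.2 q2)]

/-- the covering -/
theorem cover {a : ℝ} (ha : a < 3 / 16) (u : ℂ) (h1 : 4 / 15 ≤ ‖u‖) (h2 : ‖u‖ ≤ 1) :
    ∃ (C B : ℝ) (t : ℂ), MB C t B ∧ a * ‖u‖ ^ 2 < ((starRingEnd ℂ) t * u).re - B := by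
  obtain ⟨C1, hC1⟩ := piece1
  obtain ⟨C2, hC2⟩ := piece2
  obtain ⟨C3, hC3⟩ := piece3
  have hn : 0 < ‖u‖ := by linarith
  have hu0 : u ≠ 0 := norm_pos_iff.1 hn
  have hxy : u.re ^ 2 + |u.im| ^ 2 = ‖u‖ ^ 2 := by
    rw [sq_abs, ← Complex.normSq_eq_norm_sq, Complex.normSq_apply]
    ring
  have haq : a * ‖u‖ ^ 2 < 3 / 16 * ‖u‖ ^ 2 := mul_lt_mul_of_pos_right ha (by positivity)
  rcases le_or_gt ‖u‖ (16 / 25) with h3 | h3
  · obtain ⟨t, ht1, _, ht3⟩ := radial hu0 (T := 17 / 100) (by norm_num)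
    refine ⟨C1, 4 / 125, t, hC1 t ht1, ?_⟩
    rw [ht3]
    nlinarith [mul_nonneg (sub_nonneg.2 h1) (sub_nonneg.2 h3)]
  rcases le_or_gt (3 / 16 * ‖u‖ ^ 2) (2 * u.re - 1) with h4 | h4
  · refine ⟨_, 1, 2, MB_two, ?_⟩
    rw [re_conj]
    simp only [Complex.re_ofNat, Complex.im_ofNat]
    linarith
  rcases le_or_gt ‖u‖ (43 / 50) with h5 | h5
  · rcases le_or_gt u.re (3 / 5 * ‖u‖) with h6 | h6
    · obtain ⟨t, ht1, ht2, ht3⟩ := radial hu0 (T := 6 / 25) (by norm_num)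
      refine ⟨C2, 13 / 200, t, hC2 t ht1 ?_, ?_⟩
      · rw [ht2]
        have : u.re / ‖u‖ ≤ 3 / 5 := (div_le_iff₀ hn).2 h6
        linarith
      · rw [ht3]
        nlinarith [mul_nonneg (sub_nonneg.2 h3.le) (sub_nonneg.2 h5)]
    · obtain ⟨t, ht1, ht2, ht3⟩ := tilted u (T := 6 / 25) (c := 3 / 5) (s := 4 / 5) (by norm_num)
        (by norm_num)
      refine ⟨C2, 13 / 200, t, hC2 t ht1 (by rw [ht2]; norm_num), ?_⟩
      rw [ht3]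
      have := tilt2 (abs_nonneg u.im) hxy h3.le h5 h6.le h4.le
      linarith
  · rcases le_or_gt u.re (5 / 13 * ‖u‖) with h6 | h6
    · obtain ⟨t, ht1, ht2, ht3⟩ := radial hu0 (T := 8 / 25) (by norm_num)
      refine ⟨C3, 59 / 500, t, hC3 t ht1 ?_, ?_⟩
      · rw [ht2]
        have : u.re / ‖u‖ ≤ 5 / 13 := (div_le_iff₀ hn).2 h6
        linarith
      · rw [ht3]
        nlinarith [mul_nonneg (sub_nonneg.2 h5.le) (sub_nonneg.2 h2)]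
    · obtain ⟨t, ht1, ht2, ht3⟩ := tilted u (T := 8 / 25) (c := 5 / 13) (s := 12 / 13) (by norm_num)
        (by norm_num)
      refine ⟨C3, 59 / 500, t, hC3 t ht1 (by rw [ht2]; norm_num), ?_⟩
      rw [ht3]
      have := tilt3 (abs_nonneg u.im) hxy h5.le h2 h6.le h4.le
      linarith

/-- **The universal range `a < 3 / 16`.** -/
theorem universal {a : ℝ} (ha0 : 0 < a) (ha : a < 3 / 16) :
    ∃ C : ℝ, ∀ Y H : ℂ → ℂ, Sg Y H → ∀ r ∈ Ioo (0 : ℝ) 1,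
      ∫ x in (0:ℝ)..(2 * Real.pi), Real.exp (a * ‖H (circleMap 0 r x)‖ ^ 2 / lam (r ^ 2)) ≤ C := by
  obtain ⟨C0, hC0⟩ := piece0
  apply criterion (κ := 4 / 3) (u0 := 4 / 15) (C0 := C0) ha0 (by norm_num) (by norm_num)
    (by linarith)
  · intro t ht
    exact hC0 t (by linarith [ht, show (4 / 15 : ℝ) / (4 / 3) = 1 / 5 by norm_num])
  · intro u h1 h2
    exact cover ha u h1 h2

end Pool.Agent.W5h41.MA
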