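import Mathlib

set_option autoImplicit false
set_option maxHeartbeats 4000000

/-! # Polynomial inequalities (Bernstein expansions) -/

namespace Pool.Agent.W5h41.MA

theorem berA0 {u u' v v' : ℝ} (h1 : 0 ≤ u) (h2 : 0 ≤ u') (h3 : 0 ≤ v) (h4 : 0 ≤ v') :
    0 ≤ (u ^ 0 * u' ^ 4) * (1171875/16807 * (v ^ 2 * v' ^ 5) + 44140625/134456 * (v ^ 3 * v' ^ 4) + 20703125/33614 * (v ^ 4 * v' ^ 3) + 38243125/67228 * (v ^ 5 * v' ^ 2) + 4247800/16807 * (v ^ 6 * v' ^ 1) + 5475797/134456 * (v ^ 7 * v' ^ 0)) +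
      (u ^ 1 * u' ^ 3) * (6103515625/6588344 * (v ^ 0 * v' ^ 7) + 2685546875/470596 * (v ^ 1 * v' ^ 6) + 14862109375/941192 * (v ^ 2 * v' ^ 5) + 2999218750/117649 * (v ^ 3 * v' ^ 4) + 24365390625/941192 * (v ^ 4 * v' ^ 3) + 7725443125/470596 * (v ^ 5 * v' ^ 2) + 798053975/134456 * (v ^ 6 * v' ^ 1) + 758024628/823543 * (v ^ 7 * v' ^ 0)) +
      (u ^ 2 * u' ^ 2) * (18310546875/6588344 * (v ^ 0 * v' ^ 7) + 7568359375/470596 * (v ^ 1 * v' ^ 6) + 1391015625/33614 * (v ^ 2 * v' ^ 5) + 7269140625/117649 * (v ^ 3 * v' ^ 4) + 54845703125/941192 * (v ^ 4 * v' ^ 3) + 16416765625/470596 * (v ^ 5 * v' ^ 2) + 5755015625/470596 * (v ^ 6 * v' ^ 1) + 1562133109/823543 * (v ^ 7 * v' ^ 0)) +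
      (u ^ 3 * u' ^ 1) * (18310546875/6588344 * (v ^ 0 * v' ^ 7) + 7080078125/470596 * (v ^ 1 * v' ^ 6) + 33573046875/941192 * (v ^ 2 * v' ^ 5) + 5666406250/117649 * (v ^ 3 * v' ^ 4) + 5443203125/134456 * (v ^ 4 * v' ^ 3) + 10181720625/470596 * (v ^ 5 * v' ^ 2) + 6556664325/941192 * (v ^ 6 * v' ^ 1) + 1711533099/1647086 * (v ^ 7 * v' ^ 0)) +
      (u ^ 4 * u' ^ 0) * (6103515625/6588344 * (v ^ 0 * v' ^ 7) + 2197265625/470596 * (v ^ 1 * v' ^ 6) + 4710546875/470596 * (v ^ 2 * v' ^ 5) + 10862890625/941192 * (v ^ 3 * v' ^ 4) + 7042421875/941192 * (v ^ 4 * v' ^ 3) + 608346875/235298 * (v ^ 5 * v' ^ 2) + 47020775/117649 * (v ^ 6 * v' ^ 1) + 92916023/6588344 * (v ^ 7 * v' ^ 0)) := by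
  positivity

theorem berA {c T : ℝ} (h1 : 1/2 ≤ c) (h2 : c ≤ 1) (h3 : 0 ≤ T) (h4 : T ≤ 14/25) :
    0 ≤ (1 - T / 2) * c * (2 + c * T ^ 2) * ((1 + c * T ^ 2) ^ 2 + 2 * (1 + c * T ^ 2) * (2 * (1 - c) * T) + T ^ 2) - (1 + 2 * c * T) * (1 + T / 2 + c * T ^ 2) - T ^ 2 / 100 := by
  have h := berA0 (sub_nonneg.2 h1) (sub_nonneg.2 h2) (sub_nonneg.2 h3) (sub_nonneg.2 h4)
  refine h.trans (le_of_eq ?_)
  ring

theorem berB0 {u u' v v' : ℝ} (h1 : 0 ≤ u) (h2 : 0 ≤ u') (h3 : 0 ≤ v) (h4 : 0 ≤ v') :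
    0 ≤ (u ^ 0 * u' ^ 4) * (1607600000/177147 * (v ^ 0 * v' ^ 7) + 12384320000/177147 * (v ^ 1 * v' ^ 6) + 13290752000/59049 * (v ^ 2 * v' ^ 5) + 69130240000/177147 * (v ^ 3 * v' ^ 4) + 68992000000/177147 * (v ^ 4 * v' ^ 3) + 12954828800/59049 * (v ^ 5 * v' ^ 2) + 10960240640/177147 * (v ^ 6 * v' ^ 1) + 1052770304/177147 * (v ^ 7 * v' ^ 0)) +
      (u ^ 1 * u' ^ 3) * (30400400000/177147 * (v ^ 0 * v' ^ 7) + 222097280000/177147 * (v ^ 1 * v' ^ 6) + 232145408000/59049 * (v ^ 2 * v' ^ 5) + 1211580160000/177147 * (v ^ 3 * v' ^ 4) + 1258846720000/177147 * (v ^ 4 * v' ^ 3) + 259364864000/59049 * (v ^ 5 * v' ^ 2) + 263539097600/177147 * (v ^ 6 * v' ^ 1) + 37448450048/177147 * (v ^ 7 * v' ^ 0)) +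
      (u ^ 2 * u' ^ 2) * (22328950000/59049 * (v ^ 0 * v' ^ 7) + 161739640000/59049 * (v ^ 1 * v' ^ 6) + 168655504000/19683 * (v ^ 2 * v' ^ 5) + 883708160000/59049 * (v ^ 3 * v' ^ 4) + 927913280000/59049 * (v ^ 4 * v' ^ 3) + 194591488000/19683 * (v ^ 5 * v' ^ 2) + 202922721280/59049 * (v ^ 6 * v' ^ 1) + 29907484672/59049 * (v ^ 7 * v' ^ 0)) +
      (u ^ 3 * u' ^ 1) * (47026025000/177147 * (v ^ 0 * v' ^ 7) + 335053280000/177147 * (v ^ 1 * v' ^ 6) + 346158008000/59049 * (v ^ 2 * v' ^ 5) + 1809809200000/177147 * (v ^ 3 * v' ^ 4) + 1908769600000/177147 * (v ^ 4 * v' ^ 3) + 404471398400/59049 * (v ^ 5 * v' ^ 2) + 428465192960/177147 * (v ^ 6 * v' ^ 1) + 64452165632/177147 * (v ^ 7 * v' ^ 0)) +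
      (u ^ 4 * u' ^ 0) * (17531059375/354294 * (v ^ 0 * v' ^ 7) + 58901851250/177147 * (v ^ 1 * v' ^ 6) + 58159202000/59049 * (v ^ 2 * v' ^ 5) + 295108240000/177147 * (v ^ 3 * v' ^ 4) + 306797440000/177147 * (v ^ 4 * v' ^ 3) + 64967014400/59049 * (v ^ 5 * v' ^ 2) + 69488967680/177147 * (v ^ 6 * v' ^ 1) + 10615783424/177147 * (v ^ 7 * v' ^ 0)) := by
  positivity

theorem berB {c T : ℝ} (h1 : 1/2 ≤ c) (h2 : c ≤ 7/8) (h3 : 1/2 ≤ T) (h4 : T ≤ 4/5) :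
    0 ≤ (1 - T / 2) * c * (2 + c * T ^ 2) * ((1 + c * T ^ 2) ^ 2 + 2 * (1 + c * T ^ 2) * (2 * (1 - c) * T) + T ^ 2) - (1 + 2 * c * T) * (1 + T / 2 + c * T ^ 2) - T ^ 2 / 100 := by
  have h := berB0 (sub_nonneg.2 h1) (sub_nonneg.2 h2) (sub_nonneg.2 h3) (sub_nonneg.2 h4)
  refine h.trans (le_of_eq ?_)
  ring

theorem berE0 {u u' v v' : ℝ} (h1 : 0 ≤ u) (h2 : 0 ≤ u') (h3 : 0 ≤ v) (h4 : 0 ≤ v') :
    0 ≤ (u ^ 0 * u' ^ 4) * (12568100 * (v ^ 0 * v' ^ 6) + 89305000 * (v ^ 1 * v' ^ 5) + 260645625 * (v ^ 2 * v' ^ 4) + 401506250 * (v ^ 3 * v' ^ 3) + 345234375 * (v ^ 4 * v' ^ 2) + 157421875 * (v ^ 5 * v' ^ 1) + 119140625/4 * (v ^ 6 * v' ^ 0)) +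
      (u ^ 1 * u' ^ 3) * (61056180 * (v ^ 0 * v' ^ 6) + 426017800 * (v ^ 1 * v' ^ 5) + 1226369750 * (v ^ 2 * v' ^ 4) + 1869188750 * (v ^ 3 * v' ^ 3) + 1593968750 * (v ^ 4 * v' ^ 2) + 722125000 * (v ^ 5 * v' ^ 1) + 135937500 * (v ^ 6 * v' ^ 0)) +
      (u ^ 2 * u' ^ 2) * (106131764 * (v ^ 0 * v' ^ 6) + 732192680 * (v ^ 1 * v' ^ 5) + 2089614925 * (v ^ 2 * v' ^ 4) + 3163833500 * (v ^ 3 * v' ^ 3) + 2684261875 * (v ^ 4 * v' ^ 2) + 1211356250 * (v ^ 5 * v' ^ 1) + 227375000 * (v ^ 6 * v' ^ 0)) +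
      (u ^ 3 * u' ^ 1) * (395968716/5 * (v ^ 0 * v' ^ 6) + 542384696 * (v ^ 1 * v' ^ 5) + 1539443060 * (v ^ 2 * v' ^ 4) + 2321284200 * (v ^ 3 * v' ^ 3) + 1963523000 * (v ^ 4 * v' ^ 2) + 884240000 * (v ^ 5 * v' ^ 1) + 165750000 * (v ^ 6 * v' ^ 0)) +
      (u ^ 4 * u' ^ 0) * (538665464/25 * (v ^ 0 * v' ^ 6) + 734400432/5 * (v ^ 1 * v' ^ 5) + 415478340 * (v ^ 2 * v' ^ 4) + 625015600 * (v ^ 3 * v' ^ 3) + 527890500 * (v ^ 4 * v' ^ 2) + 237537000 * (v ^ 5 * v' ^ 1) + 44517500 * (v ^ 6 * v' ^ 0)) := by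
  positivity

theorem berE {c T : ℝ} (h1 : 1/2 ≤ c) (h2 : c ≤ 3/5) (h3 : 4/5 ≤ T) (h4 : T ≤ 1) :
    0 ≤ 3 / 10 * (1 - 3 / 10) * c * (2 + c * T ^ 2) * ((1 + c * T ^ 2) ^ 2 + 2 * (1 + c * T ^ 2) * (2 * (1 - c) * T) + T ^ 2) - (c * T ^ 2 + 3 / 10) * (c * T ^ 2 + 1 + 3 / 10) - 1 / 100 := by
  have h := berE0 (sub_nonneg.2 h1) (sub_nonneg.2 h2) (sub_nonneg.2 h3) (sub_nonneg.2 h4)
  refine h.trans (le_of_eq ?_)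
  ring

end Pool.Agent.W5h41.MA
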