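import Pool.Agent.W5h41.MA14
import Pool.Agent.W5h41.MA15
import Pool.Agent.W5h41.MA16

set_option autoImplicit false

/-! # Contraction and rotation -/

namespace Pool.Agent.W5h41.MA

open Complex Metric Set Filter Topology MeasureTheory
open Pool.Agent.W677.Mar

/-- the exponent in the left half plane -/
noncomputable def qf (t : ℂ) : ℝ := t.re ^ 2 / 2 + t.im ^ 2

theorem norm_sq_re_im (t : ℂ) : ‖t‖ ^ 2 = t.re ^ 2 + t.im ^ 2 := by
  rw [← Complex.normSq_eq_norm_sq, Complex.normSq_apply]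
  ring

theorem pieceH {t : ℂ} (ht : t ≠ 0) (hre : t.re ≤ 0) (hd : t.re ^ 2 + 4 * t.im ^ 2 ≤ 1) :
    ∃ C : ℝ, MB C t (qf t) := by
  obtain ⟨T, hT⟩ : ∃ T, T = ‖t‖ := ⟨_, rfl⟩
  have hT0 : 0 < T := by rw [hT]; exact norm_pos_iff.2 ht
  have hT2 : T ^ 2 = t.re ^ 2 + t.im ^ 2 := by rw [hT]; exact norm_sq_re_im t
  obtain ⟨σ, hσ⟩ : ∃ σ, σ = qf t := ⟨_, rfl⟩
  have hσ' : σ = t.re ^ 2 / 2 + t.im ^ 2 := by rw [hσ]; rfl
  obtain ⟨c, hc⟩ : ∃ c, c = σ / T ^ 2 := ⟨_, rfl⟩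
  have hTp : 0 < T ^ 2 := by positivity
  have hcT : c * T ^ 2 = σ := by rw [hc]; field_simp
  have hc1 : 1 / 2 ≤ c := by
    rw [hc, le_div_iff₀ hTp]
    nlinarith [sq_nonneg t.im]
  have hc2 : c ≤ 1 := by
    rw [hc, div_le_iff₀ hTp]
    nlinarith [sq_nonneg t.re]
  have hc0 : 0 < c := by linarith
  have hσ0 : 0 < σ := by rw [← hcT]; positivity
  have hσ1 : σ ≤ 1 := by nlinarith [sq_nonneg t.re, sq_nonneg t.im]
  have hT1 : T ≤ 1 := by nlinarith [sq_nonneg t.re, sq_nonneg t.im]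
  have h6 : 6 * (c * T ^ 2) ≤ 1 + 2 * T ^ 2 := by
    rw [hcT]
    nlinarith
  -- the real part
  have hp : 2 * (1 - c) * T ≤ -t.re := by
    have h1 : 2 * (1 - c) * T * T = t.re ^ 2 := by
      have : 2 * (1 - c) * T * T = 2 * T ^ 2 - 2 * (c * T ^ 2) := by ring
      rw [this, hcT]
      linarith
    have h2 : -t.re ≤ T := by
      rw [hT]
      have := Complex.abs_re_le_norm t
      have h3 := neg_abs_le t.re
      linarith [neg_le_abs t.re]
    by_contra hcon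
    push Not at hcon
    have h3 : -t.re * T < 2 * (1 - c) * T * T := mul_lt_mul_of_pos_right hcon hT0
    rw [h1] at h3
    nlinarith
  have hQ : (1 + c * T ^ 2) ^ 2 + 2 * (1 + c * T ^ 2) * (2 * (1 - c) * T) + T ^ 2 ≤
      (1 + σ) ^ 2 - 2 * (1 + σ) * t.re + T ^ 2 := by
    rw [hcT]
    nlinarith
  -- conclusion from a choice of the exponent
  have hmain : ∀ θ δ : ℝ, 0 < θ → θ < 1 → 0 < δ →
      T ^ 2 * ((σ + θ) * (σ + 1 + θ) + δ * ((σ + 1) * (σ + 2))) ≤
        θ * (1 - θ) * σ * (σ + 2) * ((1 + c * T ^ 2) ^ 2 + 2 * (1 + c * T ^ 2) *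
          (2 * (1 - c) * T) + T ^ 2) → ∃ C : ℝ, MB C t (qf t) := by
    intro θ δ hθ0 hθ1 hδ h
    obtain ⟨C, hC⟩ := MB_method hθ0 hθ1 hδ
    refine ⟨C, ?_⟩
    rw [← hσ]
    apply hC t σ ht (by rw [← hT]; exact hT1) hσ0 hσ1
    rw [← hT]
    refine h.trans ?_
    apply mul_le_mul_of_nonneg_left hQ
    have : 0 ≤ 1 - θ := by linarith
    positivity
  have h12 : (σ + 1) * (σ + 2) ≤ 6 := by nlinarith
  have h120 : 0 ≤ (σ + 1) * (σ + 2) := by positivity
  rcases le_or_gt T (4 / 5) with h45 | h45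
  · -- θ = T / 2
    have hD : 0 ≤ (1 - T / 2) * c * (2 + c * T ^ 2) * ((1 + c * T ^ 2) ^ 2 +
        2 * (1 + c * T ^ 2) * (2 * (1 - c) * T) + T ^ 2) -
        (1 + 2 * c * T) * (1 + T / 2 + c * T ^ 2) - T ^ 2 / 100 := by
      rcases le_or_gt T (14 / 25) with h1 | h1
      · exact berA hc1 hc2 hT0.le h1
      · apply berB hc1 _ (by linarith) h45
        by_contra hcon
        push Not at hcon
        have h2 : (14 / 25) ^ 2 ≤ T ^ 2 := pow_le_pow_left₀ (by norm_num) h1.le 2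
        nlinarith
    apply hmain (T / 2) (T ^ 3 / 1200) (by positivity) (by linarith) (by positivity)
    obtain ⟨Q, hQd⟩ : ∃ Q, Q = (1 + c * T ^ 2) ^ 2 + 2 * (1 + c * T ^ 2) *
          (2 * (1 - c) * T) + T ^ 2 := ⟨_, rfl⟩
    rw [← hQd] at hD ⊢
    have e1 : T / 2 * (1 - T / 2) * σ * (σ + 2) * Q - T ^ 2 * ((σ + T / 2) * (σ + 1 + T / 2)) =
        T ^ 2 * (T / 2) * ((1 - T / 2) * c * (2 + c * T ^ 2) * Q -
        (1 + 2 * c * T) * (1 + T / 2 + c * T ^ 2)) := by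
      rw [← hcT]
      ring
    have e2 : T ^ 2 * (T / 2) * (T ^ 2 / 100) ≤ T ^ 2 * (T / 2) *
        ((1 - T / 2) * c * (2 + c * T ^ 2) * Q - (1 + 2 * c * T) * (1 + T / 2 + c * T ^ 2)) :=
      mul_le_mul_of_nonneg_left (by linarith) (by positivity)
    have e3 : T ^ 2 * (T ^ 3 / 1200 * ((σ + 1) * (σ + 2))) ≤ T ^ 2 * (T ^ 3 / 1200 * 6) := by
      apply mul_le_mul_of_nonneg_left _ (by positivity)
      exact mul_le_mul_of_nonneg_left h12 (by positivity)
    have e4 : T ^ 2 * (T ^ 3 / 1200 * 6) = T ^ 2 * (T / 2) * (T ^ 2 / 100) := by ring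
    have e5 : T ^ 2 * ((σ + T / 2) * (σ + 1 + T / 2) + T ^ 3 / 1200 * ((σ + 1) * (σ + 2))) =
      T ^ 2 * ((σ + T / 2) * (σ + 1 + T / 2)) + T ^ 2 * (T ^ 3 / 1200 * ((σ + 1) * (σ + 2))) := by
      ring
    rw [e5]
    linarith
  · -- θ = 3 / 10
    have hE : 0 ≤ 3 / 10 * (1 - 3 / 10) * c * (2 + c * T ^ 2) * ((1 + c * T ^ 2) ^ 2 +
        2 * (1 + c * T ^ 2) * (2 * (1 - c) * T) + T ^ 2) -
        (c * T ^ 2 + 3 / 10) * (c * T ^ 2 + 1 + 3 / 10) - 1 / 100 := by
      apply berE hc1 _ h45.le hT1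
      by_contra hcon
      push Not at hcon
      have h2 : (4 / 5) ^ 2 ≤ T ^ 2 := pow_le_pow_left₀ (by norm_num) h45.le 2
      nlinarith
    apply hmain (3 / 10) (1 / 600) (by norm_num) (by norm_num) (by norm_num)
    obtain ⟨Q, hQd⟩ : ∃ Q, Q = (1 + c * T ^ 2) ^ 2 + 2 * (1 + c * T ^ 2) *
          (2 * (1 - c) * T) + T ^ 2 := ⟨_, rfl⟩
    rw [← hQd] at hE ⊢
    have e1 : 3 / 10 * (1 - 3 / 10) * σ * (σ + 2) * Q -
        T ^ 2 * ((σ + 3 / 10) * (σ + 1 + 3 / 10)) = T ^ 2 * (3 / 10 * (1 - 3 / 10) * c *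
        (2 + c * T ^ 2) * Q - (c * T ^ 2 + 3 / 10) * (c * T ^ 2 + 1 + 3 / 10)) := by
      rw [← hcT]
      ring
    have e2 : T ^ 2 * (1 / 100) ≤ T ^ 2 * (3 / 10 * (1 - 3 / 10) * c *
        (2 + c * T ^ 2) * Q - (c * T ^ 2 + 3 / 10) * (c * T ^ 2 + 1 + 3 / 10)) :=
      mul_le_mul_of_nonneg_left (by linarith) (by positivity)
    have e3 : T ^ 2 * (1 / 600 * ((σ + 1) * (σ + 2))) ≤ T ^ 2 * (1 / 600 * 6) := by
      apply mul_le_mul_of_nonneg_left _ (by positivity)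
      exact mul_le_mul_of_nonneg_left h12 (by positivity)
    have e5 : T ^ 2 * ((σ + 3 / 10) * (σ + 1 + 3 / 10) + 1 / 600 * ((σ + 1) * (σ + 2))) =
      T ^ 2 * ((σ + 3 / 10) * (σ + 1 + 3 / 10)) + T ^ 2 * (1 / 600 * ((σ + 1) * (σ + 2))) := by
      ring
    rw [e5]
    linarith

theorem MB_monoB {C : ℝ} {t : ℂ} {B B' : ℝ} (h : MB C t B) (hC : 0 ≤ C) (hB : B ≤ B') :
    MB C t B' := by
  intro Y H S r hr
  refine (h Y H S r hr).trans (mul_le_mul_of_nonneg_left ?_ hC)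
  apply Real.exp_le_exp.2
  exact mul_le_mul_of_nonneg_right hB (lam_pos hr).le

/-- small `t` in the left half plane -/
theorem small_half {ε : ℝ} (hε : 0 < ε) : ∃ T1 : ℝ, 0 < T1 ∧ ∃ C : ℝ, 0 ≤ C ∧ ∀ t : ℂ, t.re ≤ 0 →
    ‖t‖ ≤ T1 → MB C t ((1 + ε) * qf t) := by
  obtain ⟨θ, hθ⟩ : ∃ θ, θ = min ε 1 / 8 := ⟨_, rfl⟩
  have he0 : 0 < min ε 1 := lt_min hε one_pos
  have hθ0 : 0 < θ := by rw [hθ]; positivity
  have hθ1 : θ ≤ 1 / 8 := by
    rw [hθ]
    have := min_le_right ε 1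
    linarith
  have hθε : 8 * θ ≤ ε := by
    rw [hθ]
    have := min_le_left ε 1
    linarith
  obtain ⟨C, hC⟩ := MB_method (θ := θ) (δ := θ ^ 2 / 8) hθ0 (by linarith) (by positivity)
  refine ⟨θ / 4, by positivity, max (max C 0) (2 * Real.pi), le_max_of_le_left (le_max_right _ _),
    fun t hre ht => ?_⟩
  by_cases ht0 : t = 0
  · rw [ht0]
    have e : (1 + ε) * qf 0 = 0 := by unfold qf; simp
    rw [e]
    exact MB_mono MB_zero (le_max_right _ _)
  · have hT0 : 0 < ‖t‖ := norm_pos_iff.2 ht0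
    obtain ⟨T, hT⟩ : ∃ T, T = ‖t‖ := ⟨_, rfl⟩
    have hT2 : T ^ 2 = t.re ^ 2 + t.im ^ 2 := by rw [hT]; exact norm_sq_re_im t
    have hq1 : T ^ 2 / 2 ≤ qf t := by
      unfold qf
      nlinarith [sq_nonneg t.im]
    have hq2 : qf t ≤ T ^ 2 := by
      unfold qf
      nlinarith [sq_nonneg t.re]
    rw [← hT] at ht hT0
    obtain ⟨σ, hσ⟩ : ∃ σ, σ = (1 + 8 * θ) * qf t := ⟨_, rfl⟩
    have hq0 : 0 < qf t := lt_of_lt_of_le (by positivity) hq1
    have hσ0 : 0 < σ := by rw [hσ]; positivity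
    have hTT : T ^ 2 ≤ (θ / 4) ^ 2 := pow_le_pow_left₀ hT0.le ht 2
    have hσ2 : σ ≤ θ ^ 2 / 8 := by
      rw [hσ]
      have : (1 + 8 * θ) * qf t ≤ 2 * T ^ 2 := by nlinarith
      nlinarith
    have hσ3 : σ ≤ θ / 64 := by nlinarith
    have hσ1 : σ ≤ 1 := by linarith
    have hσT : (1 + 8 * θ) * (T ^ 2 / 2) ≤ σ := by
      rw [hσ]
      exact mul_le_mul_of_nonneg_left hq1 (by positivity)
    have h1 : MB C t σ := by
      apply hC t σ ht0 (by rw [← hT]; linarith) hσ0 hσ1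
      rw [← hT]
      have h2 : 1 ≤ (1 + σ) ^ 2 - 2 * (1 + σ) * t.re + T ^ 2 := by nlinarith
      have h3 : (σ + θ) * (σ + 1 + θ) + θ ^ 2 / 8 * ((σ + 1) * (σ + 2)) ≤
          θ * (1 - θ) * (1 + 8 * θ) := by
        have a1 : σ + θ ≤ θ * (1 + θ / 8) := by linarith
        have a2 : σ + 1 + θ ≤ 1 + θ * (65 / 64) := by linarith
        have a3 : (σ + θ) * (σ + 1 + θ) ≤ θ * (1 + θ / 8) * (1 + θ * (65 / 64)) :=
          mul_le_mul a1 a2 (by positivity) (by positivity)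
        have a4 : (σ + 1) * (σ + 2) ≤ 6 := by nlinarith
        have a5 : θ ^ 2 / 8 * ((σ + 1) * (σ + 2)) ≤ θ ^ 2 / 8 * 6 :=
          mul_le_mul_of_nonneg_left a4 (by positivity)
        have a6 : θ * (1 + θ / 8) * (1 + θ * (65 / 64)) + θ ^ 2 / 8 * 6 ≤
            θ * (1 - θ) * (1 + 8 * θ) := by
          have b1 : θ ^ 3 ≤ θ ^ 2 * (1 / 8) := by
            have : θ ^ 3 = θ ^ 2 * θ := by ring
            rw [this]
            exact mul_le_mul_of_nonneg_left hθ1 (by positivity)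
          have b2 : 0 ≤ θ ^ 2 := by positivity
          nlinarith
        linarith
      have h5 : 0 ≤ 1 - θ := by linarith
      calc T ^ 2 * ((σ + θ) * (σ + 1 + θ) + θ ^ 2 / 8 * ((σ + 1) * (σ + 2)))
          ≤ T ^ 2 * (θ * (1 - θ) * (1 + 8 * θ)) := mul_le_mul_of_nonneg_left h3 (by positivity)
        _ = θ * (1 - θ) * ((1 + 8 * θ) * (T ^ 2 / 2)) * 2 * 1 := by ring
        _ ≤ θ * (1 - θ) * σ * (σ + 2) * ((1 + σ) ^ 2 - 2 * (1 + σ) * t.re + T ^ 2) := by
            apply mul_le_mul _ h2 (by norm_num) (by positivity)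
            apply mul_le_mul _ (by linarith) (by norm_num) (by positivity)
            exact mul_le_mul_of_nonneg_left hσT (by positivity)
    have h2 : MB (max (max C 0) (2 * Real.pi)) t σ :=
      MB_mono h1 (le_max_of_le_left (le_max_left _ _))
    apply MB_monoB h2 (le_max_of_le_left (le_max_right _ _))
    rw [hσ]
    exact mul_le_mul_of_nonneg_right (by linarith) hq0.le

/-- contraction and rotation -/
noncomputable def GG2 (v : ℂ) : ℂ := ((Real.sqrt 2 * min v.re 0 : ℝ) : ℂ) + ((v.im : ℝ) : ℂ) * I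

theorem GG2_re (v : ℂ) : (GG2 v).re = Real.sqrt 2 * min v.re 0 := by
  unfold GG2
  simp

theorem GG2_im (v : ℂ) : (GG2 v).im = v.im := by
  unfold GG2
  simp

theorem GG2_norm (v : ℂ) : ‖GG2 v‖ ^ 2 = 2 * (min v.re 0) ^ 2 + v.im ^ 2 := by
  rw [norm_sq_re_im, GG2_re, GG2_im, mul_pow, Real.sq_sqrt (by norm_num)]

theorem GG2_cont : Continuous GG2 := by
  unfold GG2
  apply Continuous.add
  · apply Complex.continuous_ofReal.comp
    exact continuous_const.mul (Complex.continuous_re.min continuous_const)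
  · exact (Complex.continuous_ofReal.comp Complex.continuous_im).mul continuous_const

theorem GG2_hom (c : ℝ) (hc : 0 < c) (v : ℂ) : GG2 (c * v) = c * GG2 v := by
  apply Complex.ext
  · rw [GG2_re, Complex.re_ofReal_mul, Complex.re_ofReal_mul, GG2_re]
    have : min (c * v.re) 0 = c * min v.re 0 := by
      rw [mul_min_of_nonneg _ _ hc.le, mul_zero]
    rw [this]
    ring
  · rw [GG2_im, Complex.im_ofReal_mul, Complex.im_ofReal_mul, GG2_im]

/-- **Contraction and rotation.** -/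
theorem half {a : ℝ} (ha0 : 0 < a) (ha : a < 1 / 4) :
    ∃ C : ℝ, ∀ Y H : ℂ → ℂ, Sg Y H → ∀ r ∈ Ioo (0 : ℝ) 1,
      ∫ x in (0:ℝ)..(2 * Real.pi), Real.exp (a * ‖GG2 (H (circleMap 0 r x))‖ ^ 2 / lam (r ^ 2)) ≤
        C := by
  obtain ⟨κ, hκ⟩ : ∃ κ, κ = (1 + 1 / (4 * a)) / 2 := ⟨_, rfl⟩
  have h4a : 1 < 1 / (4 * a) := by
    rw [one_lt_div (by positivity)]
    linarith
  have hκ1 : 1 < κ := by rw [hκ]; linarith
  have hκa : 4 * a * κ < 1 := by
    have : 4 * a * κ = (4 * a + 1) / 2 := by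
      rw [hκ]
      field_simp
    rw [this]
    linarith
  obtain ⟨T1, hT1, C, hC0, hC⟩ := small_half (ε := κ - 1) (by linarith)
  have e1 : 1 + (κ - 1) = κ := by ring
  rw [e1] at hC
  have hκ0 : 0 < κ := by linarith
  apply criterionG GG2_cont GG2_hom (κ := κ) (u0 := κ * (T1 / 2)) (C0 := C + C) ha0 hκ0 (by positivity)
    hκa
  · intro τ hτ Y H S r hr
    have hτ' : ‖τ‖ ≤ T1 / 2 := by
      have : κ * (T1 / 2) / κ = T1 / 2 := by field_simp
      rwa [this] at hτ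
    have hn := norm_sq_re_im τ
    have hs2 : Real.sqrt 2 ^ 2 = 2 := Real.sq_sqrt (by norm_num)
    have hs0 : 0 ≤ Real.sqrt 2 := Real.sqrt_nonneg 2
    obtain ⟨t, ht⟩ : ∃ t : ℂ, t = ⟨min (Real.sqrt 2 * τ.re) 0, τ.im⟩ := ⟨_, rfl⟩
    have htr : t.re = min (Real.sqrt 2 * τ.re) 0 := by rw [ht]
    have hti : t.im = τ.im := by rw [ht]
    obtain ⟨t', ht'⟩ : ∃ t' : ℂ, t' = ⟨0, τ.im⟩ := ⟨_, rfl⟩
    have htr' : t'.re = 0 := by rw [ht']
    have hti' : t'.im = τ.im := by rw [ht']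
    have hm2 : t.re ^ 2 ≤ 2 * τ.re ^ 2 := by
      rw [htr]
      rcases le_total (Real.sqrt 2 * τ.re) 0 with h | h
      · rw [min_eq_left h, mul_pow, hs2]
      · rw [min_eq_right h]
        have := sq_nonneg τ.re
        nlinarith
    have hq : qf t ≤ ‖τ‖ ^ 2 := by
      unfold qf
      rw [hn, hti]
      linarith
    have hq' : qf t' ≤ ‖τ‖ ^ 2 := by
      unfold qf
      rw [hn, hti', htr']
      nlinarith [sq_nonneg τ.re]
    have hnt : ‖t‖ ≤ T1 := by
      have h1 : ‖t‖ ^ 2 ≤ T1 ^ 2 := by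
        rw [norm_sq_re_im t, hti]
        have h2 : ‖τ‖ ^ 2 ≤ (T1 / 2) ^ 2 := pow_le_pow_left₀ (norm_nonneg _) hτ' 2
        nlinarith [sq_nonneg τ.im, sq_nonneg τ.re]
      exact le_of_sq_le_sq h1 hT1.le
    have hnt' : ‖t'‖ ≤ T1 := by
      have h1 : ‖t'‖ ^ 2 ≤ T1 ^ 2 := by
        rw [norm_sq_re_im t', hti', htr']
        have h2 : ‖τ‖ ^ 2 ≤ (T1 / 2) ^ 2 := pow_le_pow_left₀ (norm_nonneg _) hτ' 2
        nlinarith [sq_nonneg τ.im, sq_nonneg τ.re]
      exact le_of_sq_le_sq h1 hT1.le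
    have hL := lam_pos hr
    have h1 := MB_monoB (hC t (by rw [htr]; exact min_le_right _ _) hnt) hC0
      (mul_le_mul_of_nonneg_left hq hκ0.le) Y H S r hr
    have h2 := MB_monoB (hC t' (by rw [htr']) hnt') hC0
      (mul_le_mul_of_nonneg_left hq' hκ0.le) Y H S r hr
    have hcb : ∀ x : ℝ, circleMap 0 r x ∈ ball (0 : ℂ) 1 := fun x => by
      rw [mem_ball_zero_iff]
      simp [abs_of_pos hr.1, hr.2]
    have hgc : Continuous fun x => H (circleMap 0 r x) :=
      S.dH.continuousOn.comp_continuous (continuous_circleMap 0 r) hcb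
    have hi : ∀ s : ℂ, IntervalIntegrable (fun x => Real.exp ((starRingEnd ℂ) s *
        H (circleMap 0 r x)).re) volume 0 (2 * Real.pi) := by
      intro s
      apply Continuous.intervalIntegrable
      exact Real.continuous_exp.comp (Complex.continuous_re.comp (continuous_const.mul hgc))
    have h3 : ∫ x in (0:ℝ)..(2 * Real.pi), Real.exp ((starRingEnd ℂ) τ *
        GG2 (H (circleMap 0 r x))).re ≤ ∫ x in (0:ℝ)..(2 * Real.pi),
        (Real.exp ((starRingEnd ℂ) t * H (circleMap 0 r x)).re +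
          Real.exp ((starRingEnd ℂ) t' * H (circleMap 0 r x)).re) := by
      apply intervalIntegral.integral_mono_on (by positivity)
      · apply Continuous.intervalIntegrable
        exact Real.continuous_exp.comp (Complex.continuous_re.comp
          (continuous_const.mul (GG2_cont.comp hgc)))
      · exact (hi t).add (hi t')
      · intro x _
        set v := H (circleMap 0 r x)
        rw [re_conj, re_conj, re_conj, GG2_re, GG2_im, htr, hti, htr', hti', zero_mul, zero_add]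
        have p1 := Real.exp_pos (min (Real.sqrt 2 * τ.re) 0 * v.re + τ.im * v.im)
        have p2 := Real.exp_pos (τ.im * v.im)
        rcases le_total 0 v.re with h | h
        · rw [min_eq_right h, mul_zero, mul_zero, zero_add]
          linarith
        · rw [min_eq_left h]
          rcases le_total (Real.sqrt 2 * τ.re) 0 with h' | h'
          · rw [min_eq_left h']
            have e : τ.re * (Real.sqrt 2 * v.re) + τ.im * v.im =
              Real.sqrt 2 * τ.re * v.re + τ.im * v.im := by ring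
            rw [e]
            linarith
          · have e : τ.re * (Real.sqrt 2 * v.re) + τ.im * v.im ≤ τ.im * v.im := by
              have : Real.sqrt 2 * τ.re * v.re ≤ 0 := mul_nonpos_of_nonneg_of_nonpos h' h
              nlinarith
            have := Real.exp_le_exp.2 e
            linarith
    rw [intervalIntegral.integral_add (hi t) (hi t')] at h3
    rw [add_mul]
    linarith
  · intro u hu1 hu2
    obtain ⟨t, ht⟩ : ∃ t : ℂ, t = ⟨min u.re 0, u.im / 2⟩ := ⟨_, rfl⟩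
    have htr : t.re = min u.re 0 := by rw [ht]
    have hti : t.im = u.im / 2 := by rw [ht]
    have hm : min u.re 0 * u.re = (min u.re 0) ^ 2 := by
      rcases le_total u.re 0 with h | h
      · rw [min_eq_left h]; ring
      · rw [min_eq_right h]; ring
    have hm2 : (min u.re 0) ^ 2 ≤ u.re ^ 2 := by
      rcases le_total u.re 0 with h | h
      · rw [min_eq_left h]
      · rw [min_eq_right h]
        have := sq_nonneg u.re
        nlinarith
    have hGp : 0 < ‖GG2 u‖ := lt_of_lt_of_le (by positivity) hu1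
    have hG2 := GG2_norm u
    have hun := norm_sq_re_im u
    have hu3 : ‖u‖ ^ 2 ≤ 1 := pow_le_one₀ (norm_nonneg u) hu2
    have ht0 : t ≠ 0 := by
      intro h
      have h1 : t.re = 0 := by rw [h]; rfl
      have h2 : t.im = 0 := by rw [h]; rfl
      rw [htr] at h1
      rw [hti] at h2
      have h3 : u.im = 0 := by linarith
      rw [h1, h3] at hG2
      have : 0 < ‖GG2 u‖ ^ 2 := by positivity
      rw [hG2] at this
      norm_num at this
    obtain ⟨C', hC'⟩ := pieceH ht0 (by rw [htr]; exact min_le_right _ _) (by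
      rw [htr, hti]
      nlinarith)
    refine ⟨C', qf t, t, hC', ?_⟩
    rw [re_conj]
    unfold qf
    rw [htr, hti, hm, hG2]
    have h5 : 0 < 2 * (min u.re 0) ^ 2 + u.im ^ 2 := by
      rw [← hG2]
      positivity
    nlinarith

end Pool.Agent.W5h41.MA
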