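import Pool.Agent.W5h41.MA2

set_option autoImplicit false

/-! # The quadratic form of one degree, complex coefficients; the sum over all degrees -/

namespace Pool.Agent.W5h41.MA

open Polynomial MeasureTheory Set Filter Topology

/-- the binomial coefficient `(θ - k choose j)` -/
noncomputable def bn (θ : ℝ) (k j : ℕ) : ℝ := ∏ i ∈ Finset.range j, ((θ - k - i) / (i + 1))

theorem bn_zero (θ : ℝ) (k : ℕ) : bn θ k 0 = 1 := by simp [bn]

theorem bn_succ (θ : ℝ) (k j : ℕ) : bn θ k (j + 1) * (j + 1) = bn θ k j * (θ - k - j) := by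
  unfold bn
  rw [Finset.prod_range_succ]
  have : (j : ℝ) + 1 ≠ 0 := by positivity
  field_simp

/-- the polynomials -/
noncomputable def PR (θ : ℝ) (e : ℕ → ℝ) (n : ℕ) : ℝ[X] :=
  ∑ k ∈ Finset.range (n + 1), C (bn θ k (n - k) * e k) * (X ^ (n - k) * (1 - X) ^ k)

theorem DD_add (n : ℝ) (P Q : ℝ[X]) : DD n (P + Q) = DD n P + DD n Q := by
  unfold DD
  rw [derivative_add]
  ring

theorem DD_sum (n : ℝ) {ι : Type*} (s : Finset ι) (f : ι → ℝ[X]) :
    DD n (∑ i ∈ s, f i) = ∑ i ∈ s, DD n (f i) := by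
  classical
  induction s using Finset.induction_on with
  | empty => simp [DD]
  | insert i s hi ih => rw [Finset.sum_insert hi, Finset.sum_insert hi, DD_add, ih]

theorem DD_C_mul (n c : ℝ) (P : ℝ[X]) : DD n (C c * P) = C c * DD n P := by
  unfold DD
  simp only [derivative_mul, derivative_C]
  ring

theorem DD_mono (k j : ℕ) :
    DD ((k : ℝ) + j + 1) (X ^ (j + 1) * (1 - X) ^ k) = C ((j : ℝ) + 1) * (X ^ j * (1 - X) ^ k) := by
  rcases k with _ | k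
  · unfold DD
    simp only [derivative_mul, derivative_X_pow, pow_zero, derivative_one, Nat.cast_add, Nat.cast_one,
      Nat.add_sub_cancel, C_add, C_1, Nat.cast_zero, C_0]
    ring
  · unfold DD
    simp only [derivative_mul, derivative_pow, derivative_sub, derivative_one,
      derivative_X, Nat.cast_add, Nat.cast_one, Nat.add_sub_cancel, C_add, C_1]
    ring

theorem DD_top (k : ℕ) : DD (k : ℝ) ((1 - X) ^ k) = 0 := by
  rcases k with _ | k
  · simp [DD]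
  · unfold DD
    simp only [derivative_pow, derivative_sub, derivative_one,
      derivative_X, Nat.cast_add, Nat.cast_one, Nat.add_sub_cancel, C_add, C_1]
    ring

theorem PR_ladder (θ : ℝ) (e : ℕ → ℝ) (n : ℕ) :
    DD ((n : ℝ) + 1) (PR θ e (n + 1)) = C (-(n - θ)) * PR θ e n := by
  unfold PR
  rw [Finset.sum_range_succ, DD_add, DD_sum, Finset.mul_sum]
  have e1 : DD ((n : ℝ) + 1) (C (bn θ (n + 1) (n + 1 - (n + 1)) * e (n + 1)) *
      (X ^ (n + 1 - (n + 1)) * (1 - X) ^ (n + 1))) = 0 := by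
    rw [DD_C_mul, Nat.sub_self, pow_zero, one_mul]
    have := DD_top (n + 1)
    push_cast at this
    rw [this, mul_zero]
  rw [e1, add_zero]
  apply Finset.sum_congr rfl
  intro k hk
  have hk' : k ≤ n := Nat.lt_succ_iff.1 (Finset.mem_range.1 hk)
  obtain ⟨j, rfl⟩ : ∃ j, n = k + j := ⟨n - k, by omega⟩
  have e2 : k + j + 1 - k = j + 1 := by omega
  have e3 : k + j - k = j := by omega
  rw [e2, e3, DD_C_mul]
  push_cast
  rw [DD_mono, ← mul_assoc, ← C_mul]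
  conv_rhs => rw [← mul_assoc, ← C_mul]
  congr 2
  have := bn_succ θ k j
  linear_combination (e k) * this

theorem PR_zero (θ : ℝ) (e : ℕ → ℝ) : PR θ e 0 = C (e 0) := by
  unfold PR
  simp [bn]

theorem PR_one (θ : ℝ) (e : ℕ → ℝ) : PR θ e 1 = C (θ * e 0) * X + C (e 1) * (1 - X) := by
  unfold PR
  rw [Finset.sum_range_succ, Finset.sum_range_one]
  simp [bn]

/-- the polynomials with complex coefficients -/
noncomputable def PC (θ : ℝ) (e : ℕ → ℂ) (n : ℕ) (x : ℝ) : ℂ :=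
  ∑ k ∈ Finset.range (n + 1), ((bn θ k (n - k) * (x ^ (n - k) * (1 - x) ^ k) : ℝ) : ℂ) * e k

theorem PC_re (θ : ℝ) (e : ℕ → ℂ) (n : ℕ) (x : ℝ) :
    (PC θ e n x).re = (PR θ (fun k => (e k).re) n).eval x := by
  unfold PC PR
  rw [Complex.re_sum, eval_finsetSum]
  apply Finset.sum_congr rfl
  intro k _
  rw [Complex.re_ofReal_mul]
  simp only [eval_mul, eval_C, eval_pow, eval_X, eval_sub, eval_one]
  ring

theorem PC_im (θ : ℝ) (e : ℕ → ℂ) (n : ℕ) (x : ℝ) :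
    (PC θ e n x).im = (PR θ (fun k => (e k).im) n).eval x := by
  unfold PC PR
  rw [Complex.im_sum, eval_finsetSum]
  apply Finset.sum_congr rfl
  intro k _
  rw [Complex.im_ofReal_mul]
  simp only [eval_mul, eval_C, eval_pow, eval_X, eval_sub, eval_one]
  ring

/-- the form of degree `m` at the point `x` -/
noncomputable def Fm (θ : ℝ) (N m : ℕ) (e : ℕ → ℂ) (x : ℝ) : ℝ :=
  ∑ n ∈ Finset.range (N + 1), ((n : ℝ) - θ) * (x ^ (m - n) * ‖PC θ e n x‖ ^ 2)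

theorem Fm_eq (θ : ℝ) (N m : ℕ) (e : ℕ → ℂ) (x : ℝ) :
    Fm θ N m e x = (∑ n ∈ Finset.range (N + 1), C ((n : ℝ) - θ) * (X ^ (m - n) *
        (PR θ (fun k => (e k).re) n * PR θ (fun k => (e k).re) n)) +
      ∑ n ∈ Finset.range (N + 1), C ((n : ℝ) - θ) * (X ^ (m - n) *
        (PR θ (fun k => (e k).im) n * PR θ (fun k => (e k).im) n))).eval x := by
  unfold Fm
  rw [eval_add, eval_finsetSum, eval_finsetSum, ← Finset.sum_add_distrib]
  apply Finset.sum_congr rfl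
  intro n _
  simp only [eval_mul, eval_C, eval_pow, eval_X]
  rw [← Complex.normSq_eq_norm_sq, Complex.normSq_apply, PC_re, PC_im]
  ring

theorem Lam_sum {σ : ℝ} (hσ : 0 < σ) {ι : Type*} (s : Finset ι) (f : ι → ℝ[X]) :
    Lam σ (∑ i ∈ s, f i) = ∑ i ∈ s, Lam σ (f i) := by
  classical
  induction s using Finset.induction_on with
  | empty => simp [Lam]
  | insert i s hi ih => rw [Finset.sum_insert hi, Finset.sum_insert hi, Lam_add hσ, ih]

theorem Fm_int {σ : ℝ} (hσ : 0 < σ) (θ : ℝ) (N m : ℕ) (e : ℕ → ℂ) :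
    IntervalIntegrable (fun x : ℝ => Fm θ N m e x * (1 - x) ^ (σ - 1)) volume 0 1 := by
  simp only [Fm_eq]
  exact Lam_int hσ _

/-- **Lower bound of the form of degree `m`.** -/
theorem Fm_lower {σ θ : ℝ} (hσ : 0 < σ) (hθ0 : 0 < θ) (hθ1 : θ < 1) {m N : ℕ} (hN : 1 ≤ N)
    (hm : N ≤ m) (e : ℕ → ℂ) :
    SF σ θ N * Lam σ (X ^ m) * ((1 + σ) * σ / (m * (m + 1 + σ)) *
        ‖e 1 + ((θ * m / (1 + σ) : ℝ) : ℂ) * e 0‖ ^ 2 -
      θ / (1 - θ) * (kap σ θ + max (GG σ θ N) 0) * ‖e 0‖ ^ 2) ≤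
      ∫ x in (0:ℝ)..1, Fm θ N m e x * (1 - x) ^ (σ - 1) := by
  have h1 := lower' hσ hθ0 hθ1 hN hm (P := PR θ (fun k => (e k).re)) (PR_zero _ _) (PR_one _ _)
    (fun n _ => PR_ladder _ _ n)
  have h2 := lower' hσ hθ0 hθ1 hN hm (P := PR θ (fun k => (e k).im)) (PR_zero _ _) (PR_one _ _)
    (fun n _ => PR_ladder _ _ n)
  have h3 : ∫ x in (0:ℝ)..1, Fm θ N m e x * (1 - x) ^ (σ - 1) =
      ∑ n ∈ Finset.range (N + 1), ((n : ℝ) - θ) * ip σ (m - n) (PR θ (fun k => (e k).re) n)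
        (PR θ (fun k => (e k).re) n) +
      ∑ n ∈ Finset.range (N + 1), ((n : ℝ) - θ) * ip σ (m - n) (PR θ (fun k => (e k).im) n)
        (PR θ (fun k => (e k).im) n) := by
    simp only [Fm_eq]
    change Lam σ _ = _
    rw [Lam_add hσ, Lam_sum hσ, Lam_sum hσ]
    simp only [Lam_C_mul]
    rfl
  rw [h3]
  refine le_trans (le_of_eq ?_) (add_le_add h1 h2)
  rw [← Complex.normSq_eq_norm_sq, ← Complex.normSq_eq_norm_sq, Complex.normSq_apply,
    Complex.normSq_apply, Complex.add_re, Complex.add_im, Complex.re_ofReal_mul,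
    Complex.im_ofReal_mul]
  ring

/-- **The sum over all degrees.** -/
theorem sum_bound {σ θ ε K s : ℝ} (hσ : 0 < σ) (hθ0 : 0 < θ) (hθ1 : θ < 1) (hε : 0 < ε)
    (hs0 : 0 ≤ s) (hs1 : s < 1) {N m₀ : ℕ} (hN : 1 ≤ N) (hNm : N ≤ m₀)
    (hG : GG σ θ N ≤ ε) (hm₀ : 2 * (kap σ θ + 4 * ε) ≤ 2 * ε * (m₀ + 2)) (hσ1 : σ ≤ 1)
    {τ : ℂ} (hτ : kap σ θ + 4 * ε ≤ θ * (1 - θ) * (1 + σ) * σ * ‖((1 / (1 + σ) : ℝ) : ℂ) - τ‖ ^ 2)
    {a : ℕ → ℕ → ℂ} (ha : ∀ m, ‖a 0 m‖ ^ 2 ≤ K * s ^ m)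
    (h1 : ∀ m, 1 ≤ m → a 1 (m - 1) = -(θ : ℂ) * τ * m * a 0 m)
    (hA : ∀ x ∈ Ioo (0:ℝ) 1, ∀ M : ℕ, ∑ n ∈ Finset.range N, ((n : ℝ) + 1 - θ) *
        ∑ m ∈ Finset.Ico N M, x ^ (m - (n + 1)) * ‖PC θ (fun k => a k (m - k)) (n + 1) x‖ ^ 2 ≤
      θ * ∑' m : ℕ, x ^ m * ‖a 0 m‖ ^ 2) (M : ℕ) :
    ∑ m ∈ Finset.range M, σ * Lam σ (X ^ m) * ‖a 0 m‖ ^ 2 ≤
      (1 + 2 * (kap σ θ + 1 + ε) / ε) * ∑ m ∈ Finset.range m₀, ‖a 0 m‖ ^ 2 := by
  have h1θ : 0 < 1 - θ := by linarith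
  have hK : 0 ≤ K := by
    have := ha 0
    rw [pow_zero, mul_one] at this
    exact (sq_nonneg _).trans this
  have hkap : 0 ≤ kap σ θ := by unfold kap; positivity
  have hSF := SF_ge hσ hθ1 hN (θ := θ)
  have hSF0 : 0 < SF σ θ N := by linarith
  have hsum : ∀ x ∈ Icc (0:ℝ) 1, Summable fun m : ℕ => x ^ m * ‖a 0 m‖ ^ 2 := by
    intro x hx
    apply Summable.of_nonneg_of_le (fun m => mul_nonneg (pow_nonneg hx.1 _) (sq_nonneg _))
      (f := fun m => K * s ^ m)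
    · intro m
      exact (mul_le_of_le_one_left (sq_nonneg _) (pow_le_one₀ hx.1 hx.2)).trans (ha m)
    · exact (summable_geometric_of_lt_one hs0 hs1).mul_left K
  -- the tail
  have htail : ∀ x ∈ Icc (0:ℝ) 1, ∀ M : ℕ, ∑' m : ℕ, x ^ m * ‖a 0 m‖ ^ 2 ≤
      ∑ m ∈ Finset.range M, x ^ m * ‖a 0 m‖ ^ 2 + K * s ^ M / (1 - s) := by
    intro x hx M
    rw [← (hsum x hx).sum_add_tsum_nat_add M]
    apply add_le_add_right
    have h2 : ∑' m : ℕ, x ^ (m + M) * ‖a 0 (m + M)‖ ^ 2 ≤ ∑' m : ℕ, (K * s ^ M) * s ^ m := by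
      apply Summable.tsum_le_tsum _ ((summable_nat_add_iff M).2 (hsum x hx))
        ((summable_geometric_of_lt_one hs0 hs1).mul_left _)
      intro m
      refine ((mul_le_of_le_one_left (sq_nonneg _) (pow_le_one₀ hx.1 hx.2)).trans
        (ha (m + M))).trans (le_of_eq ?_)
      rw [pow_add]
      ring
    rw [tsum_mul_left, tsum_geometric_of_lt_one hs0 hs1] at h2
    refine h2.trans (le_of_eq ?_)
    rw [div_eq_mul_inv]
  -- pointwise
  have hpt : ∀ M : ℕ, N ≤ M → ∀ x ∈ Ioo (0:ℝ) 1,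
      ∑ m ∈ Finset.Ico N M, Fm θ N m (fun k => a k (m - k)) x ≤
        θ * (∑ m ∈ Finset.range N, x ^ m * ‖a 0 m‖ ^ 2 + K * s ^ M / (1 - s)) := by
    intro M hM x hx
    have h2 := hA x hx M
    have h3 := htail x ⟨hx.1.le, hx.2.le⟩ M
    have h4 : ∑ m ∈ Finset.Ico N M, Fm θ N m (fun k => a k (m - k)) x =
        ∑ n ∈ Finset.range N, ((n : ℝ) + 1 - θ) *
        ∑ m ∈ Finset.Ico N M, x ^ (m - (n + 1)) * ‖PC θ (fun k => a k (m - k)) (n + 1) x‖ ^ 2 -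
        θ * ∑ m ∈ Finset.Ico N M, x ^ m * ‖a 0 m‖ ^ 2 := by
      unfold Fm
      rw [Finset.sum_comm, Finset.sum_range_succ', Finset.mul_sum, sub_eq_add_neg]
      congr 1
      · apply Finset.sum_congr rfl
        intro n _
        rw [Finset.mul_sum]
        apply Finset.sum_congr rfl
        intro m _
        push_cast
        ring
      · rw [← Finset.sum_neg_distrib]
        apply Finset.sum_congr rfl
        intro m _
        have : PC θ (fun k => a k (m - k)) 0 x = a 0 m := by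
          unfold PC
          simp [bn]
        rw [this]
        push_cast
        simp
    rw [h4, ← Finset.sum_range_add_sum_Ico (fun m => x ^ m * ‖a 0 m‖ ^ 2) hM] at *
    nlinarith [h2, h3]
  -- integrate
  have hint : ∀ M : ℕ, N ≤ M →
      ∑ m ∈ Finset.Ico N M, ∫ x in (0:ℝ)..1, Fm θ N m (fun k => a k (m - k)) x * (1 - x) ^ (σ - 1) ≤
        θ * (∑ m ∈ Finset.range N, Lam σ (X ^ m) * ‖a 0 m‖ ^ 2 + K * s ^ M / (1 - s) / σ) := by
    intro M hM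
    have h2 : ∑ m ∈ Finset.Ico N M, ∫ x in (0:ℝ)..1,
        Fm θ N m (fun k => a k (m - k)) x * (1 - x) ^ (σ - 1) =
        ∫ x in (0:ℝ)..1, (∑ m ∈ Finset.Ico N M, Fm θ N m (fun k => a k (m - k)) x) *
          (1 - x) ^ (σ - 1) := by
      rw [← intervalIntegral.integral_finsetSum (fun m _ => Fm_int hσ θ N m _)]
      congr 1
      funext x
      rw [Finset.sum_mul]
    have h3 : θ * (∑ m ∈ Finset.range N, Lam σ (X ^ m) * ‖a 0 m‖ ^ 2 + K * s ^ M / (1 - s) / σ) =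
        Lam σ (C θ * (∑ m ∈ Finset.range N, C (‖a 0 m‖ ^ 2) * X ^ m +
          C (K * s ^ M / (1 - s)) * X ^ 0)) := by
      rw [Lam_C_mul, Lam_add hσ, Lam_sum hσ, Lam_C_mul]
      simp only [Lam_C_mul]
      have h4 : Lam σ (X ^ 0) = 1 / σ := by
        have := mom_zero hσ
        field_simp
        linarith
      rw [h4]
      congr 1
      congr 1
      · apply Finset.sum_congr rfl
        intro m _
        ring
      · ring
    rw [h2, h3]
    unfold Lam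
    have hI1 : IntervalIntegrable (fun x => (∑ m ∈ Finset.Ico N M,
        Fm θ N m (fun k => a k (m - k)) x) * (1 - x) ^ (σ - 1)) volume 0 1 := by
      simp only [Fm_eq, ← eval_finsetSum]
      exact Lam_int hσ _
    apply intervalIntegral.integral_mono_on_of_le_Ioo zero_le_one hI1 (Lam_int hσ _)
    intro x hx
    apply mul_le_mul_of_nonneg_right _ (Real.rpow_nonneg (by linarith [hx.2]) _)
    refine (hpt M hM x hx).trans (le_of_eq ?_)
    rw [eval_mul, eval_C, eval_add, eval_finsetSum, eval_mul, eval_C, pow_zero, eval_one, mul_one]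
    congr 2
    apply Finset.sum_congr rfl
    intro m _
    rw [eval_mul, eval_C, eval_pow, eval_X]
    ring
  -- the lower bound
  obtain ⟨D, hD⟩ : ∃ D, D = θ * (1 - θ) * (1 + σ) * σ * ‖((1 / (1 + σ) : ℝ) : ℂ) - τ‖ ^ 2 := ⟨_, rfl⟩
  rw [← hD] at hτ
  have hlow : ∀ m : ℕ, N ≤ m → SF σ θ N * Lam σ (X ^ m) * (θ / (1 - θ)) * ‖a 0 m‖ ^ 2 *
      (D * (m / (m + 1 + σ)) - (kap σ θ + ε)) ≤
      ∫ x in (0:ℝ)..1, Fm θ N m (fun k => a k (m - k)) x * (1 - x) ^ (σ - 1) := by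
    intro m hm
    have hm1 : (1 : ℝ) ≤ m := by exact_mod_cast hN.trans hm
    refine le_trans ?_ (Fm_lower hσ hθ0 hθ1 hN hm _)
    have e0 : a 0 (m - 0) = a 0 m := by rw [Nat.sub_zero]
    simp only [e0]
    rw [h1 m (hN.trans hm)]
    have e1 : -(θ : ℂ) * τ * m * a 0 m + ((θ * m / (1 + σ) : ℝ) : ℂ) * a 0 m =
        ((θ * m : ℝ) : ℂ) * (((1 / (1 + σ) : ℝ) : ℂ) - τ) * a 0 m := by
      push_cast
      ring
    rw [e1, norm_mul, norm_mul, Complex.norm_real, Real.norm_of_nonneg (by positivity), mul_pow,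
      mul_pow]
    have h2 : max (GG σ θ N) 0 ≤ ε := max_le hG hε.le
    have h3 : θ / (1 - θ) * (kap σ θ + max (GG σ θ N) 0) * ‖a 0 m‖ ^ 2 ≤
        θ / (1 - θ) * (kap σ θ + ε) * ‖a 0 m‖ ^ 2 := by
      apply mul_le_mul_of_nonneg_right _ (sq_nonneg _)
      apply mul_le_mul_of_nonneg_left _ (by positivity)
      linarith
    have h4 : 0 ≤ SF σ θ N * Lam σ (X ^ m) := mul_nonneg hSF0.le (mom_pos hσ m).le
    have h5 := mul_le_mul_of_nonneg_left (sub_le_sub_left h3 ((1 + σ) * σ / (m * (m + 1 + σ)) *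
      ((θ * m) ^ 2 * ‖((1 / (1 + σ) : ℝ) : ℂ) - τ‖ ^ 2 * ‖a 0 m‖ ^ 2))) h4
    refine le_trans (le_of_eq ?_) h5
    rw [hD]
    field_simp
  have hb1 : ∀ m : ℕ, m₀ ≤ m → ε ≤ D * (m / (m + 1 + σ)) - (kap σ θ + ε) := by
    intro m hm
    have hm' : (m₀ : ℝ) ≤ m := by exact_mod_cast hm
    have hm0 : (0 : ℝ) ≤ m := Nat.cast_nonneg m
    have h2 : (kap σ θ + 4 * ε) * (m / (m + 2)) ≤ D * (m / (m + 1 + σ)) := by
      apply mul_le_mul hτ _ (by positivity) (by linarith)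
      exact div_le_div_of_nonneg_left hm0 (by positivity) (by linarith)
    have h3 : kap σ θ + 2 * ε ≤ (kap σ θ + 4 * ε) * (m / (m + 2)) := by
      rw [← mul_div_assoc, le_div_iff₀ (by positivity)]
      nlinarith
    linarith
  have hb2 : ∀ m : ℕ, -(kap σ θ + ε) ≤ D * (m / (m + 1 + σ)) - (kap σ θ + ε) := by
    intro m
    have : 0 ≤ D * (m / (m + 1 + σ)) := by
      have : 0 ≤ D := by linarith
      positivity
    linarith
  set S : ℝ := ∑ m ∈ Finset.range m₀, ‖a 0 m‖ ^ 2 with hS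
  have hS0 : 0 ≤ S := Finset.sum_nonneg fun m _ => sq_nonneg _
  have hmon : ∀ m, σ * Lam σ (X ^ m) * ‖a 0 m‖ ^ 2 ≤ ‖a 0 m‖ ^ 2 := fun m =>
    mul_le_of_le_one_left (sq_nonneg _) (mom_le hσ m)
  have hnn : ∀ m, 0 ≤ σ * Lam σ (X ^ m) * ‖a 0 m‖ ^ 2 := fun m => by
    have := mom_pos hσ m
    positivity
  -- the main estimate
  have hmain : ∀ M : ℕ, m₀ ≤ M → ε * ∑ m ∈ Finset.Ico m₀ M, σ * Lam σ (X ^ m) * ‖a 0 m‖ ^ 2 ≤
      (kap σ θ + 1 + ε) * S + K * s ^ M / (1 - s) := by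
    intro M hM
    have h2 := hint M (hNm.trans hM)
    have h3 : ∑ m ∈ Finset.Ico N M, SF σ θ N * Lam σ (X ^ m) * (θ / (1 - θ)) * ‖a 0 m‖ ^ 2 *
      (D * (m / (m + 1 + σ)) - (kap σ θ + ε)) ≤ _ :=
      (Finset.sum_le_sum fun m hm => hlow m (Finset.mem_Ico.1 hm).1).trans h2
    have h4 : ∑ m ∈ Finset.Ico N M, (SF σ θ N * (θ / (1 - θ)) / σ) *
        ((σ * Lam σ (X ^ m) * ‖a 0 m‖ ^ 2) * (D * (m / (m + 1 + σ)) - (kap σ θ + ε))) ≤
        θ * (∑ m ∈ Finset.range N, Lam σ (X ^ m) * ‖a 0 m‖ ^ 2 + K * s ^ M / (1 - s) / σ) := by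
      refine le_trans (le_of_eq ?_) h3
      apply Finset.sum_congr rfl
      intro m _
      field_simp
    rw [← Finset.mul_sum] at h4
    have h5 : ∑ m ∈ Finset.Ico N M, (σ * Lam σ (X ^ m) * ‖a 0 m‖ ^ 2) *
        (D * (m / (m + 1 + σ)) - (kap σ θ + ε)) ≤
        ∑ m ∈ Finset.range N, σ * Lam σ (X ^ m) * ‖a 0 m‖ ^ 2 + K * s ^ M / (1 - s) := by
      have h6 : 0 < SF σ θ N * (θ / (1 - θ)) / σ := by positivity
      have h7 : θ * (∑ m ∈ Finset.range N, Lam σ (X ^ m) * ‖a 0 m‖ ^ 2 + K * s ^ M / (1 - s) / σ) =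
          θ / σ * (∑ m ∈ Finset.range N, σ * Lam σ (X ^ m) * ‖a 0 m‖ ^ 2 + K * s ^ M / (1 - s)) := by
        have : ∑ m ∈ Finset.range N, σ * Lam σ (X ^ m) * ‖a 0 m‖ ^ 2 =
            σ * ∑ m ∈ Finset.range N, Lam σ (X ^ m) * ‖a 0 m‖ ^ 2 := by
          rw [Finset.mul_sum]
          apply Finset.sum_congr rfl
          intro m _
          ring
        rw [this]
        field_simp
      rw [h7] at h4
      have h8 : 0 ≤ ∑ m ∈ Finset.range N, σ * Lam σ (X ^ m) * ‖a 0 m‖ ^ 2 + K * s ^ M / (1 - s) := by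
        have : 0 ≤ ∑ m ∈ Finset.range N, σ * Lam σ (X ^ m) * ‖a 0 m‖ ^ 2 :=
          Finset.sum_nonneg fun m _ => hnn m
        have : 0 < 1 - s := by linarith
        positivity
      have h9 : θ / σ ≤ SF σ θ N * (θ / (1 - θ)) / σ := by
        rw [div_le_div_iff_of_pos_right hσ]
        rw [mul_div_assoc', le_div_iff₀ h1θ]
        nlinarith
      exact le_of_mul_le_mul_left (h4.trans (mul_le_mul_of_nonneg_right h9 h8)) h6
    rw [← Finset.sum_Ico_consecutive _ hNm hM] at h5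
    have h6 : ∑ m ∈ Finset.Ico m₀ M, (σ * Lam σ (X ^ m) * ‖a 0 m‖ ^ 2) * ε ≤
        ∑ m ∈ Finset.Ico m₀ M, (σ * Lam σ (X ^ m) * ‖a 0 m‖ ^ 2) *
        (D * (m / (m + 1 + σ)) - (kap σ θ + ε)) :=
      Finset.sum_le_sum fun m hm => mul_le_mul_of_nonneg_left (hb1 m (Finset.mem_Ico.1 hm).1) (hnn m)
    have h7 : ∑ m ∈ Finset.Ico N m₀, -((kap σ θ + ε) * ‖a 0 m‖ ^ 2) ≤
        ∑ m ∈ Finset.Ico N m₀, (σ * Lam σ (X ^ m) * ‖a 0 m‖ ^ 2) *
        (D * (m / (m + 1 + σ)) - (kap σ θ + ε)) := by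
      apply Finset.sum_le_sum
      intro m _
      have h8 := mul_le_mul_of_nonneg_left (hb2 m) (hnn m)
      have h9 := mul_le_mul_of_nonneg_left (hmon m) (by linarith : 0 ≤ kap σ θ + ε)
      nlinarith
    rw [Finset.sum_neg_distrib, ← Finset.mul_sum] at h7
    have h8 : ∑ m ∈ Finset.range N, σ * Lam σ (X ^ m) * ‖a 0 m‖ ^ 2 ≤
        ∑ m ∈ Finset.range N, ‖a 0 m‖ ^ 2 := Finset.sum_le_sum fun m _ => hmon m
    have h9 : S = ∑ m ∈ Finset.range N, ‖a 0 m‖ ^ 2 + ∑ m ∈ Finset.Ico N m₀, ‖a 0 m‖ ^ 2 := by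
      rw [hS, Finset.sum_range_add_sum_Ico _ hNm]
    have h10 : 0 ≤ ∑ m ∈ Finset.Ico N m₀, ‖a 0 m‖ ^ 2 := Finset.sum_nonneg fun m _ => sq_nonneg _
    have h11 : 0 ≤ ∑ m ∈ Finset.range N, ‖a 0 m‖ ^ 2 := Finset.sum_nonneg fun m _ => sq_nonneg _
    rw [← Finset.sum_mul] at h6
    rw [h9]
    have h12 : 0 ≤ (kap σ θ + ε) * ∑ m ∈ Finset.range N, ‖a 0 m‖ ^ 2 := by positivity
    linarith
  -- the limit
  have hlim : ∀ M : ℕ, m₀ ≤ M → ε * ∑ m ∈ Finset.Ico m₀ M, σ * Lam σ (X ^ m) * ‖a 0 m‖ ^ 2 ≤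
      (kap σ θ + 1 + ε) * S := by
    intro M hM
    have ht : Tendsto (fun M' : ℕ => (kap σ θ + 1 + ε) * S + K * s ^ M' / (1 - s)) atTop
        (𝓝 ((kap σ θ + 1 + ε) * S + K * 0 / (1 - s))) :=
      tendsto_const_nhds.add (((tendsto_pow_atTop_nhds_zero_of_lt_one hs0 hs1).const_mul K).div_const _)
    rw [mul_zero, zero_div, add_zero] at ht
    refine ge_of_tendsto ht ?_
    filter_upwards [eventually_ge_atTop M] with M' hM'
    refine le_trans ?_ (hmain M' (hM.trans hM'))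
    apply mul_le_mul_of_nonneg_left _ hε.le
    apply Finset.sum_le_sum_of_subset_of_nonneg
    · exact Finset.Ico_subset_Ico_right hM'
    · intro m _ _
      exact hnn m
  have hfin : ∀ M : ℕ, m₀ ≤ M → ∑ m ∈ Finset.range M, σ * Lam σ (X ^ m) * ‖a 0 m‖ ^ 2 ≤
      (1 + 2 * (kap σ θ + 1 + ε) / ε) * S := by
    intro M hM
    rw [← Finset.sum_range_add_sum_Ico _ hM]
    have h2 := hlim M hM
    have h3 : ∑ m ∈ Finset.range m₀, σ * Lam σ (X ^ m) * ‖a 0 m‖ ^ 2 ≤ S :=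
      Finset.sum_le_sum fun m _ => hmon m
    have h4 : ∑ m ∈ Finset.Ico m₀ M, σ * Lam σ (X ^ m) * ‖a 0 m‖ ^ 2 ≤ (kap σ θ + 1 + ε) / ε * S := by
      rw [div_mul_eq_mul_div, le_div_iff₀ hε]
      linarith
    have h5 : 0 ≤ (kap σ θ + 1 + ε) / ε * S := by positivity
    have h6 : (1 + 2 * (kap σ θ + 1 + ε) / ε) * S = S + 2 * ((kap σ θ + 1 + ε) / ε * S) := by ring
    rw [h6]
    linarith
  rcases le_total m₀ M with h | h
  · exact hfin M h
  · refine le_trans ?_ (hfin m₀ (le_refl _))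
    apply Finset.sum_le_sum_of_subset_of_nonneg
    · exact Finset.range_subset_range.2 h
    · intro m _ _
      exact hnn m

end Pool.Agent.W5h41.MA
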