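import Pool.Agent.W677.MarG3
import Pool.Agent.R250.MC2

set_option autoImplicit false

/-! # The area inequality for the powers `(ψ - ψ(1/ζ)) ^ (-θ)` -/

namespace Pool.Agent.W5h41.MA

open Complex Metric Set Filter Topology MeasureTheory
open Pool.Agent.W677.Mar
open Pool.Agent.H33R3.Bom (J)

/-- the two variable logarithm of `NN` -/
structure Lg (Y : ℂ → ℂ) (f : ℂ × ℂ → ℂ) : Prop where
  cont : ContinuousOn f (ball 0 1 ×ˢ ball 0 1)
  exp : ∀ ζ ∈ ball (0 : ℂ) 1, ∀ z ∈ ball (0 : ℂ) 1, Complex.exp (f (ζ, z)) = NN Y ζ z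
  zero : ∀ ζ ∈ ball (0 : ℂ) 1, f (ζ, 0) = 0

theorem NN_symm (Y : ℂ → ℂ) (ζ z : ℂ) : NN Y ζ z = NN Y z ζ := by
  by_cases h : z = ζ
  · rw [h]
  · have h1 := NN_mul Y ζ z
    have h2 := NN_mul Y z ζ
    have h3 : z - ζ ≠ 0 := sub_ne_zero.2 h
    apply mul_right_cancel₀ h3
    rw [h1]
    linear_combination h2

variable {Y H : ℂ → ℂ} {f : ℂ × ℂ → ℂ}

theorem Lg.symm (L : Lg Y f) {ζ z : ℂ} (hζ : ζ ∈ ball (0 : ℂ) 1) (hz : z ∈ ball (0 : ℂ) 1) :
    f (ζ, z) = f (z, ζ) := by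
  have h00 : (0 : ℂ) ∈ ball (0 : ℂ) 1 := mem_ball_self one_pos
  have hconv : Convex ℝ (ball (0 : ℂ) 1 ×ˢ ball (0 : ℂ) 1) :=
    (convex_ball _ _).prod (convex_ball _ _)
  apply exp_unique (f := fun p : ℂ × ℂ => f (p.1, p.2)) (g := fun p : ℂ × ℂ => f (p.2, p.1))
    hconv.isPreconnected (x₀ := ((0 : ℂ), (0 : ℂ))) (x := (ζ, z)) L.cont _ _ ⟨h00, h00⟩ rfl ⟨hζ, hz⟩
  · apply L.cont.comp (by fun_prop)
    intro p hp
    exact ⟨hp.2, hp.1⟩
  · intro p hp
    rw [L.exp _ hp.1 _ hp.2, L.exp _ hp.2 _ hp.1, NN_symm]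

theorem Lg.diff2 (L : Lg Y f) (hY : DifferentiableOn ℂ Y (ball 0 1)) {ζ : ℂ}
    (hζ : ζ ∈ ball (0 : ℂ) 1) : DifferentiableOn ℂ (fun z => f (ζ, z)) (ball 0 1) := by
  have hAc : ContinuousOn (fun z => f (ζ, z)) (ball 0 1) := by
    apply L.cont.comp (by fun_prop)
    intro w hw
    exact ⟨hζ, hw⟩
  exact log_diff isOpen_ball hAc (NN_diff hY hζ) (fun z hz => L.exp ζ hζ z hz)

theorem Lg.diff1 (L : Lg Y f) (hY : DifferentiableOn ℂ Y (ball 0 1)) {z : ℂ}
    (hz : z ∈ ball (0 : ℂ) 1) : DifferentiableOn ℂ (fun ζ => f (ζ, z)) (ball 0 1) :=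
  (L.diff2 hY hz).congr fun _ hζ => L.symm hζ hz

theorem Lg.diag (L : Lg Y f) (S : Sg Y H) {ζ : ℂ} (hζ : ζ ∈ ball (0 : ℂ) 1) :
    H ζ = f (ζ, ζ) := by
  have h00 : (0 : ℂ) ∈ ball (0 : ℂ) 1 := mem_ball_self one_pos
  apply exp_unique (convex_ball (0 : ℂ) 1).isPreconnected (f := H) (g := fun w => f (w, w))
      S.dH.continuousOn _ _ h00 _ hζ
  · apply L.cont.comp (by fun_prop)
    intro w hw
    exact ⟨hw, hw⟩
  · intro w hw
    rw [L.exp w hw w hw, S.eq w hw]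
    unfold NN
    rw [dslope_same]
  · show H 0 = f (0, 0)
    rw [S.H0, L.zero 0 h00]

theorem exists_Lg (S : Sg Y H) : ∃ f, Lg Y f := by
  obtain ⟨f, h1, h2, h3⟩ := exists_log S
  exact ⟨f, h1, h2, h3⟩

/-- the logarithm of `Y ζ - ζ Y z / z` -/
noncomputable def ell (f : ℂ × ℂ → ℂ) (ζ z : ℂ) : ℂ := f (ζ, z) + Complex.log (1 - ζ * z⁻¹)

theorem slit {ζ z : ℂ} (h : ‖ζ‖ < ‖z‖) : 1 - ζ * z⁻¹ ∈ Complex.slitPlane := by
  have hx : ‖ζ * z⁻¹‖ < 1 := by
    rw [norm_mul, norm_inv, ← div_eq_mul_inv, div_lt_one ((norm_nonneg ζ).trans_lt h)]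
    exact h
  have := Complex.mem_slitPlane_of_norm_lt_one (z := -(ζ * z⁻¹)) (by rwa [norm_neg])
  rwa [← sub_eq_add_neg] at this

theorem exp_ell (L : Lg Y f) {ζ z : ℂ} (hζz : ‖ζ‖ < ‖z‖) (hz : ‖z‖ < 1) :
    Complex.exp (ell f ζ z) = Y ζ - ζ * (Y z / z) := by
  have hζ : ζ ∈ ball (0 : ℂ) 1 := mem_ball_zero_iff.2 (hζz.trans hz)
  have hzb : z ∈ ball (0 : ℂ) 1 := mem_ball_zero_iff.2 hz
  have hz0 : z ≠ 0 := norm_pos_iff.1 ((norm_nonneg ζ).trans_lt hζz)
  have hne : z - ζ ≠ 0 := by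
    intro h
    rw [sub_eq_zero] at h
    rw [h] at hζz
    exact lt_irrefl _ hζz
  unfold ell
  rw [Complex.exp_add, L.exp ζ hζ z hzb, Complex.exp_log (Complex.slitPlane_ne_zero (slit hζz))]
  have h1 := NN_mul Y ζ z
  have h2 : NN Y ζ z * (1 - ζ * z⁻¹) = NN Y ζ z * (z - ζ) / z := by
    field_simp
  rw [h2, h1]
  field_simp

/-- approximable by polynomials in `Y z / z` on the circle -/
def Ap (Y : ℂ → ℂ) (R : ℝ) (Q : ℂ → ℂ) : Prop :=
  ∀ δ : ℝ, 0 < δ → ∃ q : Polynomial ℂ, ∀ z : ℂ, ‖z‖ = R → ‖q.eval (Y z / z) - Q z‖ ≤ δ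

/-- the generator -/
noncomputable def gen (Y : ℂ → ℂ) (R : ℝ) (hc : ContinuousOn (fun z => Y z / z) (sphere (0 : ℂ) R)) :
    C(sphere (0 : ℂ) R, ℂ) :=
  ⟨fun z => Y z / z, hc.restrict⟩

theorem mem_of_Ap {R : ℝ} {hc : ContinuousOn (fun z => Y z / z) (sphere (0 : ℂ) R)}
    {φ : C(sphere (0 : ℂ) R, ℂ)} {Q : ℂ → ℂ} (h : ∀ z : sphere (0 : ℂ) R, φ z = Q z)
    (hQ : Ap Y R Q) :
    φ ∈ (Algebra.adjoin ℂ {gen Y R hc}).topologicalClosure := by
  rw [← SetLike.mem_coe, Subalgebra.topologicalClosure_coe, Metric.mem_closure_iff]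
  intro ε hε
  obtain ⟨q, hq⟩ := hQ (ε / 2) (by positivity)
  refine ⟨Polynomial.aeval (gen Y R hc) q, ?_, ?_⟩
  · rw [SetLike.mem_coe, Algebra.adjoin_singleton_eq_range_aeval]
    exact ⟨q, rfl⟩
  · rw [dist_eq_norm]
    refine lt_of_le_of_lt ((ContinuousMap.norm_le _ (by positivity : (0:ℝ) ≤ ε / 2)).2 ?_)
      (by linarith)
    intro z
    have hz : ‖(z : ℂ)‖ = R := by simpa using z.2
    have h3 : (Polynomial.aeval (gen Y R hc) q) z = Polynomial.aeval ((gen Y R hc) z) q :=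
      (Polynomial.aeval_algHom_apply (ContinuousMap.evalAlgHom ℂ ℂ z) (gen Y R hc) q).symm
    have h4 : (Polynomial.aeval (gen Y R hc) q) z = q.eval (Y z / z) := by
      rw [h3, Polynomial.coe_aeval_eq_eval]
      rfl
    rw [ContinuousMap.sub_apply, h4, h, norm_sub_rev]
    exact hq z hz

theorem Ap_of_mem {R : ℝ} {hc : ContinuousOn (fun z => Y z / z) (sphere (0 : ℂ) R)}
    {φ : C(sphere (0 : ℂ) R, ℂ)} {Q : ℂ → ℂ} (h : ∀ z : sphere (0 : ℂ) R, φ z = Q z)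
    (hφ : φ ∈ (Algebra.adjoin ℂ {gen Y R hc}).topologicalClosure) : Ap Y R Q := by
  intro δ hδ
  rw [← SetLike.mem_coe, Subalgebra.topologicalClosure_coe, Metric.mem_closure_iff] at hφ
  obtain ⟨p, hp, hpd⟩ := hφ δ hδ
  have hp' : p ∈ (Algebra.adjoin ℂ {gen Y R hc} : Subalgebra ℂ C(sphere (0 : ℂ) R, ℂ)) := hp
  rw [Algebra.adjoin_singleton_eq_range_aeval] at hp'
  obtain ⟨q, hq⟩ := hp'
  refine ⟨q, fun z hz => ?_⟩
  let zz : sphere (0 : ℂ) R := ⟨z, by simpa using hz⟩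
  have h1 := ContinuousMap.dist_apply_le_dist (f := φ) (g := p) zz
  have h2 : p zz = q.eval (Y z / z) := by
    rw [← hq]
    have h3 : (Polynomial.aeval (gen Y R hc) q) zz = Polynomial.aeval ((gen Y R hc) zz) q :=
      (Polynomial.aeval_algHom_apply (ContinuousMap.evalAlgHom ℂ ℂ zz) (gen Y R hc) q).symm
    refine Eq.trans h3 ?_
    rw [Polynomial.coe_aeval_eq_eval]
    rfl
  have h4 : φ zz = Q z := h zz
  rw [h4, h2, dist_eq_norm, norm_sub_rev] at h1
  exact h1.trans hpd.le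

/-- the path of denominators is not zero -/
theorem den_ne (S : Sg Y H) {R : ℝ} (hR1 : R < 1) {ζ : ℂ} (hζR : ‖ζ‖ < R) {t : ℝ}
    (ht : t ∈ Icc (0 : ℝ) 1) {z : ℂ} (hz : ‖z‖ = R) : Y (t * ζ) - t * ζ * (Y z / z) ≠ 0 := by
  obtain ⟨f, L⟩ := exists_Lg S
  have h1 : ‖(t : ℂ) * ζ‖ < ‖z‖ := by
    rw [norm_mul, Complex.norm_real, Real.norm_of_nonneg ht.1, hz]
    have := norm_nonneg ζ
    nlinarith [ht.2]
  have := exp_ell L h1 (by rw [hz]; exact hR1)
  rw [← this]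
  exact Complex.exp_ne_zero _

/-- the inverse of the denominator is approximable -/
theorem Ap_inv (S : Sg Y H) {R : ℝ} (hR1 : R < 1) {ζ : ℂ} (hζ0 : ζ ≠ 0) (hζR : ‖ζ‖ < R) {t : ℝ}
    (ht : t ∈ Icc (0 : ℝ) 1) : Ap Y R (fun z => (Y (t * ζ) - t * ζ * (Y z / z))⁻¹) := by
  rcases eq_or_lt_of_le ht.1 with h0 | h0
  · intro δ hδ
    refine ⟨1, fun z _ => ?_⟩
    rw [← h0]
    simp [S.G.one, hδ.le]
  · intro δ hδ
    have hne : (t : ℂ) * ζ ≠ 0 := mul_ne_zero (by exact_mod_cast h0.ne') hζ0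
    have h1 : ‖(t : ℂ) * ζ‖ < R := by
      rw [norm_mul, Complex.norm_real, Real.norm_of_nonneg ht.1]
      have := norm_nonneg ζ
      nlinarith [ht.2]
    have hpos : 0 < ‖(t : ℂ) * ζ‖ := norm_pos_iff.2 hne
    obtain ⟨q, hq⟩ := t2 Y S.G R hR1 ((t : ℂ) * ζ) hne h1 (δ * ‖(t : ℂ) * ζ‖) (by positivity)
    refine ⟨Polynomial.C ((t : ℂ) * ζ)⁻¹ * q, fun z hz => ?_⟩
    have h2 := hq z hz
    rw [Polynomial.eval_mul, Polynomial.eval_C]
    have h3 : (Y (t * ζ) - t * ζ * (Y z / z))⁻¹ =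
        ((t : ℂ) * ζ)⁻¹ * (Y (t * ζ) / (t * ζ) - Y z / z)⁻¹ := by
      rw [← mul_inv, mul_sub, mul_div_cancel₀ _ hne]
    show ‖((t : ℂ) * ζ)⁻¹ * q.eval (Y z / z) - (Y (t * ζ) - t * ζ * (Y z / z))⁻¹‖ ≤ δ
    rw [h3, ← mul_sub, norm_mul, norm_inv]
    rw [inv_mul_le_iff₀ hpos]
    linarith

/-- **The powers are approximable.** -/
theorem Ap_exp (S : Sg Y H) (L : Lg Y f) {R : ℝ} (hR1 : R < 1) {ζ : ℂ} (hζ0 : ζ ≠ 0)
    (hζR : ‖ζ‖ < R) (c : ℂ) :
    Ap Y R (fun z => (Y ζ / ζ - Y z / z)⁻¹ * Complex.exp (c * ell f ζ z)) := by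
  have hR0 : 0 < R := (norm_nonneg ζ).trans_lt hζR
  have hYd := S.G.diff
  have hY' : ContinuousOn (deriv Y) (ball 0 1) := (hYd.deriv isOpen_ball).continuousOn
  have hsph : ∀ z : sphere (0 : ℂ) R, ‖(z : ℂ)‖ = R := fun z => by simpa using z.2
  have hsb : ∀ z : sphere (0 : ℂ) R, (z : ℂ) ∈ ball (0 : ℂ) 1 := fun z => by
    rw [mem_ball_zero_iff, hsph]; exact hR1
  have hs0 : ∀ z : sphere (0 : ℂ) R, (z : ℂ) ≠ 0 := fun z => by
    rw [← norm_pos_iff, hsph]; exact hR0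
  have hc : ContinuousOn (fun z => Y z / z) (sphere (0 : ℂ) R) := by
    apply ContinuousOn.div
    · apply hYd.continuousOn.mono
      intro z hz
      exact hsb ⟨z, hz⟩
    · exact continuousOn_id
    · intro z hz
      exact hs0 ⟨z, hz⟩
  set A := (Algebra.adjoin ℂ {gen Y R hc}).topologicalClosure with hA
  have hAc : IsClosed (A : Set C(sphere (0 : ℂ) R, ℂ)) := Subalgebra.isClosed_topologicalClosure _
  have hgen : gen Y R hc ∈ A := Subalgebra.le_topologicalClosure _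
    (Algebra.subset_adjoin (mem_singleton _))
  have htb : ∀ t : ℝ, (cl t : ℂ) * ζ ∈ ball (0 : ℂ) 1 := by
    intro t
    rw [mem_ball_zero_iff, norm_mul, Complex.norm_real, Real.norm_of_nonneg (cl_mem t).1]
    have := norm_nonneg ζ
    nlinarith [(cl_mem t).2]
  have hGc : Continuous fun z : sphere (0 : ℂ) R => Y z / z := hc.restrict
  -- the integrand
  have hkc : Continuous fun p : ℝ × sphere (0 : ℂ) R =>
      ζ * (deriv Y (cl p.1 * ζ) - Y p.2 / p.2) *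
        (Y (cl p.1 * ζ) - cl p.1 * ζ * (Y p.2 / p.2))⁻¹ := by
    have c1 : Continuous fun p : ℝ × sphere (0 : ℂ) R => (cl p.1 : ℂ) * ζ :=
      (Complex.continuous_ofReal.comp (continuous_cl.comp continuous_fst)).mul continuous_const
    have c2 : Continuous fun p : ℝ × sphere (0 : ℂ) R => Y p.2 / p.2 := hGc.comp continuous_snd
    have c3 : Continuous fun p : ℝ × sphere (0 : ℂ) R => deriv Y (cl p.1 * ζ) :=
      hY'.comp_continuous c1 fun p => htb p.1
    have c4 : Continuous fun p : ℝ × sphere (0 : ℂ) R => Y (cl p.1 * ζ) :=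
      hYd.continuousOn.comp_continuous c1 fun p => htb p.1
    exact (continuous_const.mul (c3.sub c2)).mul ((c4.sub (c1.mul c2)).inv₀ fun p =>
      den_ne S hR1 hζR (cl_mem p.1) (hsph p.2))
  let k : C(ℝ × sphere (0 : ℂ) R, ℂ) := ⟨_, hkc⟩
  have hkA : ∀ t : ℝ, k.curry t ∈ A := by
    intro t
    let v : C(sphere (0 : ℂ) R, ℂ) :=
      ⟨fun z => (Y (cl t * ζ) - cl t * ζ * (Y z / z))⁻¹, by
        apply (continuous_const.sub (continuous_const.mul hGc)).inv₀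
        intro z
        exact den_ne S hR1 hζR (cl_mem t) (hsph z)⟩
    have hv : v ∈ A := mem_of_Ap (Q := fun z => (Y (cl t * ζ) - cl t * ζ * (Y z / z))⁻¹)
      (fun z => rfl) (Ap_inv S hR1 hζ0 hζR (cl_mem t))
    have e : k.curry t = (algebraMap ℂ _ (ζ * deriv Y (cl t * ζ)) - ζ • gen Y R hc) * v := by
      ext z
      show ζ * (deriv Y (cl t * ζ) - Y z / z) * (Y (cl t * ζ) - cl t * ζ * (Y z / z))⁻¹ =
        (ζ * deriv Y (cl t * ζ) - ζ • (Y z / z)) * (Y (cl t * ζ) - cl t * ζ * (Y z / z))⁻¹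
      rw [smul_eq_mul]
      ring
    rw [e]
    exact A.mul_mem (A.sub_mem (A.algebraMap_mem _) (A.smul_mem hgen _)) hv
  have hki : IntervalIntegrable (fun t => k.curry t) volume 0 1 :=
    k.curry.continuous.intervalIntegrable 0 1
  have hIA : ∫ t in (0 : ℝ)..1, k.curry t ∈ A := by
    rw [intervalIntegral.integral_of_le zero_le_one]
    haveI : IsProbabilityMeasure (volume.restrict (Ioc (0 : ℝ) 1)) := ⟨by simp⟩
    have hconv : Convex ℝ (A : Set C(sphere (0 : ℂ) R, ℂ)) :=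
      (A.toSubmodule.restrictScalars ℝ).convex
    exact hconv.integral_mem hAc (Eventually.of_forall hkA) hki.1
  -- the value of the integral
  have hval : ∀ z : sphere (0 : ℂ) R, (∫ t in (0 : ℝ)..1, k.curry t) z = ell f ζ z := by
    intro z
    have e1 : (∫ t in (0 : ℝ)..1, k.curry t) z = ∫ t in (0 : ℝ)..1, k.curry t z := by
      have := ContinuousLinearMap.intervalIntegral_comp_comm (ContinuousMap.evalCLM ℂ z) hki
      exact this.symm
    have hz := hsph z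
    have hzb := hsb z
    have hℓ : ∀ t ∈ Icc (0 : ℝ) 1, HasDerivAt (fun t : ℝ => ell f (t * ζ) z) (k.curry t z) t := by
      intro t ht
      have hnt : ‖(t : ℂ) * ζ‖ < ‖(z : ℂ)‖ := by
        rw [norm_mul, Complex.norm_real, Real.norm_of_nonneg ht.1, hz]
        have := norm_nonneg ζ
        nlinarith [ht.2]
      have htm : (t : ℂ) * ζ ∈ ball (0 : ℂ) 1 := by
        rw [mem_ball_zero_iff]
        rw [hz] at hnt
        linarith
      have d1 : DifferentiableAt ℂ (fun s => ell f s z) ((t : ℂ) * ζ) := by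
        unfold ell
        apply DifferentiableAt.add
        · exact (L.diff1 hYd hzb).differentiableAt (isOpen_ball.mem_nhds htm)
        · apply DifferentiableAt.clog
          · exact (differentiableAt_id.mul_const _).const_sub 1
          · exact slit hnt
      have h2 := d1.hasDerivAt.cexp
      have h3 : HasDerivAt (fun s => Y s - s * (Y z / z))
          (deriv Y ((t : ℂ) * ζ) - 1 * (Y z / z)) ((t : ℂ) * ζ) :=
        ((hYd.differentiableAt (isOpen_ball.mem_nhds htm)).hasDerivAt).sub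
          ((hasDerivAt_id _).mul_const _)
      have hev : (fun s => Complex.exp (ell f s z)) =ᶠ[𝓝 ((t : ℂ) * ζ)]
          fun s => Y s - s * (Y z / z) := by
        have : {s : ℂ | ‖s‖ < ‖(z : ℂ)‖} ∈ 𝓝 ((t : ℂ) * ζ) :=
          (isOpen_lt continuous_norm continuous_const).mem_nhds hnt
        filter_upwards [this] with s hs
        exact exp_ell L hs (by rw [hz]; exact hR1)
      have h4 := h2.unique (h3.congr_of_eventuallyEq hev)
      rw [exp_ell L hnt (by rw [hz]; exact hR1)] at h4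
      have h5 : HasDerivAt (fun t : ℝ => (t : ℂ) * ζ) ζ t := by
        have := (Complex.ofRealCLM.hasDerivAt (x := t)).mul_const ζ
        simpa using this
      have h6 := d1.hasDerivAt.comp t h5
      refine h6.congr_deriv ?_
      show deriv (fun s => ell f s z) (t * ζ) * ζ =
        ζ * (deriv Y (cl t * ζ) - Y z / z) * (Y (cl t * ζ) - cl t * ζ * (Y z / z))⁻¹
      rw [cl_eq ht]
      have hne := den_ne S hR1 hζR ht hz
      rw [one_mul] at h4
      rw [← h4]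
      rw [show ∀ a b c : ℂ, c * (a * b) * a⁻¹ = (a * a⁻¹) * (b * c) from fun a b c => by ring,
        mul_inv_cancel₀ hne, one_mul]
    have h7 : ∫ t in (0 : ℝ)..1, k.curry t z = ell f ((1 : ℝ) * ζ) z - ell f ((0 : ℝ) * ζ) z := by
      apply intervalIntegral.integral_eq_sub_of_hasDerivAt (f := fun t : ℝ => ell f (t * ζ) z)
        (f' := fun t => k.curry t z) (a := (0 : ℝ)) (b := (1 : ℝ))
      · intro t ht
        rw [uIcc_of_le zero_le_one] at ht
        exact hℓ t ht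
      · apply Continuous.intervalIntegrable
        exact hkc.comp (continuous_id.prodMk continuous_const)
    rw [e1, h7]
    have h8 : ell f ((0 : ℝ) * ζ) z = 0 := by
      unfold ell
      have : f (((0 : ℝ) : ℂ) * ζ, (z : ℂ)) = 0 := by
        rw [Complex.ofReal_zero, zero_mul, L.symm (mem_ball_self one_pos) hzb, L.zero _ hzb]
      rw [this]
      simp
    rw [h8, sub_zero, Complex.ofReal_one, one_mul]
  -- the exponential
  have hexpA : NormedSpace.exp (c • ∫ t in (0 : ℝ)..1, k.curry t) ∈ A :=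
    NormedSpace.exp_mem (R := ℂ) hAc (A.smul_mem hIA c)
  have hexpv : ∀ z : sphere (0 : ℂ) R, (NormedSpace.exp (c • ∫ t in (0 : ℝ)..1, k.curry t) :
      C(sphere (0 : ℂ) R, ℂ)) z = Complex.exp (c * ell f ζ z) := by
    intro z
    have h1 := NormedSpace.map_exp (ContinuousMap.evalAlgHom ℂ ℂ z)
      (ContinuousMap.evalCLM ℂ z).continuous (c • ∫ t in (0 : ℝ)..1, k.curry t)
    have h2 : (ContinuousMap.evalAlgHom ℂ ℂ z) (c • ∫ t in (0 : ℝ)..1, k.curry t) =
        c * ell f ζ z := by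
      show c * (∫ t in (0 : ℝ)..1, k.curry t) z = _
      rw [hval]
    rw [h2, ← Complex.exp_eq_exp_ℂ] at h1
    exact h1
  let v : C(sphere (0 : ℂ) R, ℂ) :=
      ⟨fun z => (Y ζ / ζ - Y z / z)⁻¹, by
        apply (continuous_const.sub hGc).inv₀
        intro z h
        have := den_ne S hR1 hζR (t := 1) ⟨zero_le_one, le_refl _⟩ (hsph z)
        apply this
        rw [Complex.ofReal_one, one_mul]
        change Y ζ / ζ - Y z / z = 0 at h
        rw [sub_eq_zero, div_eq_iff hζ0] at h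
        rw [h]
        ring⟩
  have hvA : v ∈ A := mem_of_Ap (Q := fun z => (Y ζ / ζ - Y z / z)⁻¹) (fun z => rfl)
    (fun δ hδ => t2 Y S.G R hR1 ζ hζ0 hζR δ hδ)
  refine Ap_of_mem (φ := v * NormedSpace.exp (c • ∫ t in (0 : ℝ)..1, k.curry t)) (hc := hc) ?_
    (A.mul_mem hvA hexpA)
  intro z
  rw [ContinuousMap.mul_apply, hexpv]
  rfl

/-- **The area inequality for the powers.** -/
theorem area_pow (S : Sg Y H) (L : Lg Y f) {R : ℝ} (hR1 : R < 1) {ζ : ℂ} (hζ0 : ζ ≠ 0)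
    (hζR : ‖ζ‖ < R) (c : ℂ) :
    J R (fun z => Complex.exp (c * ell f ζ z)) (deriv fun z => Complex.exp (c * ell f ζ z)) ≤ 0 := by
  have hR0 : 0 < R := (norm_nonneg ζ).trans_lt hζR
  have hζ : ζ ∈ ball (0 : ℂ) 1 := mem_ball_zero_iff.2 (hζR.trans hR1)
  apply t3 t1 Y S.G R hR0 hR1
    (fun z => -c * ((Y ζ / ζ - Y z / z)⁻¹ * Complex.exp (c * ell f ζ z)))
  · intro δ hδ
    obtain ⟨q, hq⟩ := Ap_exp S L hR1 hζ0 hζR c (δ / (‖c‖ + 1)) (by positivity)
    refine ⟨Polynomial.C (-c) * q, fun z hz => ?_⟩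
    rw [Polynomial.eval_mul, Polynomial.eval_C, ← mul_sub, norm_mul, norm_neg]
    have h1 := hq z hz
    have h2 := norm_nonneg c
    calc ‖c‖ * ‖Polynomial.eval (Y z / z) q - (Y ζ / ζ - Y z / z)⁻¹ * Complex.exp (c * ell f ζ z)‖
        ≤ (‖c‖ + 1) * (δ / (‖c‖ + 1)) := by
          apply mul_le_mul (by linarith) h1 (norm_nonneg _) (by linarith)
      _ = δ := by field_simp
  · intro z hz
    have hzb : z ∈ ball (0 : ℂ) 1 := by rw [mem_ball_zero_iff, hz]; exact hR1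
    have hz0 : z ≠ 0 := by rw [← norm_pos_iff, hz]; exact hR0
    have hζz : ‖ζ‖ < ‖z‖ := by rw [hz]; exact hζR
    have d1 : DifferentiableAt ℂ (fun s => ell f ζ s) z := by
      unfold ell
      apply DifferentiableAt.add
      · exact (L.diff2 S.G.diff hζ).differentiableAt (isOpen_ball.mem_nhds hzb)
      · apply DifferentiableAt.clog
        · exact ((differentiableAt_inv hz0).const_mul ζ).const_sub 1
        · exact slit hζz
    have hGd : HasDerivAt (fun z => Y z / z) (deriv (fun z => Y z / z) z) z := by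
      apply DifferentiableAt.hasDerivAt
      exact (S.G.diff.differentiableAt (isOpen_ball.mem_nhds hzb)).div differentiableAt_id hz0
    have h3 : HasDerivAt (fun s => Y ζ - ζ * (Y s / s)) (-(ζ * deriv (fun z => Y z / z) z)) z :=
      (hGd.const_mul ζ).const_sub _
    have hev : (fun s => Complex.exp (ell f ζ s)) =ᶠ[𝓝 z] fun s => Y ζ - ζ * (Y s / s) := by
      have h5 : {s : ℂ | ‖ζ‖ < ‖s‖} ∈ 𝓝 z :=
        (isOpen_lt continuous_const continuous_norm).mem_nhds hζz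
      filter_upwards [h5, isOpen_ball.mem_nhds hzb] with s hs hs1
      exact exp_ell L hs (mem_ball_zero_iff.1 hs1)
    have h4 := d1.hasDerivAt.cexp.unique (h3.congr_of_eventuallyEq hev)
    rw [exp_ell L hζz (by rw [hz]; exact hR1)] at h4
    have hne := den_ne S hR1 hζR (t := 1) ⟨zero_le_one, le_refl _⟩ hz
    rw [Complex.ofReal_one, one_mul] at hne
    have hne2 : Y ζ / ζ - Y z / z ≠ 0 := by
      intro h
      apply hne
      rw [sub_eq_zero, div_eq_iff hζ0] at h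
      rw [h]
      ring
    have h6 : deriv (fun s => ell f ζ s) z = -(Y ζ / ζ - Y z / z)⁻¹ * deriv (fun z => Y z / z) z := by
      have e : Y ζ - ζ * (Y z / z) = ζ * (Y ζ / ζ - Y z / z) := by
        field_simp
      rw [e] at h4
      have h7 : (Y ζ / ζ - Y z / z) * deriv (fun s => ell f ζ s) z =
          -deriv (fun z => Y z / z) z := by
        apply mul_left_cancel₀ hζ0
        rw [← mul_assoc, h4]
        ring
      rw [neg_mul, ← mul_neg, ← h7, inv_mul_cancel_left₀ hne2]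
    have h8 := (d1.hasDerivAt.const_mul c).cexp
    refine h8.congr_deriv ?_
    rw [h6]
    ring

end Pool.Agent.W5h41.MA
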