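import Pool.Agent.W5h41.MA5

set_option autoImplicit false

/-! # The area inequality after a Moebius change of variables, II -/

namespace Pool.Agent.W5h41.MA

open Complex Metric Set Filter Topology MeasureTheory
open Pool.Agent.W677.Mar
open Pool.Agent.H33R3.Bom (J)

/-- the Moebius map -/
noncomputable def mo (w z : ℂ) : ℂ := (w + z) / (1 + (starRingEnd ℂ) w * z)

/-- the transformed function -/
noncomputable def Cw (θ : ℂ) (F : ℂ → ℂ) (w z : ℂ) : ℂ :=
  Complex.exp (θ * Complex.log (1 + (starRingEnd ℂ) w * z)) * F (mo w z)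

theorem u_slit {w z : ℂ} (h : ‖w‖ * ‖z‖ < 1) : 1 + (starRingEnd ℂ) w * z ∈ Complex.slitPlane := by
  apply Complex.mem_slitPlane_of_norm_lt_one
  rwa [norm_mul, RCLike.norm_conj]

theorem u_ne {w z : ℂ} (h : ‖w‖ * ‖z‖ < 1) : 1 + (starRingEnd ℂ) w * z ≠ 0 :=
  Complex.slitPlane_ne_zero (u_slit h)

theorem mo_id (w z : ℂ) : ‖1 + (starRingEnd ℂ) w * z‖ ^ 2 - ‖w + z‖ ^ 2 =
    (1 - ‖w‖ ^ 2) * (1 - ‖z‖ ^ 2) := by
  simp only [← Complex.normSq_eq_norm_sq, Complex.normSq_apply, Complex.add_re, Complex.add_im,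
    Complex.mul_re, Complex.mul_im, Complex.conj_re, Complex.conj_im, Complex.one_re,
    Complex.one_im]
  ring

theorem exists_r1 {R0 : ℝ} (hR0 : 1 < R0) {w : ℂ} (hw : ‖w‖ < 1) :
    ∃ r1 : ℝ, 1 < r1 ∧ ∀ z ∈ ball (0 : ℂ) r1, ‖w‖ * ‖z‖ < 1 ∧ mo w z ∈ ball (0 : ℂ) R0 := by
  let U : Set ℂ := {z | ‖w‖ * ‖z‖ < 1} ∩ {z | ‖w + z‖ < R0 * ‖1 + (starRingEnd ℂ) w * z‖}
  have hU : IsOpen U := by
    apply IsOpen.inter
    · exact isOpen_lt (by fun_prop) (by fun_prop)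
    · exact isOpen_lt (by fun_prop) (by fun_prop)
  have hsub : closedBall (0 : ℂ) 1 ⊆ U := by
    intro z hz
    have hz1 : ‖z‖ ≤ 1 := mem_closedBall_zero_iff.1 hz
    have h1 : ‖w‖ * ‖z‖ < 1 := by
      have := norm_nonneg w
      nlinarith
    refine ⟨h1, ?_⟩
    show ‖w + z‖ < R0 * ‖1 + (starRingEnd ℂ) w * z‖
    have h2 := mo_id w z
    have h3 : 0 ≤ (1 - ‖w‖ ^ 2) * (1 - ‖z‖ ^ 2) := by
      apply mul_nonneg
      · have := norm_nonneg w
        nlinarith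
      · have := norm_nonneg z
        nlinarith
    have h4 : ‖w + z‖ ≤ ‖1 + (starRingEnd ℂ) w * z‖ := by
      apply le_of_sq_le_sq _ (norm_nonneg _)
      linarith
    have h5 : 0 < ‖1 + (starRingEnd ℂ) w * z‖ := norm_pos_iff.2 (u_ne h1)
    nlinarith
  obtain ⟨δ, hδ, hδU⟩ := (isCompact_closedBall (0 : ℂ) 1).exists_thickening_subset_open hU hsub
  rw [thickening_closedBall hδ zero_le_one] at hδU
  refine ⟨δ + 1, by linarith, fun z hz => ?_⟩
  obtain ⟨h1, h2⟩ := hδU hz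
  refine ⟨h1, ?_⟩
  have h5 : 0 < ‖1 + (starRingEnd ℂ) w * z‖ := norm_pos_iff.2 (u_ne h1)
  unfold mo
  rw [mem_ball_zero_iff, norm_div, div_lt_iff₀ h5]
  exact h2

theorem mo_hasDerivAt {w z : ℂ} (h : ‖w‖ * ‖z‖ < 1) :
    HasDerivAt (mo w) (((1 - ‖w‖ ^ 2 : ℝ) : ℂ) / (1 + (starRingEnd ℂ) w * z) ^ 2) z := by
  have h1 : HasDerivAt (fun z => w + z) 1 z := (hasDerivAt_id z).const_add w
  have h2 : HasDerivAt (fun z => 1 + (starRingEnd ℂ) w * z) ((starRingEnd ℂ) w) z := by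
    have := ((hasDerivAt_id z).const_mul ((starRingEnd ℂ) w)).const_add 1
    simpa using this
  have h3 := h1.div h2 (u_ne h)
  refine h3.congr_deriv ?_
  congr 1
  have : ((‖w‖ ^ 2 : ℝ) : ℂ) = w * (starRingEnd ℂ) w := by
    rw [Complex.mul_conj, Complex.normSq_eq_norm_sq]
  rw [Complex.ofReal_sub, this, Complex.ofReal_one]
  ring

theorem Cw_hasDerivAt {θ : ℂ} {F : ℂ → ℂ} {w z F' : ℂ} (h : ‖w‖ * ‖z‖ < 1)
    (hF : HasDerivAt F F' (mo w z)) :
    HasDerivAt (Cw θ F w) (Complex.exp (θ * Complex.log (1 + (starRingEnd ℂ) w * z)) *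
      (θ * ((starRingEnd ℂ) w / (1 + (starRingEnd ℂ) w * z)) * F (mo w z) +
        F' * (((1 - ‖w‖ ^ 2 : ℝ) : ℂ) / (1 + (starRingEnd ℂ) w * z) ^ 2))) z := by
  have h2 : HasDerivAt (fun z => 1 + (starRingEnd ℂ) w * z) ((starRingEnd ℂ) w) z := by
    have := ((hasDerivAt_id z).const_mul ((starRingEnd ℂ) w)).const_add 1
    simpa using this
  have h3 := ((h2.clog (u_slit h)).const_mul θ).cexp
  have h4 := hF.comp z (mo_hasDerivAt h)
  have h5 := h3.mul h4
  refine h5.congr_deriv ?_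
  simp only [Function.comp]
  ring

/-- the argument of the Moebius map -/
noncomputable def al (w : ℂ) (β : ℝ) : ℝ :=
  β - 2 * (Complex.log (1 + (starRingEnd ℂ) w * circleMap 0 1 β)).im

/-- its derivative -/
noncomputable def kp (w : ℂ) (β : ℝ) : ℝ :=
  1 - 2 * ((starRingEnd ℂ) w * circleMap 0 1 β / (1 + (starRingEnd ℂ) w * circleMap 0 1 β)).re

theorem norm_c1 (β : ℝ) : ‖circleMap 0 1 β‖ = 1 := by simp

theorem al_hasDerivAt {w : ℂ} (hw : ‖w‖ < 1) (β : ℝ) : HasDerivAt (al w) (kp w β) β := by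
  have h1 : ‖w‖ * ‖circleMap 0 1 β‖ < 1 := by rw [norm_c1, mul_one]; exact hw
  have h2 : HasDerivAt (fun β : ℝ => 1 + (starRingEnd ℂ) w * circleMap 0 1 β)
      ((starRingEnd ℂ) w * (circleMap 0 1 β * I)) β :=
    ((hasDerivAt_circleMap 0 1 β).const_mul _).const_add 1
  have h3 : HasDerivAt (fun β : ℝ => Complex.log (1 + (starRingEnd ℂ) w * circleMap 0 1 β))
      ((starRingEnd ℂ) w * (circleMap 0 1 β * I) / (1 + (starRingEnd ℂ) w * circleMap 0 1 β)) β :=
    h2.clog_real (u_slit h1)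
  have h4 : HasDerivAt (fun β : ℝ => (Complex.log (1 + (starRingEnd ℂ) w * circleMap 0 1 β)).im)
      ((starRingEnd ℂ) w * (circleMap 0 1 β * I) / (1 + (starRingEnd ℂ) w * circleMap 0 1 β)).im β :=
    Complex.imCLM.hasFDerivAt.comp_hasDerivAt β h3
  have h5 := (hasDerivAt_id β).sub (h4.const_mul 2)
  refine h5.congr_deriv ?_
  unfold kp
  congr 2
  rw [show (starRingEnd ℂ) w * (circleMap 0 1 β * I) / (1 + (starRingEnd ℂ) w * circleMap 0 1 β) =
    (starRingEnd ℂ) w * circleMap 0 1 β / (1 + (starRingEnd ℂ) w * circleMap 0 1 β) * I by ring,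
    Complex.mul_I_im]

theorem wz_eq {w z : ℂ} (hz : ‖z‖ = 1) : w + z = z * (starRingEnd ℂ) (1 + (starRingEnd ℂ) w * z) := by
  have h : z * (starRingEnd ℂ) z = 1 := by
    rw [Complex.mul_conj, Complex.normSq_eq_norm_sq, hz]
    simp
  rw [map_add, map_mul, Complex.conj_conj, map_one, mul_add, mul_one,
    show z * (w * (starRingEnd ℂ) z) = w * (z * (starRingEnd ℂ) z) by ring, h]
  ring

theorem circle_al {w : ℂ} (hw : ‖w‖ < 1) (ρ β : ℝ) :
    circleMap 0 ρ (al w β) = ρ * mo w (circleMap 0 1 β) := by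
  have h1 : ‖w‖ * ‖circleMap 0 1 β‖ < 1 := by rw [norm_c1, mul_one]; exact hw
  have hu := u_ne h1
  unfold mo
  rw [wz_eq (norm_c1 β)]
  set u := 1 + (starRingEnd ℂ) w * circleMap 0 1 β with hu'
  have e1 : Complex.exp ((al w β : ℂ) * I) = circleMap 0 1 β * ((starRingEnd ℂ) u / u) := by
    have e2 : (al w β : ℂ) * I = β * I + (starRingEnd ℂ) (Complex.log u) - Complex.log u := by
      unfold al
      rw [← hu']
      apply Complex.ext
      · simp
      · simp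
        ring
    rw [e2, Complex.exp_sub, Complex.exp_add, Complex.exp_conj, Complex.exp_log hu]
    unfold circleMap
    simp
    ring
  have e3 : circleMap 0 ρ (al w β) = ρ * Complex.exp ((al w β : ℂ) * I) := by
    unfold circleMap
    simp
  rw [e3, e1]
  ring

theorem kp_eq {w : ℂ} (hw : ‖w‖ < 1) (β : ℝ) :
    kp w β = (1 - ‖w‖ ^ 2) / ‖1 + (starRingEnd ℂ) w * circleMap 0 1 β‖ ^ 2 := by
  have h1 : ‖w‖ * ‖circleMap 0 1 β‖ < 1 := by rw [norm_c1, mul_one]; exact hw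
  have hu := u_ne h1
  unfold kp
  set y := (starRingEnd ℂ) w * circleMap 0 1 β with hy
  have hyn : ‖y‖ ^ 2 = ‖w‖ ^ 2 := by
    rw [hy, norm_mul, RCLike.norm_conj, norm_c1, mul_one]
  have hn : 0 < ‖1 + y‖ ^ 2 := by positivity
  rw [Complex.div_re, Complex.normSq_eq_norm_sq, ← hyn, eq_div_iff hn.ne', ← add_div, sub_mul,
    mul_assoc, div_mul_cancel₀ _ hn.ne']
  rw [← Complex.normSq_eq_norm_sq, ← Complex.normSq_eq_norm_sq, Complex.normSq_apply,
    Complex.normSq_apply]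
  simp only [Complex.add_re, Complex.add_im, Complex.one_re, Complex.one_im]
  ring

theorem kp_nonneg {w : ℂ} (hw : ‖w‖ < 1) (β : ℝ) : 0 ≤ kp w β := by
  rw [kp_eq hw]
  have := norm_nonneg w
  apply div_nonneg
  · nlinarith
  · positivity

theorem kp_cont {w : ℂ} (hw : ‖w‖ < 1) : Continuous (kp w) := by
  have h1 : ∀ β, ‖w‖ * ‖circleMap 0 1 β‖ < 1 := fun β => by rw [norm_c1, mul_one]; exact hw
  unfold kp
  apply continuous_const.sub
  apply continuous_const.mul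
  apply Complex.continuous_re.comp
  exact (continuous_const.mul (continuous_circleMap 0 1)).div
    (continuous_const.add (continuous_const.mul (continuous_circleMap 0 1))) fun β => u_ne (h1 β)

/-- `kp • mo = z mo'` -/
theorem kp_mo {w : ℂ} (hw : ‖w‖ < 1) (β : ℝ) :
    (kp w β : ℂ) * mo w (circleMap 0 1 β) = circleMap 0 1 β *
      (((1 - ‖w‖ ^ 2 : ℝ) : ℂ) / (1 + (starRingEnd ℂ) w * circleMap 0 1 β) ^ 2) := by
  have h1 : ‖w‖ * ‖circleMap 0 1 β‖ < 1 := by rw [norm_c1, mul_one]; exact hw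
  have hu := u_ne h1
  rw [kp_eq hw]
  unfold mo
  rw [wz_eq (norm_c1 β)]
  set u := 1 + (starRingEnd ℂ) w * circleMap 0 1 β with hu'
  have hcu : (starRingEnd ℂ) u ≠ 0 := (map_ne_zero _).2 hu
  have hn : ((‖u‖ ^ 2 : ℝ) : ℂ) = u * (starRingEnd ℂ) u := by
    rw [Complex.mul_conj, Complex.normSq_eq_norm_sq]
  rw [Complex.ofReal_div, hn]
  field_simp

/-- `mo - w` -/
theorem mo_sub {w z : ℂ} (h : ‖w‖ * ‖z‖ < 1) :
    mo w z - w = z * ((1 - ‖w‖ ^ 2 : ℝ) : ℂ) / (1 + (starRingEnd ℂ) w * z) := by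
  have hu := u_ne h
  have hn : ((‖w‖ ^ 2 : ℝ) : ℂ) = w * (starRingEnd ℂ) w := by
    rw [Complex.mul_conj, Complex.normSq_eq_norm_sq]
  unfold mo
  rw [Complex.ofReal_sub, Complex.ofReal_one, hn, eq_div_iff hu, sub_mul, div_mul_cancel₀ _ hu]
  ring

/-- `kp * (w / (mo - w)) = conj (conj w z / u)` -/
theorem kp_w {w : ℂ} (hw : ‖w‖ < 1) (β : ℝ) :
    (kp w β : ℂ) * (w / (mo w (circleMap 0 1 β) - w)) =
      (starRingEnd ℂ) ((starRingEnd ℂ) w * circleMap 0 1 β /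
        (1 + (starRingEnd ℂ) w * circleMap 0 1 β)) := by
  have h1 : ‖w‖ * ‖circleMap 0 1 β‖ < 1 := by rw [norm_c1, mul_one]; exact hw
  have hu := u_ne h1
  rw [mo_sub h1, kp_eq hw]
  have hz : circleMap 0 1 β * (starRingEnd ℂ) (circleMap 0 1 β) = 1 := by
    rw [Complex.mul_conj, Complex.normSq_eq_norm_sq, norm_c1]
    simp
  rw [map_div₀, map_mul, Complex.conj_conj]
  set z := circleMap 0 1 β with hz'
  have hz0 : z ≠ 0 := by
    intro h
    rw [h, zero_mul] at hz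
    exact zero_ne_one hz
  set u := 1 + (starRingEnd ℂ) w * z with hu'
  have hcu : (starRingEnd ℂ) u ≠ 0 := (map_ne_zero _).2 hu
  have hn : ((‖u‖ ^ 2 : ℝ) : ℂ) = u * (starRingEnd ℂ) u := by
    rw [Complex.mul_conj, Complex.normSq_eq_norm_sq]
  have h2 : (((1 - ‖w‖ ^ 2 : ℝ)) : ℂ) ≠ 0 := by
    have : (0 : ℝ) < 1 - ‖w‖ ^ 2 := by
      have := norm_nonneg w
      nlinarith
    exact_mod_cast this.ne'
  rw [Complex.ofReal_div, hn]
  have h3 : (starRingEnd ℂ) z = z⁻¹ := eq_inv_of_mul_eq_one_right hz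
  rw [h3]
  field_simp

/-- **The area inequality after the change of variables.** -/
theorem moeb {Y H : ℂ → ℂ} {f : ℂ × ℂ → ℂ} (S : Sg Y H) (L : Lg Y f) {ρ θ : ℝ} (hρ0 : 0 < ρ)
    (hρ1 : ρ < 1) (hθ0 : 0 ≤ θ) {w : ℂ} (hw0 : w ≠ 0) (hw : ‖w‖ < 1) {F : ℂ → ℂ}
    (hF : ∀ v : ℂ, F v = Complex.exp (-θ * f (ρ * w, ρ * v))) {C : ℂ → ℂ} (hC : C = Cw θ F w)
    {r : ℝ} (hr : 1 < r) (hCr : DifferentiableOn ℂ C (ball 0 r)) :
    (∫ β in (0:ℝ)..(2 * Real.pi), (starRingEnd ℂ) (C (circleMap 0 1 β)) *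
      (circleMap 0 1 β * deriv C (circleMap 0 1 β))).re ≤
      θ * (∫ β in (0:ℝ)..(2 * Real.pi), (starRingEnd ℂ) (C (circleMap 0 1 β)) *
        C (circleMap 0 1 β)).re := by
  have hζ0 : (ρ : ℂ) * w ≠ 0 := mul_ne_zero (by exact_mod_cast hρ0.ne') hw0
  have hζn : ‖(ρ : ℂ) * w‖ = ρ * ‖w‖ := by
    rw [norm_mul, Complex.norm_real, Real.norm_of_nonneg hρ0.le]
  have hζρ : ‖(ρ : ℂ) * w‖ < ρ := by
    rw [hζn]
    nlinarith
  have hζb : (ρ : ℂ) * w ∈ ball (0 : ℂ) 1 := mem_ball_zero_iff.2 (hζρ.trans hρ1)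
  have hj := area_pow S L hρ1 hζ0 hζρ (-(θ : ℂ))
  set ζ : ℂ := ρ * w with hζ
  set φ : ℂ → ℂ := fun z => Complex.exp (-(θ : ℂ) * ell f ζ z) with hφ
  have hYd := S.G.diff
  -- derivative of φ
  have hfd : ∀ z ∈ ball (0 : ℂ) 1, HasDerivAt (fun z => f (ζ, z)) (deriv (fun z => f (ζ, z)) z) z :=
    fun z hz => ((L.diff2 hYd hζb).differentiableAt (isOpen_ball.mem_nhds hz)).hasDerivAt
  have hφd : ∀ z : ℂ, ‖ζ‖ < ‖z‖ → ‖z‖ < 1 → HasDerivAt φ (φ z * (-(θ : ℂ) *
      (deriv (fun z => f (ζ, z)) z + (ζ / z ^ 2) / (1 - ζ * z⁻¹)))) z := by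
    intro z hz1 hz2
    have hz0 : z ≠ 0 := norm_pos_iff.1 ((norm_nonneg ζ).trans_lt hz1)
    have h1 : HasDerivAt (fun z : ℂ => 1 - ζ * z⁻¹) (ζ / z ^ 2) z := by
      have := ((hasDerivAt_inv hz0).const_mul ζ).const_sub 1
      refine this.congr_deriv ?_
      field_simp
    have h2 := (hfd z (mem_ball_zero_iff.2 hz2)).add (h1.clog (slit hz1))
    exact (h2.const_mul (-(θ : ℂ))).cexp
  have hcirc : ∀ a : ℝ, ‖circleMap 0 ρ a‖ = ρ := fun a => by simp [abs_of_pos hρ0]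
  have hAo : IsOpen {z : ℂ | ‖ζ‖ < ‖z‖ ∧ ‖z‖ < 1} :=
    (isOpen_lt continuous_const continuous_norm).inter (isOpen_lt continuous_norm continuous_const)
  have hφD : DifferentiableOn ℂ φ {z : ℂ | ‖ζ‖ < ‖z‖ ∧ ‖z‖ < 1} := fun z hz =>
    (hφd z hz.1 hz.2).differentiableAt.differentiableWithinAt
  have hKc : Continuous fun a : ℝ => (starRingEnd ℂ) (φ (circleMap 0 ρ a)) *
      (circleMap 0 ρ a * deriv φ (circleMap 0 ρ a)) := by
    have c1 : Continuous fun a : ℝ => φ (circleMap 0 ρ a) :=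
      hφD.continuousOn.comp_continuous (continuous_circleMap 0 ρ) fun a => by
        rw [mem_ofPred_eq, hcirc]; exact ⟨hζρ, hρ1⟩
    have c2 : Continuous fun a : ℝ => deriv φ (circleMap 0 ρ a) :=
      (hφD.deriv hAo).continuousOn.comp_continuous (continuous_circleMap 0 ρ) fun a => by
        rw [mem_ofPred_eq, hcirc]; exact ⟨hζρ, hρ1⟩
    exact (Complex.continuous_conj.comp c1).mul ((continuous_circleMap 0 ρ).mul c2)
  -- substitution
  set K : ℝ → ℂ := fun a : ℝ => (starRingEnd ℂ) (φ (circleMap 0 ρ a)) *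
      (circleMap 0 ρ a * deriv φ (circleMap 0 ρ a)) with hK
  have hKp : Function.Periodic K (2 * Real.pi) := by
    intro a
    show K (a + 2 * Real.pi) = K a
    simp only [hK]
    rw [periodic_circleMap 0 ρ a]
  have hal2 : al w (2 * Real.pi) = al w 0 + 2 * Real.pi := by
    unfold al
    have := periodic_circleMap 0 1 0
    rw [zero_add] at this
    rw [this]
    ring
  have hsub : ∫ a in (0:ℝ)..(2 * Real.pi), K a = ∫ β in (0:ℝ)..(2 * Real.pi), kp w β • K (al w β) := by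
    have h1 := intervalIntegral.integral_deriv_smul_comp (f := al w) (f' := kp w) (g := K)
      (a := (0:ℝ)) (b := 2 * Real.pi) (fun β _ => al_hasDerivAt hw β)
      (kp_cont hw).continuousOn hKc
    have h2 := hKp.intervalIntegral_add_eq 0 (al w 0)
    rw [zero_add, ← hal2] at h2
    rw [h2, ← h1]
    rfl
  have hJ : (∫ β in (0:ℝ)..(2 * Real.pi), kp w β • K (al w β)).re ≤ 0 := by
    rw [← hsub]
    exact hj
  -- the functions on the unit circle
  have hun : ∀ β : ℝ, ‖w‖ * ‖circleMap 0 1 β‖ < 1 := fun β => by rw [norm_c1, mul_one]; exact hw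
  have hmn : ∀ β : ℝ, ‖mo w (circleMap 0 1 β)‖ = 1 := by
    intro β
    have h1 := mo_id w (circleMap 0 1 β)
    rw [norm_c1] at h1
    have h2 : ‖1 + (starRingEnd ℂ) w * circleMap 0 1 β‖ = ‖w + circleMap 0 1 β‖ := by
      apply (sq_eq_sq₀ (norm_nonneg _) (norm_nonneg _)).1
      linarith
    unfold mo
    rw [norm_div, h2, div_self]
    rw [← h2]
    exact (norm_pos_iff.2 (u_ne (hun β))).ne'
  have hzn : ∀ β : ℝ, ‖(ρ : ℂ) * mo w (circleMap 0 1 β)‖ = ρ := by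
    intro β
    rw [norm_mul, hmn, mul_one, Complex.norm_real, Real.norm_of_nonneg hρ0.le]
  have hCd : ∀ β : ℝ, HasDerivAt C (C (circleMap 0 1 β) *
      (θ * ((starRingEnd ℂ) w / (1 + (starRingEnd ℂ) w * circleMap 0 1 β)) -
        θ * ρ * deriv (fun z => f (ζ, z)) (ρ * mo w (circleMap 0 1 β)) *
        (((1 - ‖w‖ ^ 2 : ℝ) : ℂ) / (1 + (starRingEnd ℂ) w * circleMap 0 1 β) ^ 2)))
      (circleMap 0 1 β) := by
    intro β
    have hb : (ρ : ℂ) * mo w (circleMap 0 1 β) ∈ ball (0 : ℂ) 1 := by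
      rw [mem_ball_zero_iff, hzn]; exact hρ1
    have h1 : HasDerivAt (fun v : ℂ => (ρ : ℂ) * v) (ρ : ℂ) (mo w (circleMap 0 1 β)) := by
      simpa using (hasDerivAt_id (mo w (circleMap 0 1 β))).const_mul (ρ : ℂ)
    have h2 := (hfd _ hb).comp (mo w (circleMap 0 1 β)) h1
    have h3 : HasDerivAt F (F (mo w (circleMap 0 1 β)) * (-θ *
        (deriv (fun z => f (ζ, z)) (ρ * mo w (circleMap 0 1 β)) * ρ))) (mo w (circleMap 0 1 β)) := by
      have h4 := (h2.const_mul (-(θ : ℂ))).cexp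
      have h5 : F = fun v => Complex.exp (-(θ : ℂ) * ((fun z => f (ζ, z)) ∘ fun v => (ρ : ℂ) * v) v) := by
        funext v
        rw [hF]
        rfl
      rw [h5]
      exact h4
    have h6 := Cw_hasDerivAt (θ := θ) (hun β) h3
    rw [hC]
    refine h6.congr_deriv ?_
    unfold Cw
    ring
  have hmain : ∀ β : ℝ, (kp w β • K (al w β)).re = Real.exp (-2 * θ * Real.log (1 - ‖w‖ ^ 2)) *
      (((starRingEnd ℂ) (C (circleMap 0 1 β)) * (circleMap 0 1 β * deriv C (circleMap 0 1 β))).re -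
      θ * ((starRingEnd ℂ) (C (circleMap 0 1 β)) * C (circleMap 0 1 β)).re +
      θ * kp w β * ‖C (circleMap 0 1 β)‖ ^ 2) := by
    intro β
    have hu := u_ne (hun β)
    have hm1 := hmn β
    have hz1 := hzn β
    have hms := mo_sub (hun β)
    have hkw := kp_w hw β
    have hkm := kp_mo hw β
    have hw2 : 0 < 1 - ‖w‖ ^ 2 := by
      have := norm_nonneg w
      nlinarith
    have hlz : ‖ζ‖ < ‖(ρ : ℂ) * mo w (circleMap 0 1 β)‖ := by rw [hz1]; exact hζρ
    have hder := (hφd ((ρ : ℂ) * mo w (circleMap 0 1 β)) hlz (by rw [hz1]; exact hρ1)).deriv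
    have hKβ : K (al w β) = (starRingEnd ℂ) (φ ((ρ : ℂ) * mo w (circleMap 0 1 β))) *
        ((ρ : ℂ) * mo w (circleMap 0 1 β) * deriv φ ((ρ : ℂ) * mo w (circleMap 0 1 β))) := by
      simp only [hK]
      rw [circle_al hw]
    have hCβ : C (circleMap 0 1 β) = Complex.exp (θ * Complex.log (1 + (starRingEnd ℂ) w *
        circleMap 0 1 β)) * Complex.exp (-θ * f (ζ, ρ * mo w (circleMap 0 1 β))) := by
      rw [hC]
      unfold Cw
      rw [hF]
    have hcn : ‖circleMap 0 1 β‖ = 1 := norm_c1 β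
    rw [hKβ, (hCd β).deriv, hder]
    have hkpd : kp w β = 1 - 2 * ((starRingEnd ℂ) w * circleMap 0 1 β /
      (1 + (starRingEnd ℂ) w * circleMap 0 1 β)).re := rfl
    set l := circleMap 0 1 β with hl
    set m := mo w l with hm
    set u := 1 + (starRingEnd ℂ) w * l with hu'
    set D := deriv (fun z => f (ζ, z)) (ρ * m) with hD
    set m' := ((1 - ‖w‖ ^ 2 : ℝ) : ℂ) / u ^ 2 with hm'
    have hm0 : m ≠ 0 := by
      rw [← norm_pos_iff, hm1]
      exact one_pos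
    have hρc : (ρ : ℂ) ≠ 0 := by exact_mod_cast hρ0.ne'
    have hl0 : l ≠ 0 := by
      rw [← norm_pos_iff, hcn]
      exact one_pos
    have hw2c : (((1 - ‖w‖ ^ 2 : ℝ)) : ℂ) ≠ 0 := by exact_mod_cast hw2.ne'
    have hmw : m - w ≠ 0 := by
      rw [hms]
      exact div_ne_zero (mul_ne_zero hl0 hw2c) hu
    -- the norm of φ
    have hone : ‖1 - ζ * (ρ * m)⁻¹‖ = (1 - ‖w‖ ^ 2) / ‖u‖ := by
      have e1 : 1 - ζ * (ρ * m)⁻¹ = (m - w) / m := by
        rw [hζ]
        field_simp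
      rw [e1, norm_div, hm1, div_one, hms, norm_div, norm_mul, hcn, one_mul, Complex.norm_real,
        Real.norm_of_nonneg hw2.le]
    have hnorm : ‖φ (ρ * m)‖ ^ 2 = Real.exp (-2 * θ * Real.log (1 - ‖w‖ ^ 2)) * ‖C l‖ ^ 2 := by
      have hun0 : ‖u‖ ≠ 0 := (norm_pos_iff.2 hu).ne'
      rw [hCβ, hφ]
      simp only [norm_mul, Complex.norm_exp]
      have e1 : (-(θ : ℂ) * ell f ζ (ρ * m)).re = -θ * ((f (ζ, ρ * m)).re +
          (Real.log (1 - ‖w‖ ^ 2) - Real.log ‖u‖)) := by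
        unfold ell
        rw [← Complex.ofReal_neg, Complex.re_ofReal_mul, Complex.add_re, Complex.log_re, hone,
          Real.log_div hw2.ne' hun0]
      have e2 : ((θ : ℂ) * Complex.log u).re = θ * Real.log ‖u‖ := by
        rw [Complex.re_ofReal_mul, Complex.log_re]
      have e3 : (-(θ : ℂ) * f (ζ, ρ * m)).re = -θ * (f (ζ, ρ * m)).re := by
        rw [← Complex.ofReal_neg, Complex.re_ofReal_mul]
      rw [e1, e2, e3, ← Real.exp_add, ← Real.exp_nat_mul, ← Real.exp_nat_mul, ← Real.exp_add]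
      congr 1
      push_cast
      ring
    -- the factor A
    have hA : (ρ : ℂ) * m * (φ (ρ * m) * (-(θ : ℂ) * (D + ζ / (ρ * m) ^ 2 / (1 - ζ * (ρ * m)⁻¹)))) =
        φ (ρ * m) * (-(θ : ℂ) * (ρ * m * D + w / (m - w))) := by
      have e1 : (ρ : ℂ) * m * (ζ / (ρ * m) ^ 2 / (1 - ζ * (ρ * m)⁻¹)) = w / (m - w) := by
        have e2 : 1 - ζ * (ρ * m)⁻¹ = (m - w) / m := by
          rw [hζ]
          field_simp
        rw [e2, hζ]
        field_simp
      rw [← e1]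
      ring
    have hL : ((kp w β : ℝ) • ((starRingEnd ℂ) (φ (ρ * m)) * ((ρ : ℂ) * m * (φ (ρ * m) *
        (-(θ : ℂ) * (D + ζ / (ρ * m) ^ 2 / (1 - ζ * (ρ * m)⁻¹))))))).re =
        ‖φ (ρ * m)‖ ^ 2 * (-θ * ((ρ * (l * m') * D).re +
          ((starRingEnd ℂ) w * l / u).re)) := by
      rw [hA]
      have e1 : (kp w β : ℝ) • ((starRingEnd ℂ) (φ (ρ * m)) * (φ (ρ * m) *
          (-(θ : ℂ) * (ρ * m * D + w / (m - w))))) = ((‖φ (ρ * m)‖ ^ 2 : ℝ) : ℂ) *
          (((-θ : ℝ) : ℂ) * (ρ * (l * m') * D + (starRingEnd ℂ) ((starRingEnd ℂ) w * l / u))) := by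
        rw [← Complex.normSq_eq_norm_sq, Complex.normSq_eq_conj_mul_self, ← hkm, ← hkw,
          Complex.real_smul]
        push_cast
        ring
      rw [e1, Complex.re_ofReal_mul, Complex.re_ofReal_mul, Complex.add_re, Complex.conj_re]
    have hR1 : ((starRingEnd ℂ) (C l) * (l * (C l * (θ * ((starRingEnd ℂ) w / u) -
        θ * ρ * D * m')))).re = ‖C l‖ ^ 2 * (θ * (((starRingEnd ℂ) w * l / u).re -
          (ρ * (l * m') * D).re)) := by
      have e1 : (starRingEnd ℂ) (C l) * (l * (C l * (θ * ((starRingEnd ℂ) w / u) -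
        θ * ρ * D * m'))) = ((‖C l‖ ^ 2 : ℝ) : ℂ) * ((θ : ℂ) * ((starRingEnd ℂ) w * l / u -
          ρ * (l * m') * D)) := by
        rw [← Complex.normSq_eq_norm_sq, Complex.normSq_eq_conj_mul_self]
        ring
      rw [e1, Complex.re_ofReal_mul, Complex.re_ofReal_mul, Complex.sub_re]
    have hR2 : ((starRingEnd ℂ) (C l) * C l).re = ‖C l‖ ^ 2 := by
      rw [← Complex.normSq_eq_conj_mul_self, Complex.ofReal_re, Complex.normSq_eq_norm_sq]
    rw [hL, hR1, hR2, hnorm, hkpd]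
    ring
  -- integrate
  have hCc : Continuous fun β : ℝ => C (circleMap 0 1 β) := by
    rw [continuous_iff_continuousAt]
    intro β
    exact (hCd β).continuousAt.comp (continuous_circleMap 0 1).continuousAt
  have hC'c : Continuous fun β : ℝ => deriv C (circleMap 0 1 β) :=
    (hCr.deriv isOpen_ball).continuousOn.comp_continuous (continuous_circleMap 0 1) fun β => by
      rw [mem_ball_zero_iff, norm_c1]; exact hr
  have hre : ∀ g : ℝ → ℂ, Continuous g → (∫ β in (0:ℝ)..(2 * Real.pi), g β).re =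
      ∫ β in (0:ℝ)..(2 * Real.pi), (g β).re := fun g hg =>
    (Complex.reCLM.intervalIntegral_comp_comm (hg.intervalIntegrable _ _)).symm
  have hc1 : Continuous fun β : ℝ => (starRingEnd ℂ) (C (circleMap 0 1 β)) *
      (circleMap 0 1 β * deriv C (circleMap 0 1 β)) :=
    (Complex.continuous_conj.comp hCc).mul ((continuous_circleMap 0 1).mul hC'c)
  have hc2 : Continuous fun β : ℝ => (starRingEnd ℂ) (C (circleMap 0 1 β)) *
      C (circleMap 0 1 β) := (Complex.continuous_conj.comp hCc).mul hCc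
  have hc3 : Continuous fun β : ℝ => θ * kp w β * ‖C (circleMap 0 1 β)‖ ^ 2 :=
    (continuous_const.mul (kp_cont hw)).mul (hCc.norm.pow 2)
  have hc4 : Continuous fun β : ℝ => kp w β • K (al w β) := by
    apply (kp_cont hw).smul (hKc.comp _)
    rw [continuous_iff_continuousAt]
    exact fun β => (al_hasDerivAt hw β).continuousAt
  rw [hre _ hc4] at hJ
  rw [hre _ hc1, hre _ hc2]
  simp only [hmain] at hJ
  rw [intervalIntegral.integral_const_mul] at hJ
  have hr1 : Continuous fun β : ℝ => ((starRingEnd ℂ) (C (circleMap 0 1 β)) *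
      (circleMap 0 1 β * deriv C (circleMap 0 1 β))).re := Complex.continuous_re.comp hc1
  have hr2 : Continuous fun β : ℝ => θ * ((starRingEnd ℂ) (C (circleMap 0 1 β)) *
      C (circleMap 0 1 β)).re := continuous_const.mul (Complex.continuous_re.comp hc2)
  have hJ2 := nonpos_of_mul_nonpos_right hJ (Real.exp_pos _)
  have hr3 : Continuous fun β : ℝ => ((starRingEnd ℂ) (C (circleMap 0 1 β)) *
      (circleMap 0 1 β * deriv C (circleMap 0 1 β))).re - θ * ((starRingEnd ℂ) (C (circleMap 0 1 β)) *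
      C (circleMap 0 1 β)).re := hr1.sub hr2
  rw [intervalIntegral.integral_add (hr3.intervalIntegrable _ _)
    (hc3.intervalIntegrable _ _), intervalIntegral.integral_sub (hr1.intervalIntegrable _ _)
    (hr2.intervalIntegrable _ _), intervalIntegral.integral_const_mul] at hJ2
  have hpos : 0 ≤ ∫ β in (0:ℝ)..(2 * Real.pi), θ * kp w β * ‖C (circleMap 0 1 β)‖ ^ 2 := by
    apply intervalIntegral.integral_nonneg (by positivity)
    intro β _
    exact mul_nonneg (mul_nonneg hθ0 (kp_nonneg hw β)) (sq_nonneg _)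
  linarith

end Pool.Agent.W5h41.MA
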